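import Mathlib

set_option autoImplicit false
open MeasureTheory Set ProbabilityTheory

namespace Pool.Agent.helper751_mad

/-- If `h` and `f` are conditionally independent over `s` (in the form of `hK`), and a measurable
set `E` contains all `(h x, f x)` while all sections `E_{h x}` are `ρ`-null, then the joint law of
`(s, f)` is singular to the product of the law of `s` and `ρ`. -/
theorem mutuallySingular_of_condDistrib {X S : Type} [MeasurableSpace X] {μ : Measure X}
    [IsProbabilityMeasure μ] [MeasurableSpace S] {s : X → S} {f h : X → ℝ}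
    (hs : Measurable s) (hf : Measurable f) (hh : Measurable h)
    (ρ : Measure ℝ) [IsProbabilityMeasure ρ] {E : Set (ℝ × ℝ)} (hE : MeasurableSet E)
    (hE1 : ∀ x, (h x, f x) ∈ E) (hE2 : ∀ x, ρ (Prod.mk (h x) ⁻¹' E) = 0)
    (hK : ∀ (a b : ℚ) (A : Set (S × ℝ)), MeasurableSet A →
      μ ((fun x => (s x, f x)) ⁻¹' A ∩ h ⁻¹' (Ioo (a : ℝ) b)) =
        ∫⁻ x in (fun x => (s x, f x)) ⁻¹' A, condDistrib h s μ (s x) (Ioo (a : ℝ) b) ∂μ) :
    (μ.map (fun x => (s x, f x))) ⟂ₘ ((μ.map s).prod ρ) := by
  classical
  have hsf : Measurable (fun x => (s x, f x)) := hs.prodMk hf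
  have hsh : Measurable (fun x => (s x, h x)) := hs.prodMk hh
  have hsfh : Measurable (fun x => ((s x, f x), h x)) := hsf.prodMk hh
  have : IsProbabilityMeasure (μ.map s) := Measure.isProbabilityMeasure_map hs.aemeasurable
  have : IsProbabilityMeasure (μ.map (fun x => (s x, f x))) :=
    Measure.isProbabilityMeasure_map hsf.aemeasurable
  set K := condDistrib h s μ with hKdef
  -- the law of `((s, f), h)`
  have key : μ.map (fun x => ((s x, f x), h x)) =
      (μ.map (fun x => (s x, f x))) ⊗ₘ (K.comap Prod.fst measurable_fst) := by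
    have hAB : ∀ A : Set (S × ℝ), MeasurableSet A → ∀ B : Set ℝ, MeasurableSet B →
        μ ((fun x => (s x, f x)) ⁻¹' A ∩ h ⁻¹' B) =
        ∫⁻ x in (fun x => (s x, f x)) ⁻¹' A, K (s x) B ∂μ := by
      intro A hA B hB
      let ν1 : Measure ℝ := (μ.restrict ((fun x => (s x, f x)) ⁻¹' A)).map h
      let ν2 : Measure ℝ := (μ.restrict ((fun x => (s x, f x)) ⁻¹' A)).bind
        (fun x => K (s x))
      have hm : Measurable (fun x => K (s x)) := K.measurable.comp hs
      have h1 : ∀ B : Set ℝ, MeasurableSet B →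
          ν1 B = μ ((fun x => (s x, f x)) ⁻¹' A ∩ h ⁻¹' B) := by
        intro B hB
        simp only [ν1]
        rw [Measure.map_apply hh hB, Measure.restrict_apply (hh hB), inter_comm]
      have h2 : ∀ B : Set ℝ, MeasurableSet B →
          ν2 B = ∫⁻ x in (fun x => (s x, f x)) ⁻¹' A, K (s x) B ∂μ := by
        intro B hB
        exact Measure.bind_apply hB hm.aemeasurable
      have : IsFiniteMeasure ν1 := by
        refine ⟨?_⟩
        rw [h1 _ MeasurableSet.univ]
        exact measure_lt_top _ _
      have h3 : ν1 = ν2 := by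
        refine Real.measure_ext_Ioo_rat fun a b => ?_
        rw [h1 _ measurableSet_Ioo, h2 _ measurableSet_Ioo]
        exact hK a b A hA
      rw [← h1 B hB, ← h2 B hB, h3]
    refine Measure.ext_prod fun {A} {B} hA hB => ?_
    rw [Measure.map_apply hsfh (hA.prod hB), Measure.compProd_apply_prod hA hB,
      ]
    have h4 : (fun x => ((s x, f x), h x)) ⁻¹' (A ×ˢ B) =
        (fun x => (s x, f x)) ⁻¹' A ∩ h ⁻¹' B := by
      ext x; simp
    rw [h4, hAB A hA B hB]
    rw [setLIntegral_map hA (Kernel.measurable_coe _ hB) hsf]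
    rfl
  -- a.e. for the law of `(s, f)`
  let R : Set ((S × ℝ) × ℝ) := {q | (q.2, q.1.2) ∉ E}
  have hR : MeasurableSet R :=
    (measurable_snd.prodMk (measurable_snd.comp measurable_fst)) hE.compl
  set K' : Kernel (S × ℝ) ℝ := K.comap Prod.fst measurable_fst with hK'
  let D : Set (S × ℝ) := {p | K' p (Prod.mk p ⁻¹' R) ≠ 0}
  have hDm : MeasurableSet D :=
    (Kernel.measurable_kernel_prodMk_left hR) (measurableSet_singleton 0).compl
  have hD1 : (μ.map (fun x => (s x, f x))) D = 0 := by
    have h5 : ((μ.map (fun x => (s x, f x))) ⊗ₘ K') R = 0 := by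
      rw [← key, Measure.map_apply hsfh hR]
      have : (fun x => ((s x, f x), h x)) ⁻¹' R = ∅ := by
        ext x
        simp only [R, mem_preimage, mem_ofPred_eq, mem_empty_iff_false, iff_false, not_not]
        exact hE1 x
      rw [this, measure_empty]
    rw [Measure.compProd_apply hR, lintegral_eq_zero_iff
      (Kernel.measurable_kernel_prodMk_left hR)] at h5
    exact h5
  refine ⟨D, hDm, hD1, ?_⟩
  rw [Measure.measure_prod_null hDm.compl]
  let P : Set ℝ := {z | ρ (Prod.mk z ⁻¹' E) ≠ 0}
  have hP : MeasurableSet P :=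
    (measurable_measure_prodMk_left hE) (measurableSet_singleton 0).compl
  have hP0 : ∀ᵐ t ∂(μ.map s), K t P = 0 := by
    have h6 : ((μ.map s) ⊗ₘ K) (univ ×ˢ P) = 0 := by
      rw [compProd_map_condDistrib hh.aemeasurable,
        Measure.map_apply hsh (MeasurableSet.univ.prod hP)]
      have : (fun x => (s x, h x)) ⁻¹' (univ ×ˢ P) = ∅ := by
        ext x
        simp only [P, mem_preimage, mem_prod, mem_univ, true_and, mem_ofPred_eq,
          mem_empty_iff_false, iff_false, not_not]
        exact hE2 x
      rw [this, measure_empty]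
    rw [Measure.compProd_apply_prod MeasurableSet.univ hP, Measure.restrict_univ,
      lintegral_eq_zero_iff (Kernel.measurable_coe _ hP)] at h6
    exact h6
  filter_upwards [hP0] with t ht
  simp only [Pi.zero_apply]
  have h7 : ((K t).prod ρ) E = 0 := by
    rw [Measure.measure_prod_null hE]
    rw [Filter.EventuallyEq, ae_iff]
    exact ht
  have h8 : ∀ᵐ y ∂ρ, K t ((fun z => (z, y)) ⁻¹' E) = 0 := by
    rw [Measure.prod_apply_symm hE, lintegral_eq_zero_iff
      (measurable_measure_prodMk_right hE)] at h7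
    exact h7
  refine measure_mono_null ?_ (ae_iff.1 h8)
  intro y hy
  simp only [D, mem_preimage, mem_compl_iff, mem_ofPred_eq, not_not] at hy ⊢
  intro h9
  have h10 : (K t) univ = 0 := by
    have : (univ : Set ℝ) ⊆ ((fun z => (z, y)) ⁻¹' E) ∪ (Prod.mk (t, y) ⁻¹' R) := by
      intro z _
      by_cases hz : (z, y) ∈ E
      · exact Or.inl hz
      · exact Or.inr hz
    exact measure_mono_null this (measure_union_null h9 hy)
  rw [measure_univ] at h10
  exact one_ne_zero h10

end Pool.Agent.helper751_mad
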