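import Mathlib

set_option autoImplicit false
open MeasureTheory Set Cardinal

namespace Pool.Agent.helper751_mad

/-- The type `X` with the total measure `μ` witnesses that `#X` is real-valued measurable. -/
structure IsRVM (X : Type) [MeasurableSpace X] (μ : Measure X) : Prop where
  all : ∀ s : Set X, MeasurableSet s
  unc : Cardinal.aleph0 < Cardinal.mk X
  tot : μ Set.univ = 1
  pt : ∀ x : X, μ {x} = 0
  add : ∀ (ι : Type) (f : ι → Set X), Cardinal.mk ι < Cardinal.mk X →
    Pairwise (Function.onFun Disjoint f) → μ (⋃ i, f i) = ∑' i, μ (f i)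

variable {X : Type} [MeasurableSpace X] {μ : Measure X}

/-- Unions of fewer than `#X` null sets are null. -/
theorem IsRVM.null_iUnion (h : IsRVM X μ) {ι : Type} (hι : #ι < #X) (f : ι → Set X)
    (hf : ∀ i, μ (f i) = 0) : μ (⋃ i, f i) = 0 := by
  classical
  obtain ⟨lo, wf, -⟩ := Cardinal.exists_ord_eq_type_lt ι
  let g : ι → Set X := fun i => f i \ ⋃ j : Iio i, f j
  have hg : (⋃ i, f i) = ⋃ i, g i := by
    ext x
    constructor
    · intro hx
      obtain ⟨i, hi⟩ := mem_iUnion.1 hx
      have hne : {i | x ∈ f i}.Nonempty := ⟨i, hi⟩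
      let i0 := wf.wf.min _ hne
      have h0 : x ∈ f i0 := wf.wf.min_mem _ hne
      refine mem_iUnion.2 ⟨i0, h0, ?_⟩
      intro hcon
      obtain ⟨j, hxj⟩ := mem_iUnion.1 hcon
      exact wf.wf.not_lt_min _ (x := (j : ι)) hxj j.2
    · intro hx
      obtain ⟨i, hi⟩ := mem_iUnion.1 hx
      exact mem_iUnion.2 ⟨i, hi.1⟩
  have hdis : Pairwise (Function.onFun Disjoint g) := by
    intro i j hij
    rw [Function.onFun, Set.disjoint_left]
    intro x hxi hxj
    rcases lt_trichotomy i j with h1 | h1 | h1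
    · exact hxj.2 (mem_iUnion.2 ⟨⟨i, h1⟩, hxi.1⟩)
    · exact hij h1
    · exact hxi.2 (mem_iUnion.2 ⟨⟨j, h1⟩, hxj.1⟩)
  rw [hg, h.add ι g hι hdis]
  have : ∀ i, μ (g i) = 0 := fun i => measure_mono_null sdiff_subset (hf i)
  simp [this]

/-- Sets of size less than `#X` are null. -/
theorem IsRVM.null_of_small (h : IsRVM X μ) {S : Set X} (hS : #S < #X) : μ S = 0 := by
  have : S = ⋃ i : S, {(i : X)} := by
    ext x; simp
  rw [this]
  exact h.null_iUnion hS _ (fun i => h.pt _)

theorem IsRVM.measurable (h : IsRVM X μ) {Y : Type*} [MeasurableSpace Y] (f : X → Y) :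
    Measurable f := fun _ _ => h.all _

theorem IsRVM.prob (h : IsRVM X μ) : IsProbabilityMeasure μ := ⟨h.tot⟩

/-- A set is null as soon as its preimage under an injective random variable is small. -/
theorem IsRVM.map_singleton (h : IsRVM X μ) {Y : Type*} [MeasurableSpace Y]
    [MeasurableSingletonClass Y] {f : X → Y} (hf : Function.Injective f) (y : Y) :
    (μ.map f) {y} = 0 := by
  rw [Measure.map_apply (h.measurable f) (measurableSet_singleton y)]
  have hs : (f ⁻¹' {y}).Subsingleton := by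
    intro a ha b hb
    simp only [mem_preimage, mem_singleton_iff] at ha hb
    exact hf (ha.trans hb.symm)
  rcases hs.eq_empty_or_singleton with h0 | ⟨x, hx⟩
  · rw [h0]; simp
  · rw [hx]; exact h.pt x

/-- Kunen: a set of size less than `#X` is non-null for the law of a real random variable. -/
theorem IsRVM.exists_small_nonnull_real (h : IsRVM X μ) (f : X → ℝ) :
    ∃ S : Set X, #S < #X ∧ (μ.map f) (f '' S) ≠ 0 := by
  classical
  have := h.prob
  have hfm : Measurable f := h.measurable f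
  have : IsProbabilityMeasure (μ.map f) := Measure.isProbabilityMeasure_map hfm.aemeasurable
  by_contra hcon
  push Not at hcon
  obtain ⟨lo, wf, hord⟩ := Cardinal.exists_ord_eq_type_lt X
  have hsmall : ∀ x : X, #(Iio x) < #X := fun x => mk_Iio_lt x hord
  set ρ := μ.map f with hρ
  have hU : ∀ (n : ℕ) (x : X), ∃ U : Set ℝ, f '' (Iio x) ⊆ U ∧ IsOpen U ∧
      ρ U ≤ (2 : ENNReal)⁻¹ ^ n := by
    intro n x
    have h0 : ρ (f '' (Iio x)) = 0 := hcon _ (hsmall x)
    obtain ⟨U, hU1, hU2, hU3⟩ := Set.exists_isOpen_lt_of_lt (μ := ρ) (f '' (Iio x))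
      ((2 : ENNReal)⁻¹ ^ n) (by rw [h0]; exact ENNReal.pow_pos (by simp) n)
    exact ⟨U, hU1, hU2, hU3.le⟩
  choose U hU1 hU2 hU3 using hU
  let W : ℕ → Set (ℝ × X) := fun n => {p | p.1 ∈ U n p.2}
  have hWm : ∀ n, MeasurableSet (W n) := by
    intro n
    have hb := TopologicalSpace.isBasis_countableBasis ℝ
    have : W n = ⋃ B ∈ TopologicalSpace.countableBasis ℝ, B ×ˢ {x : X | B ⊆ U n x} := by
      ext ⟨t, x⟩
      simp only [W, mem_ofPred_eq, mem_iUnion, mem_prod, exists_prop]
      constructor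
      · intro ht
        obtain ⟨B, hB, htB, hBU⟩ := hb.exists_subset_of_mem_open ht (hU2 n x)
        exact ⟨B, hB, htB, hBU⟩
      · rintro ⟨B, hB, htB, hBU⟩
        exact hBU htB
    rw [this]
    refine MeasurableSet.biUnion (TopologicalSpace.countable_countableBasis ℝ) fun B hB => ?_
    exact ((hb.isOpen hB).measurableSet).prod (h.all _)
  have hW0 : ∀ n, (ρ.prod μ) (W n) ≤ (2 : ENNReal)⁻¹ ^ n := by
    intro n
    rw [Measure.prod_apply_symm (hWm n)]
    calc ∫⁻ x, ρ ((fun t => (t, x)) ⁻¹' W n) ∂μ ≤ ∫⁻ _, (2 : ENNReal)⁻¹ ^ n ∂μ :=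
          lintegral_mono fun x => hU3 n x
      _ = (2 : ENNReal)⁻¹ ^ n := by simp [h.tot]
  have hWI : (ρ.prod μ) (⋂ n, W n) = 0 := by
    refine le_antisymm ?_ bot_le
    have ht : Filter.Tendsto (fun n : ℕ => (2 : ENNReal)⁻¹ ^ n) Filter.atTop (nhds 0) :=
      ENNReal.tendsto_pow_atTop_nhds_zero_of_lt_one (by simp)
    exact ge_of_tendsto' ht fun n => (measure_mono (iInter_subset _ n)).trans (hW0 n)
  have hae := Measure.measure_ae_null_of_prod_null hWI
  have hae2 : ∀ᵐ y ∂μ, μ (Prod.mk (f y) ⁻¹' (⋂ n, W n)) = 0 :=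
    ae_of_ae_map hfm.aemeasurable hae
  obtain ⟨y, hy⟩ := hae2.exists
  have h1 : Ioi y ⊆ Prod.mk (f y) ⁻¹' (⋂ n, W n) := by
    intro x hx
    simp only [mem_preimage, mem_iInter, W, mem_ofPred_eq]
    intro n
    exact hU1 n x ⟨y, hx, rfl⟩
  have h2 : μ (Ioi y) = 0 := measure_mono_null h1 hy
  have h3 : μ (Iio y) = 0 := h.null_of_small (hsmall y)
  have h4 : (Set.univ : Set X) = Iio y ∪ {y} ∪ Ioi y := by
    ext x
    simp only [mem_univ, mem_union, mem_Iio, mem_singleton_iff, mem_Ioi, true_iff]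
    rcases lt_trichotomy x y with h | h | h
    · exact Or.inl (Or.inl h)
    · exact Or.inl (Or.inr h)
    · exact Or.inr h
  have h5 : μ Set.univ = 0 := by
    rw [h4]
    exact measure_union_null (measure_union_null h3 (h.pt y)) h2
  rw [h.tot] at h5
  exact one_ne_zero h5

/-- The same for random variables with values in a standard Borel space. -/
theorem IsRVM.exists_small_nonnull (h : IsRVM X μ) {Y : Type*} [MeasurableSpace Y]
    [StandardBorelSpace Y] (f : X → Y) :
    ∃ S : Set X, #S < #X ∧ (μ.map f) (f '' S) ≠ 0 := by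
  have he := measurableEmbedding_embeddingReal Y
  obtain ⟨S, hS, hS2⟩ := h.exists_small_nonnull_real (embeddingReal Y ∘ f)
  refine ⟨S, hS, fun h0 => hS2 ?_⟩
  rw [← Measure.map_map he.measurable (h.measurable f), he.map_apply, image_comp,
    preimage_image_eq _ he.injective]
  exact h0

end Pool.Agent.helper751_mad
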