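import Mathlib
import Pool.Agent.helper751_mad.Total

set_option autoImplicit false
open MeasureTheory Set Cardinal

namespace Pool.Agent.helper751_mad

variable {X : Type} [MeasurableSpace X] {μ : Measure X}

/-- The set of pairs `(t, x)` with `t` in all open sets `U n x` is measurable. -/
theorem IsRVM.measurableSet_openFamily (h : IsRVM X μ) (U : ℕ → X → Set ℝ)
    (hU : ∀ n x, IsOpen (U n x)) : MeasurableSet {p : ℝ × X | ∀ n, p.1 ∈ U n p.2} := by
  have hb := TopologicalSpace.isBasis_countableBasis ℝ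
  have h1 : ∀ n, MeasurableSet {p : ℝ × X | p.1 ∈ U n p.2} := by
    intro n
    have : {p : ℝ × X | p.1 ∈ U n p.2} =
        ⋃ B ∈ TopologicalSpace.countableBasis ℝ, B ×ˢ {x : X | B ⊆ U n x} := by
      ext ⟨t, x⟩
      simp only [mem_ofPred_eq, mem_iUnion, mem_prod, exists_prop]
      constructor
      · intro ht
        obtain ⟨B, hB, htB, hBU⟩ := hb.exists_subset_of_mem_open ht (hU n x)
        exact ⟨B, hB, htB, hBU⟩
      · rintro ⟨B, hB, htB, hBU⟩
        exact hBU htB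
    rw [this]
    refine MeasurableSet.biUnion (TopologicalSpace.countable_countableBasis ℝ) fun B hB => ?_
    exact ((hb.isOpen hB).measurableSet).prod (h.all _)
  have : {p : ℝ × X | ∀ n, p.1 ∈ U n p.2} = ⋂ n, {p : ℝ × X | p.1 ∈ U n p.2} := by
    ext p; simp
  rw [this]
  exact MeasurableSet.iInter h1

/-- If each `⋂ n, U n x` is small, the set of pairs is null. -/
theorem IsRVM.null_openFamily (h : IsRVM X μ) (ρ : Measure ℝ) [SFinite ρ] (U : ℕ → X → Set ℝ)
    (hU : ∀ n x, IsOpen (U n x)) (h0 : ∀ n x, ρ (U n x) ≤ (2 : ENNReal)⁻¹ ^ n) :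
    (ρ.prod μ) {p : ℝ × X | ∀ n, p.1 ∈ U n p.2} = 0 := by
  have := h.prob
  rw [Measure.prod_apply_symm (h.measurableSet_openFamily U hU)]
  have : ∀ x, ρ ((fun t => (t, x)) ⁻¹' {p : ℝ × X | ∀ n, p.1 ∈ U n p.2}) = 0 := by
    intro x
    refine le_antisymm ?_ bot_le
    have ht : Filter.Tendsto (fun n : ℕ => (2 : ENNReal)⁻¹ ^ n) Filter.atTop (nhds 0) :=
      ENNReal.tendsto_pow_atTop_nhds_zero_of_lt_one (by simp)
    refine ge_of_tendsto' ht fun n => le_trans (measure_mono ?_) (h0 n x)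
    intro t (hn : ∀ n, t ∈ U n x)
    exact hn n
  rw [lintegral_congr this, lintegral_zero]

/-- A null set of a finite Borel measure on the line is inside small open sets. -/
theorem exists_open_null (ρ : Measure ℝ) [IsFiniteMeasure ρ] {N : Set ℝ} (hN : ρ N = 0) (n : ℕ) :
    ∃ U, N ⊆ U ∧ IsOpen U ∧ ρ U ≤ (2 : ENNReal)⁻¹ ^ n := by
  obtain ⟨U, hU1, hU2, hU3⟩ := Set.exists_isOpen_lt_of_lt (μ := ρ) N
    ((2 : ENNReal)⁻¹ ^ n) (by rw [hN]; exact ENNReal.pow_pos (by simp) n)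
  exact ⟨U, hU1, hU2, hU3.le⟩

/-- Kunen's lemma for several null sets: some initial segment of `X` has an image under `F` which
is not covered by `#ι` sets that are null for the law of `F`. -/
theorem IsRVM.exists_not_cover [LinearOrder X] [WellFoundedLT X] (h : IsRVM X μ)
    (hord : (#X).ord = Ordinal.type (α := X) (· < ·)) {ι : Type} (hι : #ι < #X) (F : X → ℝ) :
    ∃ b : X, ∀ N : ι → Set ℝ, (∀ i, (μ.map F) (N i) = 0) → ¬ (F '' (Iio b) ⊆ ⋃ i, N i) := by
  classical
  have := h.prob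
  have hfm : Measurable F := h.measurable F
  have : IsProbabilityMeasure (μ.map F) := Measure.isProbabilityMeasure_map hfm.aemeasurable
  by_contra hcon
  push Not at hcon
  have hsmall : ∀ x : X, #(Iio x) < #X := fun x => mk_Iio_lt x hord
  set ρ := μ.map F with hρ
  choose N hN0 hNc using hcon
  have hU : ∀ (i : ι) (n : ℕ) (x : X), ∃ U : Set ℝ, N x i ⊆ U ∧ IsOpen U ∧
      ρ U ≤ (2 : ENNReal)⁻¹ ^ n := fun i n x => exists_open_null ρ (hN0 x i) n
  choose U hU1 hU2 hU3 using hU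
  let W : ι → Set (ℝ × X) := fun i => {p | ∀ n, p.1 ∈ U i n p.2}
  have hWI : ∀ i, (ρ.prod μ) (W i) = 0 := fun i =>
    h.null_openFamily ρ (U i) (fun n x => hU2 i n x) (fun n x => hU3 i n x)
  have hae2 : ∀ i, μ {y : X | μ (Prod.mk (F y) ⁻¹' (W i)) ≠ 0} = 0 := by
    intro i
    have h1 : ∀ᵐ y ∂μ, μ (Prod.mk (F y) ⁻¹' (W i)) = 0 :=
      ae_of_ae_map hfm.aemeasurable (Measure.measure_ae_null_of_prod_null (hWI i))
    simpa [ae_iff] using h1
  have hnull := h.null_iUnion hι _ hae2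
  have hne : ∃ y : X, ∀ i, μ (Prod.mk (F y) ⁻¹' (W i)) = 0 := by
    by_contra hno
    push Not at hno
    have : (Set.univ : Set X) ⊆ ⋃ i, {y : X | μ (Prod.mk (F y) ⁻¹' (W i)) ≠ 0} := by
      intro y _
      obtain ⟨i, hi⟩ := hno y
      exact mem_iUnion.2 ⟨i, hi⟩
    have h2 := measure_mono_null this hnull
    rw [h.tot] at h2
    exact one_ne_zero h2
  obtain ⟨y, hy⟩ := hne
  have h1 : Ioi y ⊆ ⋃ i, Prod.mk (F y) ⁻¹' (W i) := by
    intro x hx
    have : F y ∈ ⋃ i, N x i := hNc x ⟨y, hx, rfl⟩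
    obtain ⟨i, hi⟩ := mem_iUnion.1 this
    refine mem_iUnion.2 ⟨i, ?_⟩
    intro n
    exact hU1 i n x hi
  have h2 : μ (Ioi y) = 0 := measure_mono_null h1 (h.null_iUnion hι _ hy)
  have h3 : μ (Iio y) = 0 := h.null_of_small (hsmall y)
  have h4 : (Set.univ : Set X) = Iio y ∪ {y} ∪ Ioi y := by
    ext x
    simp only [mem_univ, mem_union, mem_Iio, mem_singleton_iff, mem_Ioi, true_iff]
    rcases lt_trichotomy x y with h | h | h
    · exact Or.inl (Or.inl h)
    · exact Or.inl (Or.inr h)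
    · exact Or.inr h
  have h5 : μ Set.univ = 0 := by
    rw [h4]
    exact measure_union_null (measure_union_null h3 (h.pt y)) h2
  rw [h.tot] at h5
  exact one_ne_zero h5

/-- The case of one null set. -/
theorem IsRVM.exists_Iio_nonnull [LinearOrder X] [WellFoundedLT X] (h : IsRVM X μ)
    (hord : (#X).ord = Ordinal.type (α := X) (· < ·)) (F : X → ℝ) :
    ∃ b : X, (μ.map F) (F '' (Iio b)) ≠ 0 := by
  have hι : #Unit < #X := by
    rw [mk_fintype]; simp only [Fintype.card_unit, Nat.cast_one]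
    exact one_lt_aleph0.trans h.unc
  obtain ⟨b, hb⟩ := h.exists_not_cover hord hι F
  refine ⟨b, fun h0 => ?_⟩
  exact hb (fun _ => F '' (Iio b)) (fun _ => h0) (fun y hy => mem_iUnion.2 ⟨(), hy⟩)

end Pool.Agent.helper751_mad
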