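import Mathlib
import Pool.Agent.helper751_mad.Total
import Pool.Agent.helper751_mad.Cover2

set_option autoImplicit false
open MeasureTheory Set Cardinal ProbabilityTheory

namespace Pool.Agent.helper751_mad

variable {X : Type} [MeasurableSpace X] {μ : Measure X}

/-- Let `e : X → ℝ` have law `ρ` and let `s : X → S` be arbitrary, where `#X` is real-valued
measurable. There is `f : X → ℝ` with values in the range of `e` such that the joint law of
`(s, f)` is not singular to the product of the law of `s` and `ρ`. -/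
theorem IsRVM.exists_nonsingular (h : IsRVM X μ) (e : X → ℝ) {S : Type} [MeasurableSpace S]
    [StandardBorelSpace S] (s : X → S) :
    ∃ f : X → ℝ, (∀ x, f x ∈ range e) ∧
      ¬ (μ.map (fun x => (s x, f x))) ⟂ₘ ((μ.map s).prod (μ.map e)) := by
  classical
  by_contra hcon
  push Not at hcon
  have := h.prob
  have hem : Measurable e := h.measurable e
  have hsm : Measurable s := h.measurable s
  have : IsProbabilityMeasure (μ.map e) := Measure.isProbabilityMeasure_map hem.aemeasurable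
  have : IsProbabilityMeasure (μ.map s) := Measure.isProbabilityMeasure_map hsm.aemeasurable
  set ρ := μ.map e with hρ
  set σ := μ.map s with hσ
  have hN : ∀ f : X → ℝ, ∃ N : Set (S × ℝ), MeasurableSet N ∧ (∀ t, ρ (Prod.mk t ⁻¹' N) = 0) ∧
      ((∀ x, f x ∈ range e) → μ {x | (s x, f x) ∉ N} = 0) := by
    intro f
    by_cases hf : ∀ x, f x ∈ range e
    · obtain ⟨A, hA, hA1, hA2⟩ := hcon f hf
      have hm : Measurable fun t : S => ρ (Prod.mk t ⁻¹' Aᶜ) :=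
        measurable_measure_prodMk_left hA.compl
      refine ⟨Aᶜ ∩ {p | ρ (Prod.mk p.1 ⁻¹' Aᶜ) = 0}, ?_, ?_, ?_⟩
      · exact hA.compl.inter ((hm.comp measurable_fst) (measurableSet_singleton 0))
      · intro t
        by_cases ht : ρ (Prod.mk t ⁻¹' Aᶜ) = 0
        · exact measure_mono_null (preimage_mono inter_subset_left) ht
        · have : Prod.mk t ⁻¹' (Aᶜ ∩ {p | ρ (Prod.mk p.1 ⁻¹' Aᶜ) = 0}) = ∅ := by
            ext y
            simp only [mem_preimage, mem_inter_iff, mem_ofPred_eq, mem_empty_iff_false,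
              iff_false, not_and]
            exact fun _ => ht
          rw [this, measure_empty]
      · intro _
        have h1 : μ {x | (s x, f x) ∈ A} = 0 := by
          rw [Measure.map_apply (h.measurable _) hA] at hA1
          exact hA1
        have h2 : μ {x | ρ (Prod.mk (s x) ⁻¹' Aᶜ) ≠ 0} = 0 := by
          have h3 : ∀ᵐ x ∂μ, ρ (Prod.mk (s x) ⁻¹' Aᶜ) = 0 :=
            ae_of_ae_map hsm.aemeasurable (Measure.measure_ae_null_of_prod_null hA2)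
          simpa [ae_iff] using h3
        refine measure_mono_null ?_ (measure_union_null h1 h2)
        intro x hx
        by_cases hxA : (s x, f x) ∈ A
        · exact Or.inl hxA
        · refine Or.inr fun h0 => hx ⟨hxA, h0⟩
    · exact ⟨∅, MeasurableSet.empty, by simp, fun h => absurd h hf⟩
  choose N hNm hN0 hN1 using hN
  -- the index set of size `(#X)⁺`
  obtain ⟨loX, wfX, hordX⟩ := exists_ord_eq_type_lt X
  let Δ : Type := (Order.succ #X).out
  have hΔ : #Δ = Order.succ #X := mk_out _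
  obtain ⟨loΔ, wfΔ, hordΔ⟩ := exists_ord_eq_type_lt Δ
  have hφ : ∀ δ : Δ, Nonempty (Iio δ ↪ X) := by
    intro δ
    rw [← Cardinal.le_def]
    have := mk_Iio_lt δ hordΔ
    rw [hΔ] at this
    exact Order.lt_succ_iff.1 this
  let φ : ∀ δ : Δ, Iio δ ↪ X := fun δ => (hφ δ).some
  have hsmall : ∀ x : X, #(Iio x) < #X := fun x => mk_Iio_lt x hordX
  have hIio0 : ∀ x : X, μ (Iio x) = 0 := fun x => h.null_of_small (hsmall x)
  have hIic0 : ∀ x : X, μ (Iic x) = 0 := by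
    intro x
    have : Iic x = Iio x ∪ {x} := by
      ext y; simp [le_iff_lt_or_eq]
    rw [this]
    exact measure_union_null (hIio0 x) (h.pt x)
  have hb : ∀ ξ : X, ∃ b : X, ∀ M : Iio ξ → Set ℝ, (∀ i, ρ (M i) = 0) →
      ¬ (e '' (Iio b) ⊆ ⋃ i, M i) := fun ξ => h.exists_not_cover hordX (hsmall ξ) e
  choose b hb using hb
  have hstep : ∀ (δ : Δ) (g : ∀ δ' : Δ, δ' < δ → (X → ℝ)) (ξ : X), ∃ η, η < b ξ ∧
      ∀ (δ' : Δ) (hδ : δ' < δ), φ δ ⟨δ', hδ⟩ < ξ → (s ξ, e η) ∉ N (g δ' hδ) := by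
    intro δ g ξ
    let M : Iio ξ → Set ℝ := fun η => {y | ∃ (δ' : Δ) (hδ : δ' < δ),
      φ δ ⟨δ', hδ⟩ = η ∧ (s ξ, y) ∈ N (g δ' hδ)}
    have hM : ∀ η, ρ (M η) = 0 := by
      intro η
      by_cases hex : ∃ (δ' : Δ) (hδ : δ' < δ), φ δ ⟨δ', hδ⟩ = η
      · obtain ⟨δ', hδ, hη⟩ := hex
        refine measure_mono_null ?_ (hN0 (g δ' hδ) (s ξ))
        rintro y ⟨δ'', hδ'', hη'', hy⟩
        have h1 : (⟨δ'', hδ''⟩ : Iio δ) = ⟨δ', hδ⟩ := (φ δ).injective (hη''.trans hη.symm)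
        have h2 : δ'' = δ' := congrArg Subtype.val h1
        subst h2
        exact hy
      · have : M η = ∅ := by
          ext y
          simp only [mem_empty_iff_false, iff_false]
          rintro ⟨δ', hδ, hη, -⟩
          exact hex ⟨δ', hδ, hη⟩
        rw [this, measure_empty]
    have := hb ξ M hM
    rw [not_subset] at this
    obtain ⟨y, ⟨η, hη, rfl⟩, hy⟩ := this
    refine ⟨η, hη, fun δ' hδ hlt hmem => hy ?_⟩
    exact mem_iUnion.2 ⟨⟨φ δ ⟨δ', hδ⟩, hlt⟩, δ', hδ, rfl, hmem⟩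
  let Idx : Δ → X → X := WellFoundedLT.fix (fun δ prev ξ =>
    (hstep δ (fun δ' hδ ξ' => e (prev δ' hδ ξ')) ξ).choose)
  have hIdx : ∀ δ ξ, Idx δ ξ < b ξ ∧ ∀ (δ' : Δ) (hδ : δ' < δ), φ δ ⟨δ', hδ⟩ < ξ →
      (s ξ, e (Idx δ ξ)) ∉ N (fun ξ' => e (Idx δ' ξ')) := by
    intro δ ξ
    have h1 : Idx δ ξ = (hstep δ (fun δ' _ ξ' => e (Idx δ' ξ')) ξ).choose := by
      simp only [Idx]
      rw [WellFoundedLT.fix_eq]
    have h2 := (hstep δ (fun δ' _ ξ' => e (Idx δ' ξ')) ξ).choose_spec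
    rw [← h1] at h2
    exact h2
  -- code pairs by reals
  have hj := measurableEmbedding_embeddingReal (S × ℝ)
  set j := embeddingReal (S × ℝ) with hjdef
  let G : Δ → X → ℝ := fun δ ξ => j (s ξ, e (Idx δ ξ))
  have hζ : ∀ δ, ∃ z : X, (μ.map (G δ)) (G δ '' (Iio z)) ≠ 0 := fun δ =>
    h.exists_Iio_nonnull hordX (G δ)
  choose ζ hζ using hζ
  obtain ⟨ζ0, hζ0⟩ := infinite_pigeonhole_card_lt ζ
    (by rw [hΔ]; exact Order.lt_succ _) (by rw [hΔ]; exact h.unc.le.trans (Order.le_succ _))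
  have hemb : Nonempty ((· < · : X → X → Prop) ↪r
      (· < · : (ζ ⁻¹' {ζ0} : Set Δ) → (ζ ⁻¹' {ζ0} : Set Δ) → Prop)) := by
    rw [← Ordinal.type_le_iff', ← hordX]
    exact (ord_le_ord.2 hζ0.le).trans (ord_le_type _)
  obtain ⟨d⟩ := hemb
  have hdlt : ∀ {τ τ' : X}, τ < τ' → (d τ : Δ) < d τ' := fun {τ τ'} hlt => d.map_rel_iff.2 hlt
  have hdζ : ∀ τ, ζ (d τ) = ζ0 := fun τ => (d τ).2
  let F : X → X → ℝ := fun τ => G (d τ)
  let Nh : X → Set ℝ := fun τ => j '' (N (fun ξ' => e (Idx (d τ) ξ')))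
  have hNhm : ∀ τ, MeasurableSet (Nh τ) := fun τ => hj.measurableSet_image' (hNm _)
  have hself : ∀ τ, μ {ξ | F τ ξ ∉ Nh τ} = 0 := by
    intro τ
    refine measure_mono_null ?_ (hN1 (fun ξ' => e (Idx (d τ) ξ')) (fun x => ⟨_, rfl⟩))
    intro ξ hξ hmem
    exact hξ ⟨_, hmem, rfl⟩
  have hlater : ∀ τ τ', τ < τ' → μ {ξ | F τ' ξ ∈ Nh τ} = 0 := by
    intro τ τ' hlt
    refine measure_mono_null ?_ (hIic0 (φ (d τ') ⟨d τ, hdlt hlt⟩))
    rintro ξ ⟨p, hp, hpe⟩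
    have hp2 : p = (s ξ, e (Idx (d τ') ξ)) := hj.injective hpe
    rw [hp2] at hp
    by_contra hnle
    simp only [mem_Iic, not_le] at hnle
    exact (hIdx (d τ') ξ).2 (d τ) (hdlt hlt) hnle hp
  -- the mixture of the laws
  have hFm : ∀ τ, Measurable (F τ) := fun τ => h.measurable _
  have hPF : ∀ τ, IsProbabilityMeasure (μ.map (F τ)) := fun τ =>
    Measure.isProbabilityMeasure_map (hFm τ).aemeasurable
  have hkm : Measurable (fun τ => μ.map (F τ)) := h.measurable _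
  let mΛ : Measure ℝ := μ.bind (fun τ => μ.map (F τ))
  have hmΛ : ∀ A, MeasurableSet A → mΛ A = ∫⁻ τ, (μ.map (F τ)) A ∂μ := fun A hA =>
    Measure.bind_apply hA hkm.aemeasurable
  have : IsProbabilityMeasure mΛ := by
    constructor
    rw [hmΛ _ MeasurableSet.univ]
    simp [h.tot]
  have hmN : ∀ τ, mΛ (Nh τ) = 0 := by
    intro τ
    rw [hmΛ _ (hNhm τ), lintegral_eq_zero_iff (h.measurable _)]
    refine Filter.eventuallyEq_iff_exists_mem.2 ⟨Ioi τ, ?_, ?_⟩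
    · rw [mem_ae_iff]
      have : (Ioi τ)ᶜ = Iic τ := by ext; simp
      rw [this]
      exact hIic0 τ
    · intro τ' hτ'
      simp only [Pi.zero_apply]
      rw [Measure.map_apply (hFm τ') (hNhm τ)]
      exact hlater τ τ' hτ'
  have hU : ∀ (n : ℕ) (τ : X), ∃ U, Nh τ ⊆ U ∧ IsOpen U ∧ mΛ U ≤ (2 : ENNReal)⁻¹ ^ n :=
    fun n τ => exists_open_null mΛ (hmN τ) n
  choose U hU1 hU2 hU3 using hU
  set W : Set (ℝ × X) := {p : ℝ × X | ∀ n, p.1 ∈ U n p.2} with hW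
  have hWm : MeasurableSet W := h.measurableSet_openFamily U hU2
  have hW0 : (mΛ.prod μ) W = 0 := h.null_openFamily mΛ U hU2 hU3
  let P : Set ℝ := {z | μ (Prod.mk z ⁻¹' W) ≠ 0}
  have hPm : MeasurableSet P :=
    (measurable_measure_prodMk_left hWm) (measurableSet_singleton 0).compl
  have hP0 : mΛ P = 0 := by
    have := Measure.measure_ae_null_of_prod_null hW0
    have h2 : mΛ {z | ¬ (μ (Prod.mk z ⁻¹' W) = 0)} = 0 := by
      simpa [Filter.EventuallyEq, ae_iff] using this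
    exact h2
  have hPae : ∀ᵐ τ ∂μ, (μ.map (F τ)) P = 0 := by
    rw [hmΛ _ hPm, lintegral_eq_zero_iff (h.measurable _)] at hP0
    exact hP0
  -- small points
  have hBad : ∀ ξ : Iio ζ0, μ {τ | F τ ξ ∈ Nh τ ∧ F τ ξ ∉ P} = 0 := by
    intro ξ
    have h1 : {τ | F τ ξ ∈ Nh τ ∧ F τ ξ ∉ P} ⊆
        ⋃ η : Iio (b ξ), {τ | Idx (d τ) ξ = η ∧ F τ ξ ∈ Nh τ ∧ F τ ξ ∉ P} := by
      rintro τ ⟨h1, h2⟩
      exact mem_iUnion.2 ⟨⟨Idx (d τ) ξ, (hIdx (d τ) ξ).1⟩, rfl, h1, h2⟩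
    refine measure_mono_null h1 (h.null_iUnion (hsmall _) _ fun η => ?_)
    rcases Set.eq_empty_or_nonempty {τ | Idx (d τ) ξ = η ∧ F τ ξ ∈ Nh τ ∧ F τ ξ ∉ P} with h0 | ⟨τ0, hτ0⟩
    · rw [h0, measure_empty]
    · obtain ⟨h2, h3, h4⟩ := hτ0
      have h5 : μ (Prod.mk (F τ0 ξ) ⁻¹' W) = 0 := by
        by_contra hne
        exact h4 hne
      refine measure_mono_null ?_ h5
      rintro τ ⟨h6, h7, -⟩
      have h8 : F τ ξ = F τ0 ξ := by
        simp only [F, G]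
        rw [h6, h2]
      intro n
      have h9 := hU1 n τ h7
      rw [h8] at h9
      exact h9
  have hBad2 : μ (⋃ ξ : Iio ζ0, {τ | F τ ξ ∈ Nh τ ∧ F τ ξ ∉ P}) = 0 :=
    h.null_iUnion (hsmall _) _ hBad
  have hBad3 : ∀ᵐ τ ∂μ, τ ∉ (⋃ ξ : Iio ζ0, {τ | F τ ξ ∈ Nh τ ∧ F τ ξ ∉ P}) :=
    compl_mem_ae_iff.2 hBad2
  obtain ⟨τ, hτ1, hτ2⟩ := (hPae.and hBad3).exists
  have hnn := hζ (d τ)
  rw [hdζ τ] at hnn
  refine hnn ?_
  have h1 : (μ.map (F τ)) (Nh τ)ᶜ = 0 := by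
    rw [Measure.map_apply (hFm τ) (hNhm τ).compl]
    exact hself τ
  refine measure_mono_null ?_ (measure_union_null h1 hτ1)
  rintro _ ⟨ξ, hξ, rfl⟩
  by_cases hin : F τ ξ ∈ Nh τ
  · refine Or.inr ?_
    by_contra hnP
    exact hτ2 (mem_iUnion.2 ⟨⟨ξ, hξ⟩, hin, hnP⟩)
  · exact Or.inl hin

end Pool.Agent.helper751_mad
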