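import Mathlib
import Pool.Agent.helper751_mad.Total

set_option autoImplicit false
open MeasureTheory Set ProbabilityTheory

namespace Pool.Agent.helper751_mad

/-- Let `(m i)` be an increasing family of sigma-algebras whose index set has no countable
cofinal sequence. The conditional probabilities of the events `h ⁻¹' (a, b)` over the union of the
family have versions which are measurable over a single `m i`. -/
theorem exists_stable_index {X Ω : Type} [mX : MeasurableSpace X] {μ : Measure X}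
    [IsProbabilityMeasure μ] [LinearOrder Ω] [Nonempty Ω]
    (hΩ : ∀ q : ℕ → Ω, ∃ i, ∀ n, q n < i)
    (m : Ω → MeasurableSpace X) (hm : Monotone m) (hle : ∀ i, m i ≤ mX)
    {h : X → ℝ} (hh : Measurable h) :
    ∃ i₀ : Ω, ∀ a b : ℚ, ∃ G : X → ℝ, Measurable[m i₀] G ∧ Integrable G μ ∧
      ∀ (i : Ω) (A : Set X), MeasurableSet[m i] A →
        ∫ x in A, G x ∂μ = μ.real (A ∩ h ⁻¹' (Ioo (a : ℝ) b)) := by
  classical
  let mU : MeasurableSpace X :=
    { MeasurableSet' := fun A => ∃ i, MeasurableSet[m i] A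
      measurableSet_empty :=
        ⟨Classical.arbitrary Ω, @MeasurableSet.empty _ (m (Classical.arbitrary Ω))⟩
      measurableSet_compl := fun A ⟨i, hi⟩ => ⟨i, hi.compl⟩
      measurableSet_iUnion := fun f hf => by
        choose q hq using hf
        obtain ⟨i, hi⟩ := hΩ q
        exact ⟨i, @MeasurableSet.iUnion _ _ (m i) _ _ fun n => hm (hi n).le _ (hq n)⟩ }
  have hmU : mU ≤ mX := by
    rintro A ⟨i, hi⟩
    exact hle i A hi
  let G : ℚ × ℚ → X → ℝ := fun p => μ⟦h ⁻¹' (Ioo (p.1 : ℝ) p.2) | mU⟧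
  have hGm : ∀ p, Measurable[mU] (G p) := fun p => stronglyMeasurable_condExp.measurable
  have hq : ∀ t : (ℚ × ℚ) × ℚ, ∃ i, MeasurableSet[m i] ((G t.1) ⁻¹' (Ioi (t.2 : ℝ))) := by
    intro t
    exact hGm t.1 measurableSet_Ioi
  choose q hq using hq
  obtain ⟨i₀, hi₀⟩ := hΩ (fun n => q ((Denumerable.eqv ((ℚ × ℚ) × ℚ)).symm n))
  have hqi : ∀ t, q t < i₀ := by
    intro t
    have := hi₀ (Denumerable.eqv ((ℚ × ℚ) × ℚ) t)
    simpa using this
  refine ⟨i₀, fun a b => ⟨G (a, b), ?_, integrable_condExp, ?_⟩⟩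
  · have hB : (Real.measurableSpace) = MeasurableSpace.generateFrom (⋃ a : ℚ, {Ioi (a : ℝ)}) := by
      rw [← Real.borel_eq_generateFrom_Ioi_rat]
      exact BorelSpace.measurable_eq
    rw [hB]
    refine @measurable_generateFrom _ _ (m i₀) _ _ ?_
    intro t ht
    obtain ⟨c, hc⟩ := mem_iUnion.1 ht
    rw [mem_singleton_iff] at hc
    subst hc
    exact hm (hqi ((a, b), c)).le _ (hq ((a, b), c))
  · intro i A hA
    have hAU : MeasurableSet[mU] A := ⟨i, hA⟩
    have hI : @MeasurableSet X mX (h ⁻¹' (Ioo (a : ℝ) b)) := hh measurableSet_Ioo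
    simp only [G]
    rw [setIntegral_condExp hmU ((integrable_const _).indicator hI) hAU,
      integral_indicator_const _ hI, measureReal_restrict_apply hI, smul_eq_mul, mul_one,
      inter_comm]

end Pool.Agent.helper751_mad
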