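import Mathlib
import Pool.Agent.helper751_mad.Total
import Pool.Agent.helper751_mad.Cover2
import Pool.Agent.helper751_mad.NonSing
import Pool.Agent.helper751_mad.Core
import Pool.Agent.helper751_mad.Stable

set_option autoImplicit false
open MeasureTheory Set Cardinal ProbabilityTheory

namespace Pool.Agent.helper751_mad

variable {X : Type} [MeasurableSpace X] {μ : Measure X}

/-- Coding of a family of sets `⋂ n, U n x` (open `U n x`) by the sections of one Borel set. -/
theorem exists_code_openFamily {Y : Type} (U : ℕ → Y → Set ℝ) (hU : ∀ n x, IsOpen (U n x)) :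
    ∃ (c : Y → ℝ) (E : Set (ℝ × ℝ)), MeasurableSet E ∧
      ∀ x y, (c x, y) ∈ E ↔ ∀ n, y ∈ U n x := by
  classical
  have hb := TopologicalSpace.isBasis_countableBasis ℝ
  have hcb := TopologicalSpace.countable_countableBasis ℝ
  have : Countable (TopologicalSpace.countableBasis ℝ) := hcb.to_subtype
  let Z : Type := ℕ × (TopologicalSpace.countableBasis ℝ) → Bool
  let h0 : Y → Z := fun x p => decide ((p.2 : Set ℝ) ⊆ U p.1 x)
  let E0 : Set (Z × ℝ) := ⋂ n : ℕ, ⋃ B : (TopologicalSpace.countableBasis ℝ),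
    {p : Z × ℝ | p.1 (n, B) = true} ∩ {p : Z × ℝ | p.2 ∈ (B : Set ℝ)}
  have hE0 : MeasurableSet E0 := by
    refine MeasurableSet.iInter fun n => MeasurableSet.iUnion fun B => ?_
    refine MeasurableSet.inter ?_ ?_
    · have h2 : Measurable fun p : Z × ℝ => p.1 (n, B) :=
        (measurable_pi_apply (n, B)).comp measurable_fst
      exact h2 (measurableSet_singleton true)
    · exact measurable_snd (hb.isOpen B.2).measurableSet
  have hc := measurableEmbedding_embeddingReal Z
  set c := embeddingReal Z with hcdef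
  have hcp : MeasurableEmbedding (Prod.map c (id : ℝ → ℝ)) := hc.prodMap MeasurableEmbedding.id
  refine ⟨fun x => c (h0 x), Prod.map c id '' E0, hcp.measurableSet_image' hE0, fun x y => ?_⟩
  have h1 : (c (h0 x), y) = Prod.map c id (h0 x, y) := rfl
  rw [h1, hcp.injective.mem_set_image]
  simp only [E0, h0, mem_iInter, mem_iUnion, mem_inter_iff, mem_ofPred_eq, decide_eq_true_eq]
  refine forall_congr' fun n => ?_
  constructor
  · rintro ⟨B, hB, hy⟩
    exact hB hy
  · intro hy
    obtain ⟨B, hB, hyB, hBU⟩ := hb.exists_subset_of_mem_open hy (hU n x)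
    exact ⟨⟨B, hB⟩, hBU, hyB⟩

/-- If `#X` is real-valued measurable then the range of every `e : X → ℝ` contains a set of size
at most `ℵ₁` which is not null for the law of `e`. -/
theorem IsRVM.exists_aleph_one_nonnull (h : IsRVM X μ) (e : X → ℝ) :
    ∃ T ⊆ range e, #T ≤ ℵ₁ ∧ (μ.map e) T ≠ 0 := by
  classical
  by_contra hcon
  push Not at hcon
  have := h.prob
  have hem : Measurable e := h.measurable e
  have : IsProbabilityMeasure (μ.map e) := Measure.isProbabilityMeasure_map hem.aemeasurable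
  set ρ := μ.map e with hρ
  -- the index set `ω₁`
  let Ω : Type := (ℵ₁ : Cardinal.{0}).out
  have hΩc : #Ω = ℵ₁ := mk_out _
  obtain ⟨loΩ, wfΩ, hordΩ⟩ := exists_ord_eq_type_lt Ω
  have hIio : ∀ i : Ω, (Iio i).Countable := by
    intro i
    rw [← le_aleph0_iff_set_countable, ← Order.lt_succ_iff, succ_aleph0, ← hΩc]
    exact mk_Iio_lt i hordΩ
  have hne : Nonempty Ω := by
    rw [← mk_ne_zero_iff, hΩc]
    exact (aleph_pos 1).ne'
  have hΩ : ∀ q : ℕ → Ω, ∃ i, ∀ n, q n < i := by
    intro q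
    have h1 : (⋃ n, Iic (q n)).Countable := by
      refine countable_iUnion fun n => ?_
      have : Iic (q n) = Iio (q n) ∪ {q n} := by
        ext y; simp [le_iff_lt_or_eq]
      rw [this]
      exact (hIio _).union (countable_singleton _)
    have h2 : (⋃ n, Iic (q n)) ≠ Set.univ := by
      intro h3
      rw [h3, ← le_aleph0_iff_set_countable, mk_univ, hΩc] at h1
      exact absurd aleph0_lt_aleph_one (not_lt.2 h1)
    obtain ⟨i, hi⟩ := (ne_univ_iff_exists_notMem _).1 h2
    refine ⟨i, fun n => ?_⟩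
    by_contra hlt
    exact hi (mem_iUnion.2 ⟨n, not_lt.1 hlt⟩)
  have hIioT : ∀ i : Ω, Countable (Iio i) := fun i => (hIio i).to_subtype
  -- the recursion
  have hstep : ∀ (i : Ω) (s : X → (Iio i → ℝ)), ∃ f : X → ℝ, (∀ x, f x ∈ range e) ∧
      ¬ (μ.map (fun x => (s x, f x))) ⟂ₘ ((μ.map s).prod (μ.map e)) := by
    intro i s
    have := hIioT i
    exact h.exists_nonsingular e s
  let Fn : Ω → X → ℝ := WellFoundedLT.fix (fun i prev =>
    (hstep i (fun x j => prev j.1 j.2 x)).choose)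
  let s : ∀ i : Ω, X → (Iio i → ℝ) := fun i x j => Fn j x
  have hFn : ∀ i, (∀ x, Fn i x ∈ range e) ∧
      ¬ (μ.map (fun x => (s i x, Fn i x))) ⟂ₘ ((μ.map (s i)).prod ρ) := by
    intro i
    have h1 : Fn i = (hstep i (s i)).choose := by
      simp only [Fn]
      rw [WellFoundedLT.fix_eq]
    have h2 := (hstep i (s i)).choose_spec
    rw [← h1] at h2
    exact h2
  -- the Gδ null sets
  have hT0 : ∀ x, ρ (range (fun i => Fn i x)) = 0 := by
    intro x
    refine hcon _ ?_ ?_
    · rintro _ ⟨i, rfl⟩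
      exact (hFn i).1 x
    · rw [← hΩc]
      exact mk_range_le
  have hU : ∀ (n : ℕ) (x : X), ∃ U, range (fun i => Fn i x) ⊆ U ∧ IsOpen U ∧
      ρ U ≤ (2 : ENNReal)⁻¹ ^ n := fun n x => exists_open_null ρ (hT0 x) n
  choose U hU1 hU2 hU3 using hU
  obtain ⟨c, E, hE, hcE⟩ := exists_code_openFamily U hU2
  have hE1 : ∀ i x, (c x, Fn i x) ∈ E := fun i x =>
    (hcE x _).2 fun n => hU1 n x ⟨i, rfl⟩
  have hE2 : ∀ x, ρ (Prod.mk (c x) ⁻¹' E) = 0 := by
    intro x
    refine le_antisymm ?_ bot_le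
    have ht : Filter.Tendsto (fun n : ℕ => (2 : ENNReal)⁻¹ ^ n) Filter.atTop (nhds 0) :=
      ENNReal.tendsto_pow_atTop_nhds_zero_of_lt_one (by simp)
    refine ge_of_tendsto' ht fun n => le_trans (measure_mono ?_) (hU3 n x)
    intro t ht
    exact (hcE x t).1 ht n
  -- stabilisation
  let m : Ω → MeasurableSpace X := fun i => MeasurableSpace.comap (s i) inferInstance
  have hsm : ∀ i, Measurable (s i) := fun i => h.measurable _
  have hcm : Measurable c := h.measurable _
  have hmle : ∀ i, m i ≤ (inferInstance : MeasurableSpace X) := fun i => (hsm i).comap_le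
  have hmono : Monotone m := by
    intro i i' hii
    have h1 : s i = (fun (t : Iio i' → ℝ) (j : Iio i) => t ⟨j.1, lt_of_lt_of_le j.2 hii⟩) ∘ s i' := by
      rfl
    have h2 : Measurable (fun (t : Iio i' → ℝ) (j : Iio i) =>
        t ⟨j.1, lt_of_lt_of_le j.2 hii⟩) := by
      refine measurable_pi_lambda _ fun j => measurable_pi_apply _
    simp only [m]
    rw [h1, ← MeasurableSpace.comap_comp]
    exact MeasurableSpace.comap_mono h2.comap_le
  obtain ⟨i₀, hi₀⟩ := exists_stable_index hΩ m hmono hmle (μ := μ) hcm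
  refine (hFn i₀).2 ?_
  refine mutuallySingular_of_condDistrib (hsm i₀) (h.measurable _) hcm ρ hE (hE1 i₀) hE2 ?_
  intro a b A hA
  obtain ⟨G, hG1, hG2, hG3⟩ := hi₀ a b
  have hIoo : MeasurableSet (Ioo (a : ℝ) b) := measurableSet_Ioo
  have hA' : ∃ i', MeasurableSet[m i'] ((fun x => (s i₀ x, Fn i₀ x)) ⁻¹' A) := by
    obtain ⟨i', hi'⟩ := hΩ (fun _ => i₀)
    refine ⟨i', ?_⟩
    have hlt : i₀ < i' := hi' 0
    let g : (Iio i' → ℝ) → (Iio i₀ → ℝ) × ℝ := fun t =>
      (fun j => t ⟨j.1, lt_trans j.2 hlt⟩, t ⟨i₀, hlt⟩)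
    have hg : Measurable g := by
      refine Measurable.prodMk ?_ (measurable_pi_apply _)
      exact measurable_pi_lambda _ fun j => measurable_pi_apply _
    exact ⟨g ⁻¹' A, hg hA, rfl⟩
  obtain ⟨i', hi'⟩ := hA'
  set A' := (fun x => (s i₀ x, Fn i₀ x)) ⁻¹' A with hA'def
  have hae : (fun x => (condDistrib c (s i₀) μ (s i₀ x)).real (Ioo (a : ℝ) b)) =ᵐ[μ] G := by
    refine (condDistrib_ae_eq_condExp (hsm i₀) hcm hIoo).trans ?_
    refine (ae_eq_condExp_of_forall_setIntegral_eq (hmle i₀) ?_ ?_ ?_ ?_).symm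
    · exact (integrable_const _).indicator (hcm hIoo)
    · exact fun t _ _ => hG2.integrableOn
    · intro t ht _
      rw [hG3 i₀ t ht, integral_indicator_const _ (hcm hIoo),
        measureReal_restrict_apply (hcm hIoo), smul_eq_mul, mul_one, inter_comm]
    · exact hG1.stronglyMeasurable.aestronglyMeasurable
  have h1 : ∫ x in A', (condDistrib c (s i₀) μ (s i₀ x)).real (Ioo (a : ℝ) b) ∂μ =
      μ.real (A' ∩ c ⁻¹' (Ioo (a : ℝ) b)) := by
    rw [← hG3 i' A' hi']
    exact integral_congr_ae (ae_restrict_of_ae hae)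
  have hmeas : Measurable (fun x => condDistrib c (s i₀) μ (s i₀ x) (Ioo (a : ℝ) b)) :=
    (Kernel.measurable_coe _ hIoo).comp (hsm i₀)
  simp_rw [measureReal_def] at h1
  rw [integral_toReal hmeas.aemeasurable (Filter.Eventually.of_forall fun ω =>
    measure_lt_top _ _)] at h1
  refine ((ENNReal.toReal_eq_toReal_iff' ?_ ?_).1 h1).symm
  · refine ne_top_of_le_ne_top (measure_ne_top μ Set.univ) ?_
    calc ∫⁻ x in A', condDistrib c (s i₀) μ (s i₀ x) (Ioo (a : ℝ) b) ∂μ
        ≤ ∫⁻ x in A', 1 ∂μ := lintegral_mono fun x => prob_le_one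
      _ = μ A' := by simp
      _ ≤ μ Set.univ := measure_mono (subset_univ _)
  · exact measure_ne_top _ _

end Pool.Agent.helper751_mad
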