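import Mathlib

set_option autoImplicit false
open MeasureTheory Set Cardinal

namespace Pool.Agent.helper751_mad

/-- `A` is an almost disjoint family of infinite subsets of `ℕ`. -/
def IsAD (A : Set (Set ℕ)) : Prop :=
  (∀ a ∈ A, a.Infinite) ∧ (∀ a ∈ A, ∀ b ∈ A, a ≠ b → (a ∩ b).Finite)

/-- `A` is an infinite maximal almost disjoint family of infinite subsets of `ℕ`. -/
def IsMAD (A : Set (Set ℕ)) : Prop :=
  A.Infinite ∧ IsAD A ∧ ∀ s : Set ℕ, s.Infinite → ∃ a ∈ A, (s ∩ a).Infinite

/-- `cov(N)`: the least cardinality of a family of Lebesgue null sets covering the real line. -/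
noncomputable def covNull : Cardinal.{0} :=
  sInf {c | ∃ F : Set (Set ℝ), (∀ N ∈ F, volume N = 0) ∧ ⋃₀ F = Set.univ ∧ Cardinal.mk F = c}

end Pool.Agent.helper751_mad
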