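import Mathlib
import Pool.Agent.helper751_mad.Total

set_option autoImplicit false
open MeasureTheory Set Cardinal Filter Topology

namespace Pool.Agent.helper751_mad

open ProbabilityTheory in
/-- The distribution function of an atomless law takes a value at most `u` with probability `u`. -/
theorem measure_cdf_le (Q : Measure ℝ) [IsProbabilityMeasure Q] (hQ : ∀ t, Q {t} = 0)
    (u : ℝ) (h0 : 0 ≤ u) (h1 : u ≤ 1) :
    Q {t | cdf Q t ≤ u} = ENNReal.ofReal u := by
  have hcont : Continuous (cdf Q) := by
    refine continuous_iff_continuousAt.2 fun a => ?_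
    rw [(monotone_cdf Q).continuousAt_iff_leftLim_eq_rightLim, (cdf Q).rightLim_eq]
    refine le_antisymm ((monotone_cdf Q).leftLim_le le_rfl) ?_
    have := (cdf Q).measure_singleton a
    rw [measure_cdf, hQ a] at this
    have h2 := ENNReal.ofReal_eq_zero.1 this.symm
    linarith
  have hiv : ∀ v : ℝ, 0 < v → v < 1 → ∃ t0, cdf Q t0 = v := by
    intro v hv0 hv1
    have ha : ∃ a, cdf Q a ≤ v := by
      have := ((tendsto_cdf_atBot Q).eventually (gt_mem_nhds hv0)).exists
      exact this.imp fun a ha => ha.le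
    have hb : ∃ b, v ≤ cdf Q b := by
      have := ((tendsto_cdf_atTop Q).eventually (lt_mem_nhds hv1)).exists
      exact this.imp fun a ha => ha.le
    exact mem_range_of_exists_le_of_exists_ge hcont ha hb
  have hup : ∀ v : ℝ, 0 < v → v < 1 → Q {t | cdf Q t < v} ≤ ENNReal.ofReal v := by
    intro v hv0 hv1
    obtain ⟨t0, ht0⟩ := hiv v hv0 hv1
    rw [← ht0, ofReal_cdf]
    refine measure_mono fun t ht => ?_
    simp only [mem_ofPred_eq] at ht
    simp only [mem_Iic]
    by_contra hlt
    push Not at hlt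
    have := monotone_cdf Q hlt.le
    linarith
  rcases h1.lt_or_eq with h1 | h1
  · apply le_antisymm
    · have : Tendsto (fun v : ℝ => ENNReal.ofReal v) (𝓝[>] u) (𝓝 (ENNReal.ofReal u)) :=
        (ENNReal.continuous_ofReal.tendsto u).mono_left nhdsWithin_le_nhds
      refine ge_of_tendsto this ?_
      filter_upwards [Ioo_mem_nhdsGT h1] with v hv
      refine le_trans (measure_mono fun t ht => ?_) (hup v (h0.trans_lt hv.1) hv.2)
      simp only [mem_ofPred_eq] at ht ⊢
      exact ht.trans_lt hv.1
    · rcases h0.lt_or_eq with h0 | h0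
      · obtain ⟨t0, ht0⟩ := hiv u h0 h1
        rw [← ht0, ofReal_cdf]
        exact measure_mono fun t ht => monotone_cdf Q ht
      · rw [← h0]; simp
  · rw [h1]
    have : {t | cdf Q t ≤ 1} = Set.univ := eq_univ_of_forall fun t => cdf_le_one Q t
    rw [this]; simp

open ProbabilityTheory in
/-- The distribution function as a map to the unit interval. -/
noncomputable def cdfI (Q : Measure ℝ) (t : ℝ) : unitInterval := ⟨cdf Q t, cdf_nonneg Q t, cdf_le_one Q t⟩

open ProbabilityTheory in
theorem map_cdfI (Q : Measure ℝ) [IsProbabilityMeasure Q] (hQ : ∀ t, Q {t} = 0) :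
    Q.map (cdfI Q) = volume := by
  have hm : Measurable (cdfI Q) := (monotone_cdf Q).measurable.subtype_mk
  have : IsProbabilityMeasure (Q.map (cdfI Q)) := Measure.isProbabilityMeasure_map hm.aemeasurable
  refine Measure.ext_of_Iic _ _ fun u => ?_
  rw [Measure.map_apply hm measurableSet_Iic]
  have : cdfI Q ⁻¹' Iic u = {t | cdf Q t ≤ u} := rfl
  rw [this, measure_cdf_le Q hQ u u.2.1 u.2.2]
  rw [unitInterval.volume_def,
    (MeasurableEmbedding.subtype_coe measurableSet_Icc).comap_apply]
  have : ((↑) : unitInterval → ℝ) '' (Iic u) = Icc 0 (u : ℝ) := by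
    ext t
    constructor
    · rintro ⟨v, hv, rfl⟩
      exact ⟨v.2.1, hv⟩
    · rintro ⟨ht0, ht1⟩
      exact ⟨⟨t, ht0, ht1.trans u.2.2⟩, ht1, rfl⟩
  rw [this, Real.volume_Icc, sub_zero]

variable {X : Type} [MeasurableSpace X] {μ : Measure X}

/-- If `#X ≤ 𝔠`, there is a random variable on `X` with uniform law. -/
theorem IsRVM.exists_uniform (h : IsRVM X μ) (hc : #X ≤ 𝔠) :
    ∃ f : X → unitInterval, μ.map f = volume := by
  have := h.prob
  rw [← Cardinal.mk_real] at hc
  obtain ⟨e⟩ := (Cardinal.le_def X ℝ).1 hc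
  have hem : Measurable e := h.measurable e
  have : IsProbabilityMeasure (μ.map e) := Measure.isProbabilityMeasure_map hem.aemeasurable
  refine ⟨fun x => cdfI (μ.map e) (e x), ?_⟩
  have hm : Measurable (cdfI (μ.map e)) :=
    (ProbabilityTheory.monotone_cdf _).measurable.subtype_mk
  have h1 := map_cdfI (μ.map e) (fun t => h.map_singleton e.injective t)
  rw [Measure.map_map hm hem] at h1
  exact h1

/-- If `#X ≤ 𝔠`, every Borel probability measure on a standard Borel space is the law of a
random variable on `X`. -/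
theorem IsRVM.exists_map_eq (h : IsRVM X μ) (hc : #X ≤ 𝔠) {Y : Type*} [MeasurableSpace Y]
    [StandardBorelSpace Y] (ν : Measure Y) [IsProbabilityMeasure ν] :
    ∃ f : X → Y, μ.map f = ν := by
  have : Nonempty Y := nonempty_of_isProbabilityMeasure ν
  obtain ⟨g, hgm, hg⟩ := Measure.exists_measurable_map_eq ν
  obtain ⟨f, hf⟩ := h.exists_uniform hc
  refine ⟨fun x => g (f x), ?_⟩
  rw [← hg, ← hf, Measure.map_map hgm (h.measurable f)]
  rfl

end Pool.Agent.helper751_mad
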