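import Mathlib
import Pool.Agent.helper751_mad.Total
import Pool.Agent.helper751_mad.Defs
import Pool.Agent.helper751_mad.Uniform

set_option autoImplicit false
open MeasureTheory Set Cardinal

namespace Pool.Agent.helper751_mad

variable {X : Type} [MeasurableSpace X] {μ : Measure X}

/-- A real-valued measurable cardinal which is at most the continuum is at most `cov(N)`. -/
theorem IsRVM.le_covNull (h : IsRVM X μ) (hc : #X ≤ 𝔠) : #X ≤ covNull := by
  by_contra hcov
  push Not at hcov
  have hne : {c | ∃ F : Set (Set ℝ), (∀ N ∈ F, volume N = 0) ∧ ⋃₀ F = Set.univ ∧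
      Cardinal.mk F = c}.Nonempty := by
    refine ⟨_, Set.range (fun x : ℝ => ({x} : Set ℝ)), ?_, ?_, rfl⟩
    · rintro _ ⟨x, rfl⟩
      exact Real.volume_singleton
    · rw [sUnion_range]; ext x; simp
  obtain ⟨F, hF0, hFc, hF⟩ := csInf_mem hne
  obtain ⟨f, hf⟩ := h.exists_uniform hc
  have hfm : Measurable f := h.measurable f
  have h1 : ∀ N ∈ F, μ (f ⁻¹' (((↑) : unitInterval → ℝ) ⁻¹' N)) = 0 := by
    intro N hN
    obtain ⟨t, ht1, ht2, ht3⟩ := exists_measurable_superset_of_null (hF0 N hN)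
    refine measure_mono_null (preimage_mono (preimage_mono ht1)) ?_
    rw [← Measure.map_apply hfm (ht2.preimage measurable_subtype_coe), hf,
      unitInterval.volume_def,
      (MeasurableEmbedding.subtype_coe measurableSet_Icc).comap_apply]
    exact measure_mono_null (image_preimage_subset _ _) ht3
  have h2 : μ (⋃ N : F, f ⁻¹' (((↑) : unitInterval → ℝ) ⁻¹' (N : Set ℝ))) = 0 := by
    refine h.null_iUnion ?_ _ fun N => h1 N N.2
    have : #F = covNull := hF
    rw [this]; exact hcov
  have h3 : (Set.univ : Set X) ⊆ ⋃ N : F, f ⁻¹' (((↑) : unitInterval → ℝ) ⁻¹' (N : Set ℝ)) := by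
    intro x _
    have : (f x : ℝ) ∈ ⋃₀ F := by rw [hFc]; trivial
    obtain ⟨N, hN, hxN⟩ := this
    exact mem_iUnion.2 ⟨⟨N, hN⟩, hxN⟩
  have h4 := measure_mono_null h3 h2
  rw [h.tot] at h4
  exact one_ne_zero h4

/-- The cardinal `ℵ₁` is not real-valued measurable; here for cardinals at most the continuum. -/
theorem IsRVM.aleph_one_lt (h : IsRVM X μ) (hc : #X ≤ 𝔠) : ℵ₁ < #X := by
  by_contra hle
  push Not at hle
  rw [← Cardinal.mk_real] at hc
  obtain ⟨e⟩ := (Cardinal.le_def X ℝ).1 hc
  obtain ⟨S, hS, hS0⟩ := h.exists_small_nonnull_real e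
  have h1 : #S ≤ ℵ₀ := by
    rw [← Order.lt_succ_iff, succ_aleph0]
    exact hS.trans_le hle
  have h2 : S.Countable := (le_aleph0_iff_set_countable).1 h1
  refine hS0 ?_
  have h3 : (⇑e '' S).Countable := h2.image _
  rw [← biUnion_of_singleton (⇑e '' S)]
  refine (measure_biUnion_null_iff h3).2 fun y _ => ?_
  exact h.map_singleton e.injective y

end Pool.Agent.helper751_mad
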