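import Mathlib
import Pool.Agent.helper751_mad.Defs

set_option autoImplicit false
open MeasureTheory Set Cardinal

namespace Pool.Agent.helper751_mad

theorem standardBorel_setNat : StandardBorelSpace (Set ℕ) :=
  inferInstanceAs (StandardBorelSpace (ℕ → Prop))

theorem measurableSet_hit (a : Set ℕ) : MeasurableSet {s : Set ℕ | (s ∩ a).Infinite} := by
  have : {s : Set ℕ | (s ∩ a).Infinite} = ⋂ n : ℕ, ⋃ m ∈ {m : ℕ | n ≤ m ∧ m ∈ a}, {s : Set ℕ | m ∈ s} := by
    ext s
    simp only [mem_ofPred_eq, mem_iInter, mem_iUnion, exists_prop]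
    rw [Set.infinite_iff_exists_gt]
    constructor
    · intro h n
      obtain ⟨m, hm, hnm⟩ := h n
      exact ⟨m, ⟨hnm.le, hm.2⟩, hm.1⟩
    · intro h n
      obtain ⟨m, ⟨h1, h2⟩, h3⟩ := h (n + 1)
      exact ⟨m, ⟨h3, h2⟩, by omega⟩
  rw [this]
  refine MeasurableSet.iInter fun n => MeasurableSet.biUnion (Set.to_countable _) fun m _ => ?_
  exact measurableSet_setOfPred.2 (measurable_set_mem m)

theorem measurableSet_infinite : MeasurableSet {s : Set ℕ | s.Infinite} := by
  simpa using measurableSet_hit Set.univ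

/-- A cover of the unit interval by null sets gives an upper bound of `cov(N)`. -/
theorem covNull_le_of_cover_unitInterval {ι : Type} [Infinite ι] (N : ι → Set unitInterval)
    (h0 : ∀ i, volume (N i) = 0) (hc : (⋃ i, N i) = Set.univ) : covNull ≤ #ι := by
  let F : ℤ × ι → Set ℝ := fun p => (fun x : ℝ => x + p.1) '' ((↑) '' (N p.2))
  have hF0 : ∀ p, volume (F p) = 0 := by
    intro p
    have h1 : volume (((↑) : unitInterval → ℝ) '' (N p.2)) = 0 := by
      have := h0 p.2
      rwa [unitInterval.volume_def, (MeasurableEmbedding.subtype_coe measurableSet_Icc).comap_apply] at this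
    simpa [F] using h1
  have hFc : (⋃ p, F p) = Set.univ := by
    refine eq_univ_of_forall fun x => ?_
    have hx : Int.fract x ∈ unitInterval := ⟨Int.fract_nonneg x, (Int.fract_lt_one x).le⟩
    have : (⟨Int.fract x, hx⟩ : unitInterval) ∈ ⋃ i, N i := by rw [hc]; trivial
    obtain ⟨i, hi⟩ := mem_iUnion.1 this
    refine mem_iUnion.2 ⟨(⌊x⌋, i), ?_⟩
    refine ⟨Int.fract x, ⟨_, hi, rfl⟩, ?_⟩
    simp
  have h1 : covNull ≤ #(Set.range F) := by
    refine csInf_le' ⟨Set.range F, ?_, ?_, rfl⟩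
    · rintro _ ⟨p, rfl⟩
      exact hF0 p
    · rw [sUnion_range, hFc]
  refine h1.trans (mk_range_le.trans ?_)
  rw [mk_prod, lift_id, lift_id]
  rw [Cardinal.mk_int]
  exact (aleph0_mul_eq (aleph0_le_mk ι)).le

end Pool.Agent.helper751_mad
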