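import Mathlib
import Pool.Agent.helper751_mad.Cover

set_option autoImplicit false
open MeasureTheory Set Cardinal

namespace Pool.Agent.helper751_mad

/-- Conditioning a law on the hull of a non-null subset `T` of a MADF `B`: a probability measure
concentrated on infinite sets for which each member of `B` is almost surely not hit. -/
theorem exists_law_of_nonnull {B T : Set (Set ℕ)} (hB : IsAD B) (hTB : T ⊆ B)
    (ρ : Measure (Set ℕ)) [IsProbabilityMeasure ρ] (hsing : ∀ s, ρ {s} = 0) (hT : ρ T ≠ 0) :
    ∃ ν : Measure (Set ℕ), IsProbabilityMeasure ν ∧ (∀ᵐ s ∂ν, s.Infinite) ∧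
      ∀ b ∈ B, ν {s | (s ∩ b).Infinite} = 0 := by
  set H := toMeasurable ρ T with hH
  have hHm : MeasurableSet H := measurableSet_toMeasurable _ _
  have hH0 : ρ H ≠ 0 := by rwa [hH, measure_toMeasurable]
  refine ⟨ProbabilityTheory.cond ρ H, ProbabilityTheory.cond_isProbabilityMeasure hH0, ?_, ?_⟩
  · have hms : MeasurableSet {s : Set ℕ | ¬ s.Infinite} := measurableSet_infinite.compl
    rw [ae_iff, ProbabilityTheory.cond_apply hHm, hH,
      Measure.measure_toMeasurable_inter hms (measure_ne_top _ _)]
    have : T ∩ {a : Set ℕ | ¬ a.Infinite} = ∅ := by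
      ext s
      simp only [mem_inter_iff, mem_ofPred_eq, mem_empty_iff_false, iff_false,
        not_and, not_not]
      exact fun hs => hB.1 s (hTB hs)
    rw [this, measure_empty, mul_zero]
  · intro b hb
    rw [ProbabilityTheory.cond_apply hHm, hH,
      Measure.measure_toMeasurable_inter (measurableSet_hit b) (measure_ne_top _ _)]
    have : ρ (T ∩ {s | (s ∩ b).Infinite}) = 0 := by
      refine measure_mono_null ?_ (hsing b)
      rintro s ⟨hsT, hs⟩
      by_contra hne
      exact hs (hB.2 s (hTB hsT) b hb hne)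
    rw [this, mul_zero]

/-- A MADF none of whose members is hit with positive probability has at least `cov(N)` members. -/
theorem covNull_le_of_law {B : Set (Set ℕ)} (hB : IsMAD B) (ν : Measure (Set ℕ))
    [IsProbabilityMeasure ν] (hinf : ∀ᵐ s ∂ν, s.Infinite)
    (h0 : ∀ b ∈ B, ν {s | (s ∩ b).Infinite} = 0) : covNull ≤ #B := by
  have := standardBorel_setNat
  obtain ⟨G, hGm, hG⟩ := Measure.exists_measurable_map_eq ν
  have hν0 : ∀ E : Set (Set ℕ), MeasurableSet E → ν E = 0 → volume (G ⁻¹' E) = 0 := by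
    intro E hE h0
    rw [← Measure.map_apply hGm hE, hG, h0]
  have : Infinite B := hB.1.to_subtype
  let N : Option B → Set unitInterval := fun o =>
    match o with
    | none => G ⁻¹' {s : Set ℕ | ¬ s.Infinite}
    | some b => G ⁻¹' {s : Set ℕ | (s ∩ (b : Set ℕ)).Infinite}
  have key : covNull ≤ #(Option B) := by
    refine covNull_le_of_cover_unitInterval N ?_ ?_
    · rintro (_ | b)
      · exact hν0 _ measurableSet_infinite.compl (ae_iff.1 hinf)
      · exact hν0 _ (measurableSet_hit _) (h0 _ b.2)
    · refine eq_univ_of_forall fun t => ?_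
      by_cases ht : (G t).Infinite
      · obtain ⟨b, hb, hbt⟩ := hB.2.2 _ ht
        exact mem_iUnion.2 ⟨some ⟨b, hb⟩, hbt⟩
      · exact mem_iUnion.2 ⟨none, ht⟩
  refine key.trans ?_
  rw [mk_option]
  exact (add_one_eq (aleph0_le_mk B)).le

/-- A MADF containing a set that is not universally null has at least `cov(N)` members. -/
theorem covNull_le_of_nonnull {B T : Set (Set ℕ)} (hB : IsMAD B) (hTB : T ⊆ B)
    (ρ : Measure (Set ℕ)) [IsProbabilityMeasure ρ] (hsing : ∀ s, ρ {s} = 0) (hT : ρ T ≠ 0) :
    covNull ≤ #B := by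
  obtain ⟨ν, hν, h1, h2⟩ := exists_law_of_nonnull hB.2.1 hTB ρ hsing hT
  exact covNull_le_of_law hB ν h1 h2

end Pool.Agent.helper751_mad
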