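import Mathlib

set_option autoImplicit false
open Set Cardinal Filter

namespace Pool.Agent.helper751_mad

/-- `D` is a dominating family of functions: every function is eventually below a member. -/
def Dominating (D : Set (ℕ → ℕ)) : Prop := ∀ f : ℕ → ℕ, ∃ g ∈ D, ∀ᶠ n in atTop, f n ≤ g n

/-- `S` is a cofinal family of countable subsets of `Λ`. -/
def CofCountable {Λ : Type} (S : Set (Set Λ)) : Prop :=
  (∀ s ∈ S, s.Countable) ∧ ∀ t : Set Λ, t.Countable → ∃ s ∈ S, t ⊆ s

end Pool.Agent.helper751_mad
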