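import Mathlib
import Pool.Agent.helper751_mad.Defs2

set_option autoImplicit false
open Set Cardinal

namespace Pool.Agent.helper751_mad

/-- Sets of size at most `ℵ_n` have a cofinal family of at most `ℵ_n` countable subsets. -/
theorem exists_cofCountable (n : ℕ) : ∀ Λ : Type, #Λ ≤ ℵ_ n →
    ∃ S : Set (Set Λ), #S ≤ ℵ_ n ∧ CofCountable S := by
  induction n with
  | zero =>
    intro Λ hΛ
    rw [Nat.cast_zero, aleph_zero] at hΛ ⊢
    refine ⟨{Set.univ}, ?_, ?_, ?_⟩
    · rw [mk_singleton]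
      exact one_lt_aleph0.le
    · rintro s rfl
      rw [← le_aleph0_iff_set_countable, mk_univ]
      exact hΛ
    · exact fun t _ => ⟨Set.univ, rfl, subset_univ t⟩
  | succ n ih =>
    intro Λ hΛ
    have hsucc : ℵ_ ((n + 1 : ℕ) : Ordinal) = Order.succ (ℵ_ (n : Ordinal)) := by
      rw [Nat.cast_succ, succ_aleph]
    have hle : ℵ_ (n : Ordinal) ≤ ℵ_ ((n + 1 : ℕ) : Ordinal) := by
      rw [hsucc]; exact Order.le_succ _
    by_cases hlt : #Λ ≤ ℵ_ n
    · obtain ⟨S, hS, hS2⟩ := ih Λ hlt
      exact ⟨S, hS.trans hle, hS2⟩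
    · push Not at hlt
      obtain ⟨lo, wf, hord⟩ := exists_ord_eq_type_lt Λ
      have hIio : ∀ i : Λ, #(Iio i) ≤ ℵ_ n := by
        intro i
        rw [← Order.lt_succ_iff, ← hsucc]
        exact (mk_Iio_lt i hord).trans_le hΛ
      choose S hS1 hS2 using fun i : Λ => ih (Iio i) (hIio i)
      have h0 : ℵ₀ ≤ ℵ_ (n : Ordinal) := aleph0_le_aleph _
      refine ⟨⋃ i, (fun s => Subtype.val '' s) '' S i, ?_, ?_, ?_⟩
      · refine (mk_iUnion_le _).trans ?_
        refine mul_le_of_le (h0.trans hle) hΛ ?_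
        exact ciSup_le' fun i => (mk_image_le.trans (hS1 i)).trans hle
      · intro s hs
        obtain ⟨i, s', hs', rfl⟩ := mem_iUnion.1 hs
        exact ((hS2 i).1 s' hs').image _
      · intro t ht
        have h1 : #(⋃ q : t, Iic (q : Λ)) ≤ ℵ_ n := by
          refine (mk_iUnion_le _).trans ?_
          refine mul_le_of_le h0 ((le_aleph0_iff_set_countable.2 ht).trans h0) ?_
          refine ciSup_le' fun q => ?_
          have : Iic (q : Λ) = Iio (q : Λ) ∪ {(q : Λ)} := by
            ext y; simp [le_iff_lt_or_eq]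
          rw [this]
          refine (mk_union_le _ _).trans ?_
          rw [mk_singleton]
          refine (add_le_add_left (hIio _) 1).trans ?_
          exact (add_eq_left h0 ((one_lt_aleph0.le).trans h0)).le
        have h2 : (⋃ q : t, Iic (q : Λ)) ≠ Set.univ := by
          intro h3
          rw [h3, mk_univ] at h1
          exact absurd hlt (not_lt.2 h1)
        obtain ⟨i, hi⟩ := (ne_univ_iff_exists_notMem _).1 h2
        have h3 : ∀ q ∈ t, q < i := by
          intro q hq
          by_contra hlt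
          exact hi (mem_iUnion.2 ⟨⟨q, hq⟩, not_lt.1 hlt⟩)
        obtain ⟨s, hs, hts⟩ := (hS2 i).2 (Subtype.val ⁻¹' t) (ht.preimage Subtype.val_injective)
        refine ⟨Subtype.val '' s, mem_iUnion.2 ⟨i, s, hs, rfl⟩, ?_⟩
        intro q hq
        exact ⟨⟨q, h3 q hq⟩, hts hq, rfl⟩

end Pool.Agent.helper751_mad
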