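import Mathlib
import Pool.Agent.helper751_mad.Cover

set_option autoImplicit false
open MeasureTheory Set Cardinal Filter

namespace Pool.Agent.helper751_mad

/-- The event that a random set hits `a` infinitely often. -/
def hit (a : Set ℕ) : Set (Set ℕ) := {s | (s ∩ a).Infinite}

theorem measurableSet_hit' (a : Set ℕ) : MeasurableSet (hit a) := measurableSet_hit a

theorem hit_mono {a b : Set ℕ} (h : a ⊆ b) : hit a ⊆ hit b := fun _ hs =>
  Set.Infinite.mono (inter_subset_inter_right _ h) hs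

/-- The diagonal of a decreasing sequence of sets along a speed. -/
def diag (H : ℕ → Set ℕ) (ρ : ℕ → ℕ) : Set ℕ := {m | m ∈ H (ρ m)}

theorem diag_sdiff_finite {H : ℕ → Set ℕ} (hH : Antitone H) {ρ : ℕ → ℕ}
    (hρ : Tendsto ρ atTop atTop) (n : ℕ) : (diag H ρ \ H n).Finite := by
  obtain ⟨N, hN⟩ := (tendsto_atTop_atTop.1 hρ) n
  refine (Set.finite_lt_nat N).subset ?_
  rintro m ⟨hm, hmn⟩
  by_contra hlt
  simp only [mem_ofPred_eq, not_lt] at hlt
  exact hmn (hH (hN m hlt) hm)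

theorem measurableSet_meets (t : Set ℕ) : MeasurableSet {s : Set ℕ | (s ∩ t).Nonempty} := by
  have : {s : Set ℕ | (s ∩ t).Nonempty} = ⋃ k ∈ t, {s : Set ℕ | k ∈ s} := by
    ext s
    simp only [mem_ofPred_eq, mem_iUnion, exists_prop]
    constructor
    · rintro ⟨k, hk, hkt⟩
      exact ⟨k, hkt, hk⟩
    · rintro ⟨k, hkt, hk⟩
      exact ⟨k, hk, hkt⟩
  rw [this]
  refine MeasurableSet.biUnion (Set.to_countable _) fun m _ => ?_
  exact measurableSet_setOfPred.2 (measurable_set_mem m)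

/-- The speed lemma: if the sets in `W` meet all members of the finite families `T n` infinitely
often, then with a slow enough speed the diagonals are hit with positive measure. -/
theorem exists_speed (ν : Measure (Set ℕ)) [IsFiniteMeasure ν] (T : ℕ → Set (Set ℕ))
    (hT : ∀ n, (T n).Finite) {W : Set (Set ℕ)} (hWm : MeasurableSet W) (hW : ν W ≠ 0)
    (hWT : ∀ s ∈ W, ∀ n, ∀ t ∈ T n, (s ∩ t).Infinite) :
    ∃ r' : ℕ → ℕ, Tendsto r' atTop atTop ∧ ∀ r : ℕ → ℕ, (∀ k, r k ≤ r' k) →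
      ∀ H : ℕ → Set ℕ, Antitone H → (∀ n, ∃ t ∈ T n, t ⊆ H n) → ν (hit (diag H r)) ≠ 0 := by
  classical
  let B : ℕ → ℕ → ℕ → Set (Set ℕ) := fun n a b =>
    W ∩ ⋂ t ∈ T n, {s | (s ∩ (t ∩ Ico a b)).Nonempty}
  have hBm : ∀ n a b, MeasurableSet (B n a b) := by
    intro n a b
    refine hWm.inter ?_
    exact MeasurableSet.biInter (hT n).countable fun t _ => measurableSet_meets _
  have hBmono : ∀ n a, Monotone (B n a) := by
    intro n a b b' hb s hs
    refine ⟨hs.1, ?_⟩
    refine mem_iInter₂.2 fun t ht => ?_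
    obtain ⟨k, hk1, hk2, hk3⟩ := mem_iInter₂.1 hs.2 t ht
    exact ⟨k, hk1, hk2, hk3.1, hk3.2.trans_le hb⟩
  have hBU : ∀ n a, (⋃ b, B n a b) = W := by
    intro n a
    apply Subset.antisymm
    · exact iUnion_subset fun b => inter_subset_left
    · intro s hs
      have h1 : ∀ t ∈ T n, ∃ k, k ∈ s ∧ k ∈ t ∧ a ≤ k := by
        intro t ht
        obtain ⟨k, hk, hak⟩ := (hWT s hs n t ht).exists_gt a
        exact ⟨k, hk.1, hk.2, hak.le⟩
      choose! f hf using h1
      obtain ⟨b, hb⟩ := ((hT n).image f).bddAbove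
      refine mem_iUnion.2 ⟨b + 1, hs, mem_iInter₂.2 fun t ht => ?_⟩
      exact ⟨f t, (hf t ht).1, (hf t ht).2.1, (hf t ht).2.2,
        Nat.lt_succ_of_le (hb ⟨t, ht, rfl⟩)⟩
  have hhalf : ν W / 2 < ν W := ENNReal.half_lt_self hW (measure_ne_top _ _)
  have hnext : ∀ n a, ∃ b, a < b ∧ ν W / 2 < ν (B n a b) := by
    intro n a
    have h1 := tendsto_measure_iUnion_atTop (μ := ν) (hBmono n a)
    rw [hBU n a] at h1
    have h2 := (h1.eventually (lt_mem_nhds hhalf)).and (eventually_gt_atTop a)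
    obtain ⟨b, hb⟩ := h2.exists
    exact ⟨b, hb.2, hb.1⟩
  choose nx hnx1 hnx2 using hnext
  obtain ⟨m, hm0, hms⟩ : ∃ m : ℕ → ℕ, m 0 = 0 ∧ ∀ n, m (n + 1) = nx n (m n) :=
    ⟨fun n => Nat.rec 0 (fun n a => nx n a) n, rfl, fun n => rfl⟩
  have hmlt : ∀ n, m n < m (n + 1) := fun n => by rw [hms]; exact hnx1 _ _
  have hmono : StrictMono m := strictMono_nat_of_lt_succ hmlt
  have hle : ∀ n, n ≤ m n := fun n => hmono.le_apply
  let r' : ℕ → ℕ := fun k => Nat.findGreatest (fun n => m n ≤ k) k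
  have hr1 : ∀ k, m (r' k) ≤ k := fun k =>
    Nat.findGreatest_spec (P := fun n => m n ≤ k) (Nat.zero_le k) (by rw [hm0]; exact Nat.zero_le k)
  have hr2 : ∀ n k, m n ≤ k → n ≤ r' k := fun n k h =>
    Nat.le_findGreatest ((hle n).trans h) h
  refine ⟨r', tendsto_atTop_atTop.2 fun n => ⟨m n, fun k hk => hr2 n k hk⟩, ?_⟩
  intro r hr H hH hTH
  let C : ℕ → Set (Set ℕ) := fun N => ⋃ n ≥ N, B n (m n) (m (n + 1))
  have hCm : ∀ N, MeasurableSet (C N) := fun N =>
    MeasurableSet.iUnion fun n => MeasurableSet.iUnion fun _ => hBm _ _ _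
  have hCanti : Antitone C := by
    intro N N' hN s hs
    obtain ⟨n, hn, hs⟩ := mem_iUnion₂.1 hs
    exact mem_iUnion₂.2 ⟨n, le_trans hN hn, hs⟩
  have hClim : ν W / 2 ≤ ν (⋂ N, C N) := by
    have h1 := tendsto_measure_iInter_atTop (μ := ν) (fun N => (hCm N).nullMeasurableSet) hCanti
      ⟨0, measure_ne_top _ _⟩
    refine ge_of_tendsto' h1 fun N => ?_
    refine (hnx2 N (m N)).le.trans (measure_mono ?_)
    intro s hs
    refine mem_iUnion₂.2 ⟨N, le_refl N, ?_⟩
    rw [hms]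
    exact hs
  have hsub : (⋂ N, C N) ⊆ hit (diag H r) := by
    intro s hs
    refine Set.infinite_of_forall_exists_gt fun N => ?_
    obtain ⟨n, hn, hsn⟩ := mem_iUnion₂.1 (mem_iInter.1 hs (N + 1))
    obtain ⟨t, ht, htH⟩ := hTH n
    obtain ⟨k, hk1, hk2, hk3⟩ := mem_iInter₂.1 hsn.2 t ht
    refine ⟨k, ⟨hk1, ?_⟩, ?_⟩
    · have h1 : r' k ≤ n := by
        by_contra hlt
        push Not at hlt
        have h2 : m (n + 1) ≤ m (r' k) := hmono.monotone hlt
        exact absurd (h2.trans (hr1 k)) (not_le.2 hk3.2)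
      exact hH ((hr k).trans h1) (htH hk2)
    · have := (hle n).trans hk3.1
      omega
  intro h0
  have h1 := measure_mono_null hsub h0
  rw [h1] at hClim
  have h2 : ν W / 2 = 0 := le_antisymm hClim bot_le
  rw [ENNReal.div_eq_zero_iff] at h2
  rcases h2 with h2 | h2
  · exact hW h2
  · exact absurd h2 (by simp)

/-- Exhaustion: countably many members of a family of measurable sets cover all the others up to
null sets. -/
theorem exists_countable_exhaust {Y ι : Type} [MeasurableSpace Y] (ν : Measure Y)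
    [IsFiniteMeasure ν] (V : ι → Set Y) (hV : ∀ i, MeasurableSet (V i)) :
    ∃ F : Set ι, F.Countable ∧ ∀ i, ν (V i \ ⋃ j ∈ F, V j) = 0 := by
  classical
  let S : Set ENNReal := {c | ∃ F : Set ι, F.Countable ∧ ν (⋃ j ∈ F, V j) = c}
  have hSne : S.Nonempty := ⟨_, ∅, countable_empty, rfl⟩
  obtain ⟨u, -, hu2, hu3⟩ := exists_seq_tendsto_sSup hSne (OrderTop.bddAbove S)
  choose F hF1 hF2 using hu3
  refine ⟨⋃ n, F n, countable_iUnion hF1, fun i => ?_⟩
  set F' := ⋃ n, F n with hF'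
  have hF'c : F'.Countable := countable_iUnion hF1
  have hle : ∀ G : Set ι, G.Countable → ν (⋃ j ∈ G, V j) ≤ sSup S := fun G hG =>
    le_sSup ⟨G, hG, rfl⟩
  have hge : sSup S ≤ ν (⋃ j ∈ F', V j) := by
    refine le_of_tendsto' hu2 fun n => ?_
    rw [← hF2 n]
    refine measure_mono ?_
    refine biUnion_subset_biUnion_left ?_
    exact subset_iUnion F n
  have hFm : MeasurableSet (⋃ j ∈ F', V j) := MeasurableSet.biUnion hF'c fun j _ => hV j
  have h1 := hle (insert i F') (hF'c.insert i)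
  rw [biUnion_insert] at h1
  have h2 : ν (V i ∪ ⋃ j ∈ F', V j) = ν (⋃ j ∈ F', V j) + ν (V i \ ⋃ j ∈ F', V j) := by
    rw [union_comm]
    exact (measure_union' disjoint_sdiff_right hFm).symm ▸ by rw [union_sdiff_self]
  rw [h2] at h1
  have h3 : ν (⋃ j ∈ F', V j) + ν (V i \ ⋃ j ∈ F', V j) ≤ ν (⋃ j ∈ F', V j) + 0 := by
    rw [add_zero]; exact h1.trans hge
  have h4 := (ENNReal.add_le_add_iff_left (measure_ne_top _ _)).1 h3
  exact le_antisymm h4 bot_le

/-- A positive-measure event is not covered by fewer than `cov(N)` null sets. -/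
theorem exists_nonnull_of_cover {ι : Type} [Infinite ι] (hι : #ι < covNull)
    (ν : Measure (Set ℕ)) [IsFiniteMeasure ν] {V : Set (Set ℕ)} (hVm : MeasurableSet V)
    (hV : ν V ≠ 0) (N : ι → Set (Set ℕ)) (hc : V ⊆ ⋃ i, N i) : ∃ i, ν (N i) ≠ 0 := by
  classical
  by_contra hcon
  push Not at hcon
  have := standardBorel_setNat
  have hpr : IsProbabilityMeasure (ProbabilityTheory.cond ν V) :=
    ProbabilityTheory.cond_isProbabilityMeasure hV
  obtain ⟨G, hGm, hG⟩ := Measure.exists_measurable_map_eq (ProbabilityTheory.cond ν V)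
  have hac : ProbabilityTheory.cond ν V ≪ ν := ProbabilityTheory.cond_absolutelyContinuous
  have h0 : ∀ E : Set (Set ℕ), (ProbabilityTheory.cond ν V) E = 0 → volume (G ⁻¹' E) = 0 := by
    intro E hE
    obtain ⟨t, ht1, ht2, ht3⟩ := exists_measurable_superset_of_null hE
    refine measure_mono_null (preimage_mono ht1) ?_
    rw [← Measure.map_apply hGm ht2, hG, ht3]
  let M : Option ι → Set unitInterval := fun o => match o with
    | none => G ⁻¹' Vᶜ
    | some i => G ⁻¹' (N i)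
  have key : covNull ≤ #(Option ι) := by
    refine covNull_le_of_cover_unitInterval M ?_ ?_
    · rintro (_ | i)
      · refine h0 _ ?_
        rw [ProbabilityTheory.cond_apply hVm, inter_compl_self, measure_empty, mul_zero]
      · exact h0 _ (hac (hcon i))
    · refine eq_univ_of_forall fun t => ?_
      by_cases ht : G t ∈ V
      · obtain ⟨i, hi⟩ := mem_iUnion.1 (hc ht)
        exact mem_iUnion.2 ⟨some i, hi⟩
      · exact mem_iUnion.2 ⟨none, ht⟩
  rw [mk_option, add_one_eq (aleph0_le_mk ι)] at key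
  exact absurd key (not_le.2 hι)

end Pool.Agent.helper751_mad
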