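import Mathlib
import Pool.Agent.helper751_mad.Diag

set_option autoImplicit false
open MeasureTheory Set Cardinal Filter Topology

namespace Pool.Agent.helper751_mad

/-- The combinatorial data needed for one width `Λ`: slow speeds, a dominating family, a cofinal
family of countable sets, and a closed cover of the Cantor space with many isolated members. -/
structure NodeData (Λ : Type) where
  r : Λ → ℕ → ℕ
  r_tendsto : ∀ i, Tendsto (r i) atTop atTop
  r_small : ∀ r' : ℕ → ℕ, Tendsto r' atTop atTop → ∃ i, ∀ k, r i k ≤ r' k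
  g : Λ → ℕ → ℕ
  g_dom : ∀ f : ℕ → ℕ, ∃ i, ∀ k, f k ≤ g i k
  cnt : Λ → ℕ → Λ
  cnt_cof : ∀ q : ℕ → Λ, ∃ α, ∀ n, ∃ l, cnt α l = q n
  K : Λ → Set (ℕ → Bool)
  L : Λ → Set (ℕ → Bool)
  K_closed : ∀ i, IsClosed (K i)
  L_closed : ∀ i, IsClosed (L i)
  K_nonempty : ∀ i, (K i).Nonempty
  K_disj : ∀ i j, i ≠ j → Disjoint (K i) (K j)
  KL_disj : ∀ i j, Disjoint (K i) (L j)
  cover : ∀ z, (∃ i, z ∈ K i) ∨ ∃ j, z ∈ L j
  pair : Λ → Λ × Λ
  pair_surj : Function.Surjective pair
  trip : Λ → Λ × Λ × Λ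
  trip_surj : Function.Surjective trip
  quad : Λ → (Λ × Λ × Λ) × Bool
  quad_surj : Function.Surjective quad

theorem mem_of_forall_agree {L : Set (ℕ → Bool)} (hL : IsClosed L) {z : ℕ → Bool}
    (h : ∀ n, ∃ w ∈ L, ∀ i < n, z i = w i) : z ∈ L := by
  choose w hw1 hw2 using h
  have ht : Tendsto w atTop (𝓝 z) := by
    rw [tendsto_pi_nhds]
    intro i
    refine tendsto_const_nhds.congr' ?_
    filter_upwards [eventually_gt_atTop i] with n hn
    exact hw2 n i hn
  exact hL.mem_of_tendsto ht (Eventually.of_forall hw1)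

/-- The saturation of a set with respect to the first `n` coordinates is closed. -/
theorem isClosed_sat (L : Set (ℕ → Bool)) (n : ℕ) :
    IsClosed {z : ℕ → Bool | ∃ w ∈ L, ∀ i < n, z i = w i} := by
  have hc : Continuous (fun (z : ℕ → Bool) (i : Fin n) => z i) :=
    continuous_pi fun i => continuous_apply (i : ℕ)
  have : {z : ℕ → Bool | ∃ w ∈ L, ∀ i < n, z i = w i} =
      (fun (z : ℕ → Bool) (i : Fin n) => z i) ⁻¹'
        ((fun (z : ℕ → Bool) (i : Fin n) => z i) '' L) := by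
    ext z
    constructor
    · rintro ⟨w, hw, h⟩
      refine ⟨w, hw, ?_⟩
      funext i
      exact (h i i.2).symm
    · rintro ⟨w, hw, h⟩
      refine ⟨w, hw, fun i hi => ?_⟩
      exact (congrFun h ⟨i, hi⟩).symm
  rw [this]
  exact (isClosed_discrete _).preimage hc

theorem exists_sep {K L : Set (ℕ → Bool)} (hK : IsClosed K) (hL : IsClosed L)
    (hd : Disjoint K L) : ∃ n, ∀ z ∈ K, ∀ w ∈ L, ∃ i < n, z i ≠ w i := by
  by_contra hcon
  push Not at hcon
  let C : ℕ → Set (ℕ → Bool) := fun n => K ∩ {z | ∃ w ∈ L, ∀ i < n, z i = w i}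
  have hne : (⋂ n, C n).Nonempty := by
    refine IsCompact.nonempty_iInter_of_sequence_nonempty_isCompact_isClosed C ?_ ?_ ?_ ?_
    · rintro n z ⟨h1, w, h2, h3⟩
      exact ⟨h1, w, h2, fun i hi => h3 i (hi.trans (Nat.lt_succ_self n))⟩
    · intro n
      obtain ⟨z, hz, w, hw, h⟩ := hcon n
      exact ⟨z, hz, w, hw, h⟩
    · exact (hK.inter (isClosed_sat L 0)).isCompact
    · exact fun n => hK.inter (isClosed_sat L n)
  obtain ⟨z, hz⟩ := hne
  have h1 : z ∈ K := (mem_iInter.1 hz 0).1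
  have h2 : z ∈ L := mem_of_forall_agree hL fun n => (mem_iInter.1 hz n).2
  exact Set.disjoint_left.1 hd h1 h2

/-- Every infinite set of indices has an accumulation point for a map to the Cantor space. -/
theorem exists_accum {D : Set ℕ} (hD : D.Infinite) (φ : ℕ → ℕ → Bool) :
    ∃ z : ℕ → Bool, ∀ n, {k | k ∈ D ∧ ∀ i < n, z i = φ k i}.Infinite := by
  have hne : (cofinite ⊓ 𝓟 D).NeBot := cofinite_inf_principal_neBot_iff.2 hD
  obtain ⟨z, hz⟩ := exists_clusterPt_of_compactSpace (map φ (cofinite ⊓ 𝓟 D))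
  refine ⟨z, fun n => ?_⟩
  have hU : {w : ℕ → Bool | ∀ i < n, z i = w i} ∈ 𝓝 z := by
    have hc : Continuous (fun (w : ℕ → Bool) (i : Fin n) => w i) :=
      continuous_pi fun i => continuous_apply (i : ℕ)
    have h1 : IsOpen ((fun (w : ℕ → Bool) (i : Fin n) => w i) ⁻¹'
        ({fun i : Fin n => z i} : Set (Fin n → Bool))) := (isOpen_discrete _).preimage hc
    refine mem_of_superset (h1.mem_nhds rfl) ?_
    intro w hw i hi
    have hw' : (fun i : Fin n => w i) = fun i : Fin n => z i := hw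
    exact (congrFun hw' ⟨i, hi⟩).symm
  have h1 := (clusterPt_iff_frequently.1 hz) _ hU
  rw [frequently_map, frequently_inf_principal, frequently_cofinite_iff_infinite] at h1
  exact h1

/-- The elements `k` of `D` for which the binary expansion of `E k` agrees up to `n` with an
element of `M`. -/
def conv (D : Set ℕ) (E : ℕ → ℕ) (M : Set (ℕ → Bool)) (n : ℕ) : Set ℕ :=
  {k | k ∈ D ∧ ∃ z ∈ M, ∀ i < n, z i = (E k).testBit i}

theorem conv_anti (D : Set ℕ) (E : ℕ → ℕ) (M : Set (ℕ → Bool)) : Antitone (conv D E M) := by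
  rintro n n' hn k ⟨h1, z, h2, h3⟩
  exact ⟨h1, z, h2, fun i hi => h3 i (hi.trans_le hn)⟩

theorem diag_conv_subset (D : Set ℕ) (E : ℕ → ℕ) (M : Set (ℕ → Bool)) (ρ : ℕ → ℕ) :
    diag (conv D E M) ρ ⊆ D := fun _ hm => hm.1

theorem diag_conv_inter_finite {D D' : Set ℕ} {E : ℕ → ℕ} {M M' : Set (ℕ → Bool)}
    (hM : IsClosed M) (hM' : IsClosed M') (hd : Disjoint M M') {ρ ρ' : ℕ → ℕ}
    (hρ : Tendsto ρ atTop atTop) (hρ' : Tendsto ρ' atTop atTop) :
    (diag (conv D E M) ρ ∩ diag (conv D' E M') ρ').Finite := by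
  obtain ⟨n, hn⟩ := exists_sep hM hM' hd
  have h1 := diag_sdiff_finite (conv_anti D E M) hρ n
  have h2 := diag_sdiff_finite (conv_anti D' E M') hρ' n
  refine (h1.union h2).subset ?_
  rintro m ⟨hm1, hm2⟩
  by_contra hcon
  have hc1 : m ∈ conv D E M n := by
    by_contra hc
    exact hcon (Or.inl ⟨hm1, hc⟩)
  have hc2 : m ∈ conv D' E M' n := by
    by_contra hc
    exact hcon (Or.inr ⟨hm2, hc⟩)
  obtain ⟨-, z, hz, hz2⟩ := hc1
  obtain ⟨-, w, hw, hw2⟩ := hc2
  obtain ⟨i, hi, hne⟩ := hn z hz w hw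
  exact hne ((hz2 i hi).trans (hw2 i hi).symm)

variable {Λ : Type}

/-- The new members of the almost disjoint family. -/
def NodeData.Cf (N : NodeData Λ) (D : Λ → Set ℕ) (E : ℕ → ℕ) (i : Λ) : Set ℕ :=
  diag (conv (D (N.pair i).1) E (N.K i)) (N.r (N.pair i).2)

/-- The new witnesses. -/
def NodeData.Plus (N : NodeData Λ) (D : Λ → Set ℕ) (E : ℕ → ℕ) (i : Λ) : Set ℕ :=
  if (N.quad i).2 = true then
    diag (conv (D (N.quad i).1.1) E (N.L (N.quad i).1.2.1)) (N.r (N.quad i).1.2.2)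
  else
    diag (conv (D (N.quad i).1.1) E (N.K (N.quad i).1.2.1)) (N.r (N.quad i).1.2.2) \
      N.Cf D E (N.quad i).1.2.1

/-- The witnesses at a countable limit. -/
def NodeData.Lim (N : NodeData Λ) (Ds : ℕ → Λ → Set ℕ) (i : Λ) : Set ℕ :=
  diag (fun n => {m | ∀ k < n, ∃ l < N.g (N.trip i).2.1 k, m ∈ Ds k (N.cnt (N.trip i).1 l)})
    (N.r (N.trip i).2.2)

/-- `D` is a family of witnesses for the goodness of `𝒜`. -/
structure IsWit (𝒜 : Set (Set ℕ)) (D : Λ → Set ℕ) : Prop where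
  fin : ∀ i, ∀ a ∈ 𝒜, (D i ∩ a).Finite
  law : ∀ ν : Measure (Set ℕ), IsFiniteMeasure ν → (∀ a ∈ 𝒜, ν (hit a) = 0) →
    ν {s | s.Infinite} ≠ 0 → ∃ i, ν (hit (D i)) ≠ 0

theorem NodeData.Cf_subset (N : NodeData Λ) (D : Λ → Set ℕ) (E : ℕ → ℕ) (i : Λ) :
    N.Cf D E i ⊆ D (N.pair i).1 := diag_conv_subset _ _ _ _

theorem NodeData.Cf_inter_finite (N : NodeData Λ) (D : Λ → Set ℕ) (E : ℕ → ℕ) {i j : Λ}
    (hij : i ≠ j) : (N.Cf D E i ∩ N.Cf D E j).Finite :=
  diag_conv_inter_finite (N.K_closed i) (N.K_closed j) (N.K_disj i j hij) (N.r_tendsto _)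
    (N.r_tendsto _)

/-- Successor step. -/
theorem IsWit.plus [Infinite Λ] (N : NodeData Λ) (hcov : #Λ < covNull) {𝒜 : Set (Set ℕ)}
    {D : Λ → Set ℕ} (hD : IsWit 𝒜 D) (E : ℕ → ℕ) :
    IsWit (𝒜 ∪ range (N.Cf D E)) (N.Plus D E) := by
  classical
  constructor
  · intro i a ha
    unfold NodeData.Plus
    rcases ha with ha | ⟨j, rfl⟩
    · split_ifs
      · exact (hD.fin _ a ha).subset (inter_subset_inter_left _ (diag_conv_subset _ _ _ _))
      · exact (hD.fin _ a ha).subset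
          (inter_subset_inter_left _ (sdiff_subset.trans (diag_conv_subset _ _ _ _)))
    · split_ifs
      · refine diag_conv_inter_finite (N.L_closed _) (N.K_closed _) (N.KL_disj _ _).symm
          (N.r_tendsto _) (N.r_tendsto _)
      · by_cases hj : (N.quad i).1.2.1 = j
        · rw [hj]
          refine (Set.finite_empty).subset ?_
          rintro m ⟨⟨-, h1⟩, h2⟩
          exact h1 h2
        · exact (diag_conv_inter_finite (N.K_closed _) (N.K_closed _) (N.K_disj _ _ hj)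
            (N.r_tendsto _) (N.r_tendsto _)).subset (inter_subset_inter_left _ sdiff_subset)
  · intro ν hν h0 hinf
    obtain ⟨a, ha⟩ := hD.law ν hν (fun b hb => h0 b (Or.inl hb)) hinf
    let W : Set (ℕ → Bool) → Set (Set ℕ) := fun M => ⋂ n, hit (conv (D a) E M n)
    have hWm : ∀ M, MeasurableSet (W M) := fun M =>
      MeasurableSet.iInter fun n => measurableSet_hit' _
    have hcover : hit (D a) ⊆ ⋃ p : Λ × Bool, W (if p.2 = true then N.L p.1 else N.K p.1) := by
      intro s hs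
      obtain ⟨z, hz⟩ := exists_accum hs (fun k i => (E k).testBit i)
      have key : ∀ M : Set (ℕ → Bool), z ∈ M → s ∈ W M := by
        intro M hM
        refine mem_iInter.2 fun n => ?_
        refine (hz n).mono ?_
        rintro k ⟨⟨hk1, hk2⟩, hk3⟩
        exact ⟨hk1, hk2, z, hM, hk3⟩
      rcases N.cover z with ⟨i, hi⟩ | ⟨j, hj⟩
      · exact mem_iUnion.2 ⟨(i, false), key _ (by simpa using hi)⟩
      · exact mem_iUnion.2 ⟨(j, true), key _ (by simpa using hj)⟩
    have hι : #(Λ × Bool) < covNull := by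
      rw [mk_prod, lift_id, lift_id, mk_bool]
      have : #Λ * 2 = #Λ := by
        rw [mul_comm]
        exact (mul_eq_right (aleph0_le_mk Λ) (by exact_mod_cast (natCast_lt_aleph0 (n := 2)).le.trans (aleph0_le_mk Λ))
          (by norm_num))
      rw [this]; exact hcov
    obtain ⟨p, hp⟩ := exists_nonnull_of_cover hι ν (measurableSet_hit' _) ha _ hcover
    set M := (if p.2 = true then N.L p.1 else N.K p.1) with hM
    obtain ⟨r', hr', hr⟩ := exists_speed ν (fun n => {conv (D a) E M n})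
      (fun n => Set.finite_singleton _) (hWm M) hp (by
        intro s hs n t ht
        rw [mem_singleton_iff] at ht
        subst ht
        exact mem_iInter.1 hs n)
    obtain ⟨l, hl⟩ := N.r_small r' hr'
    have h1 : ν (hit (diag (conv (D a) E M) (N.r l))) ≠ 0 :=
      hr _ hl _ (conv_anti _ _ _) (fun n => ⟨_, rfl, Subset.rfl⟩)
    obtain ⟨i, hi⟩ := N.quad_surj ((a, p.1, l), p.2)
    refine ⟨i, ?_⟩
    unfold NodeData.Plus
    rw [hi]
    dsimp only
    by_cases hb : p.2 = true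
    · rw [if_pos hb]
      rw [if_pos hb] at hM
      rwa [hM] at h1
    · rw [if_neg hb]
      rw [if_neg hb] at hM
      rw [hM] at h1
      intro h2
      refine h1 ?_
      refine measure_mono_null ?_ (measure_union_null h2 (h0 _ (Or.inr ⟨p.1, rfl⟩)))
      intro s hs
      by_cases hc : s ∈ hit (N.Cf D E p.1)
      · exact Or.inr hc
      · refine Or.inl ?_
        have h3 : (s ∩ N.Cf D E p.1).Finite := not_infinite.1 hc
        have h4 : ((s ∩ diag (conv (D a) E (N.K p.1)) (N.r l)) \ (s ∩ N.Cf D E p.1)).Infinite :=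
          hs.sdiff h3
        refine h4.mono ?_
        rintro k ⟨⟨hk1, hk2⟩, hk3⟩
        exact ⟨hk1, hk2, fun hk4 => hk3 ⟨hk1, hk4⟩⟩

/-- A generic `E` makes one of the new members hit a law which was not hit before. -/
theorem NodeData.exists_hit (N : NodeData Λ) {D : Λ → Set ℕ} {E : ℕ → ℕ}
    (ν : Measure (Set ℕ)) [IsFiniteMeasure ν] {a : Λ} (ha : ν (hit (D a)) ≠ 0)
    (hgen : ν {s | s ∈ hit (D a) ∧ ∃ v, ¬ (s ∩ {k | k ∈ D a ∧ E k = v}).Infinite} = 0) :
    ∃ i, ν (hit (N.Cf D E i)) ≠ 0 := by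
  classical
  let W : Set (Set ℕ) := ⋂ v, hit {k | k ∈ D a ∧ E k = v}
  have hWm : MeasurableSet W := MeasurableSet.iInter fun v => measurableSet_hit' _
  have hW : ν W ≠ 0 := by
    intro h0
    refine ha (measure_mono_null ?_ (measure_union_null h0 hgen))
    intro s hs
    by_cases hv : ∃ v, ¬ (s ∩ {k | k ∈ D a ∧ E k = v}).Infinite
    · exact Or.inr ⟨hs, hv⟩
    · push Not at hv
      exact Or.inl (mem_iInter.2 hv)
  obtain ⟨r', hr', hr⟩ := exists_speed ν
    (fun n => (fun v => {k | k ∈ D a ∧ E k = v}) '' (Iio (2 ^ n)))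
    (fun n => (Set.finite_Iio _).image _) hWm hW (by
      rintro s hs n _ ⟨v, -, rfl⟩
      exact mem_iInter.1 hs v)
  obtain ⟨l, hl⟩ := N.r_small r' hr'
  obtain ⟨i, hi⟩ := N.pair_surj (a, l)
  refine ⟨i, ?_⟩
  unfold NodeData.Cf
  rw [hi]
  refine hr _ hl _ (conv_anti _ _ _) fun n => ?_
  obtain ⟨z, hz⟩ := N.K_nonempty i
  refine ⟨_, ⟨Nat.ofBits (fun j : Fin n => z j), Nat.ofBits_lt_two_pow _, rfl⟩, ?_⟩
  rintro k ⟨hk1, hk2⟩
  refine ⟨hk1, z, hz, fun j hj => ?_⟩
  rw [hk2, Nat.testBit_ofBits_lt _ _ hj]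

end Pool.Agent.helper751_mad
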