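import Mathlib
import Pool.Agent.helper751_mad.Wit

set_option autoImplicit false
open MeasureTheory Set Cardinal Filter Topology

namespace Pool.Agent.helper751_mad

/-- The slow speed attached to a fast function. -/
noncomputable def slow (g : ℕ → ℕ) (k : ℕ) : ℕ := Nat.findGreatest (fun n => g n ≤ k) k

theorem slow_tendsto (g : ℕ → ℕ) : Tendsto (slow g) atTop atTop := by
  rw [tendsto_atTop_atTop]
  intro N
  refine ⟨max N (g N), fun k hk => ?_⟩
  exact Nat.le_findGreatest ((le_max_left _ _).trans hk) ((le_max_right _ _).trans hk)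

theorem exists_nodeData {Λ ι : Type} [Infinite Λ] [Nonempty ι] (hι : #ι ≤ #Λ)
    (g : Λ → ℕ → ℕ) (g_dom : ∀ f : ℕ → ℕ, ∃ i, ∀ k, f k ≤ g i k)
    (cnt : Λ → ℕ → Λ) (cnt_cof : ∀ q : ℕ → Λ, ∃ α, ∀ n, ∃ l, cnt α l = q n)
    (K : Λ → Set (ℕ → Bool)) (L : ι → Set (ℕ → Bool))
    (K_closed : ∀ i, IsClosed (K i)) (L_closed : ∀ i, IsClosed (L i))
    (K_nonempty : ∀ i, (K i).Nonempty)
    (K_disj : ∀ i j, i ≠ j → Disjoint (K i) (K j)) (KL_disj : ∀ i j, Disjoint (K i) (L j))
    (cover : ∀ z, (∃ i, z ∈ K i) ∨ ∃ j, z ∈ L j) : Nonempty (NodeData Λ) := by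
  classical
  have hinf : ℵ₀ ≤ #Λ := aleph0_le_mk Λ
  have h2 : #(Λ × Λ) = #Λ := by
    simp only [mk_prod, lift_id]; exact mul_eq_self hinf
  have h3 : #(Λ × Λ × Λ) = #Λ := by
    have : #(Λ × Λ × Λ) = #Λ * (#Λ * #Λ) := by simp only [mk_prod, lift_id]
    rw [this, mul_eq_self hinf, mul_eq_self hinf]
  have h4 : #((Λ × Λ × Λ) × Bool) = #Λ := by
    have : #((Λ × Λ × Λ) × Bool) = #(Λ × Λ × Λ) * 2 := by
      rw [mk_prod, mk_bool]; simp only [lift_id]
    rw [this, h3]
    exact mul_eq_left hinf ((natCast_lt_aleph0 (n := 2)).le.trans hinf) two_ne_zero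
  obtain ⟨e2⟩ := Cardinal.eq.1 h2.symm
  obtain ⟨e3⟩ := Cardinal.eq.1 h3.symm
  obtain ⟨e4⟩ := Cardinal.eq.1 h4.symm
  have hsur : ∃ u : Λ → ι, Function.Surjective u := by
    obtain ⟨v⟩ := (Cardinal.le_def ι Λ).1 hι
    exact ⟨Function.invFun v, Function.invFun_surjective v.injective⟩
  obtain ⟨u, hu⟩ := hsur
  refine ⟨{ r := fun i => slow (g i)
            r_tendsto := fun i => slow_tendsto (g i)
            r_small := ?_
            g := g
            g_dom := g_dom
            cnt := cnt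
            cnt_cof := cnt_cof
            K := K
            L := fun i => L (u i)
            K_closed := K_closed
            L_closed := fun i => L_closed _
            K_nonempty := K_nonempty
            K_disj := K_disj
            KL_disj := fun i j => KL_disj _ _
            cover := ?_
            pair := e2
            pair_surj := e2.surjective
            trip := e3
            trip_surj := e3.surjective
            quad := e4
            quad_surj := e4.surjective }⟩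
  · intro r' hr'
    rw [tendsto_atTop_atTop] at hr'
    choose f hf using hr'
    obtain ⟨i, hi⟩ := g_dom f
    refine ⟨i, fun k => ?_⟩
    by_cases h0 : slow (g i) k = 0
    · rw [h0]; exact Nat.zero_le _
    · have h1 : g i (slow (g i) k) ≤ k :=
        Nat.findGreatest_of_ne_zero (P := fun n => g i n ≤ k) (m := slow (g i) k) rfl h0
      exact hf _ _ ((hi _).trans h1)
  · intro z
    rcases cover z with h | ⟨j, hj⟩
    · exact Or.inl h
    · obtain ⟨i, hi⟩ := hu j
      exact Or.inr ⟨i, by rw [hi]; exact hj⟩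

/-- An everywhere dominating family indexed by `Λ`. -/
theorem exists_everywhere_dom {Λ : Type} [Infinite Λ] (D : Set (ℕ → ℕ)) (hD : #D ≤ #Λ)
    (hdom : ∀ f : ℕ → ℕ, ∃ g ∈ D, ∀ᶠ n in atTop, f n ≤ g n) :
    ∃ g : Λ → ℕ → ℕ, ∀ f : ℕ → ℕ, ∃ i, ∀ k, f k ≤ g i k := by
  classical
  have hinf : ℵ₀ ≤ #Λ := aleph0_le_mk Λ
  have h1 : #(D × ℕ) ≤ #Λ := by
    have : #(D × ℕ) = #D * ℵ₀ := by
      rw [mk_prod, mk_nat]; simp only [lift_id]
    rw [this]
    exact mul_le_of_le hinf hD hinf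
  obtain ⟨g0, hg0, -⟩ := hdom 0
  have : Nonempty (D × ℕ) := ⟨(⟨g0, hg0⟩, 0)⟩
  obtain ⟨v⟩ := (Cardinal.le_def (D × ℕ) Λ).1 h1
  have hu := Function.invFun_surjective v.injective
  refine ⟨fun i k => max ((Function.invFun v i).1.1 k) (Function.invFun v i).2, fun f => ?_⟩
  obtain ⟨g, hg, hfg⟩ := hdom f
  obtain ⟨N, hN⟩ := eventually_atTop.1 hfg
  obtain ⟨i, hi⟩ := hu (⟨g, hg⟩, (Finset.range N).sup f)
  refine ⟨i, fun k => ?_⟩
  change f k ≤ max ((Function.invFun v i).1.1 k) (Function.invFun v i).2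
  rw [hi]
  by_cases hk : k < N
  · exact le_max_of_le_right (Finset.le_sup (f := f) (Finset.mem_range.2 hk))
  · exact le_max_of_le_left (hN k (not_lt.1 hk))

/-- A sequence taking all the values in a cofinal family of countable sets. -/
theorem exists_cnt {Λ : Type} [Infinite Λ] (S : Set (Set Λ)) (hS : #S ≤ #Λ)
    (hS1 : ∀ s ∈ S, s.Countable) (hS2 : ∀ t : Set Λ, t.Countable → ∃ s ∈ S, t ⊆ s) :
    ∃ cnt : Λ → ℕ → Λ, ∀ q : ℕ → Λ, ∃ α, ∀ n, ∃ l, cnt α l = q n := by
  classical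
  obtain ⟨s0, hs0, -⟩ := hS2 ∅ countable_empty
  have : Nonempty S := ⟨⟨s0, hs0⟩⟩
  obtain ⟨v⟩ := (Cardinal.le_def S Λ).1 hS
  have hu := Function.invFun_surjective v.injective
  have hc : ∀ s : S, ∃ f : ℕ → Λ, (s : Set Λ) ⊆ range f := by
    intro s
    have h1 : (insert (Classical.arbitrary Λ) (s : Set Λ)).Countable := (hS1 s s.2).insert _
    obtain ⟨f, hf⟩ := h1.exists_eq_range ⟨_, mem_insert _ _⟩
    exact ⟨f, (subset_insert _ _).trans hf.subset⟩
  choose f hf using hc
  refine ⟨fun α => f (Function.invFun v α), fun q => ?_⟩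
  obtain ⟨s, hs, hqs⟩ := hS2 (range q) (countable_range q)
  obtain ⟨α, hα⟩ := hu ⟨s, hs⟩
  refine ⟨α, fun n => ?_⟩
  change ∃ l, f (Function.invFun v α) l = q n
  rw [hα]
  exact hf ⟨s, hs⟩ (hqs ⟨n, rfl⟩)

theorem exists_cyl {U : Set (ℕ → Bool)} (hU : IsOpen U) {w : ℕ → Bool} (hw : w ∈ U) :
    ∃ n, ∀ y : ℕ → Bool, (∀ i < n, w i = y i) → y ∈ U := by
  by_contra hcon
  push Not at hcon
  exact mem_of_forall_agree (z := w) hU.isClosed_compl (fun n => by
    obtain ⟨y, hy1, hy2⟩ := hcon n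
    exact ⟨y, hy2, hy1⟩) hw

/-- The binary expansion of a natural number as a point of the Cantor space. -/
def bits (m : ℕ) : ℕ → Bool := fun i => m.testBit i

theorem exists_bits_mem {U : Set (ℕ → Bool)} (hU : IsOpen U) (hne : U.Nonempty) :
    ∃ m, bits m ∈ U := by
  obtain ⟨w, hw⟩ := hne
  obtain ⟨n, hn⟩ := exists_cyl hU hw
  refine ⟨Nat.ofBits (fun j : Fin n => w j), hn _ fun i hi => ?_⟩
  simp only [bits]
  rw [Nat.testBit_ofBits_lt _ _ hi]

theorem not_isOpen_singleton (w : ℕ → Bool) : ¬ IsOpen ({w} : Set (ℕ → Bool)) := by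
  intro hU
  obtain ⟨n, hn⟩ := exists_cyl hU rfl
  have h1 := hn (Function.update w n (!w n)) (fun i hi => by
    rw [Function.update_of_ne (ne_of_lt hi)])
  have h2 := congrFun (mem_singleton_iff.1 h1) n
  simp at h2

/-- The closed set of points which are separated from each point of a sequence at a given rate. -/
def sepSet (z : ℕ → ℕ → Bool) (g : ℕ → ℕ) : Set (ℕ → Bool) :=
  {y | ∀ n, ∃ j < g n, y j ≠ z n j}

theorem isClosed_sepSet (z : ℕ → ℕ → Bool) (g : ℕ → ℕ) : IsClosed (sepSet z g) := by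
  have : sepSet z g = ⋂ n, ⋃ j ∈ Iio (g n), {y : ℕ → Bool | y j ≠ z n j} := by
    ext y
    simp [sepSet]
  rw [this]
  refine isClosed_iInter fun n => (Set.finite_Iio (g n)).isClosed_biUnion fun j _ => ?_
  have h1 : Continuous (fun y : ℕ → Bool => y j) := continuous_apply j
  exact (isClosed_discrete {b : Bool | b ≠ z n j}).preimage h1

theorem mem_sepSet_of_ne {z : ℕ → ℕ → Bool} {y : ℕ → Bool} (h : ∀ n, y ≠ z n)
    {Λ : Type} {g : Λ → ℕ → ℕ} (g_dom : ∀ f : ℕ → ℕ, ∃ i, ∀ k, f k ≤ g i k) :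
    ∃ i, y ∈ sepSet z (g i) := by
  have h1 : ∀ n, ∃ j, y j ≠ z n j := fun n => Function.ne_iff.1 (h n)
  choose f hf using h1
  obtain ⟨i, hi⟩ := g_dom (fun n => f n + 1)
  exact ⟨i, fun n => ⟨f n, Nat.lt_of_succ_le (hi n), hf n⟩⟩

/-- If `𝔡 = ℵ₁` then there are node data of width `ℵ₁`. -/
theorem exists_nodeData_aleph_one (D : Set (ℕ → ℕ)) (hD : #D ≤ ℵ₁)
    (hdom : ∀ f : ℕ → ℕ, ∃ g ∈ D, ∀ᶠ n in atTop, f n ≤ g n) :
    ∃ Λ : Type, #Λ = ℵ₁ ∧ Nonempty (NodeData Λ) := by
  classical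
  let Λ : Type := (ℵ₁ : Cardinal.{0}).out
  have hΛ : #Λ = ℵ₁ := mk_out _
  obtain ⟨lo, wf, hord⟩ := exists_ord_eq_type_lt Λ
  have hinf : Infinite Λ := by
    rw [Cardinal.infinite_iff, hΛ]; exact aleph0_le_aleph 1
  have hIio : ∀ i : Λ, (Iio i).Countable := by
    intro i
    rw [← le_aleph0_iff_set_countable, ← Order.lt_succ_iff, succ_aleph0, ← hΛ]
    exact mk_Iio_lt i hord
  have hIic : ∀ i : Λ, (Iic i).Countable := by
    intro i
    have : Iic i = Iio i ∪ {i} := by
      ext y; simp [le_iff_lt_or_eq]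
    rw [this]
    exact (hIio i).union (countable_singleton _)
  have hΩ : ∀ q : ℕ → Λ, ∃ i, ∀ n, q n < i := by
    intro q
    have h1 : (⋃ n, Iic (q n)).Countable := countable_iUnion fun n => hIic _
    have h2 : (⋃ n, Iic (q n)) ≠ Set.univ := by
      intro h3
      rw [h3, ← le_aleph0_iff_set_countable, mk_univ, hΛ] at h1
      exact absurd aleph0_lt_aleph_one (not_lt.2 h1)
    obtain ⟨i, hi⟩ := (ne_univ_iff_exists_notMem _).1 h2
    refine ⟨i, fun n => ?_⟩
    by_contra hlt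
    exact hi (mem_iUnion.2 ⟨n, not_lt.1 hlt⟩)
  -- enumerations of the initial segments
  have henum : ∀ i : Λ, ∃ f : ℕ → Λ, Iic i = range f := fun i =>
    (hIic i).exists_eq_range ⟨i, le_refl i⟩
  choose enum henum using henum
  obtain ⟨g, g_dom⟩ := exists_everywhere_dom (Λ := Λ) D (hD.trans hΛ.ge) hdom
  -- the points
  have hstep : ∀ (α : Λ) (prev : ∀ β < α, ℕ → Bool), ∃ z : ℕ → Bool,
      (∀ m, z ≠ bits m) ∧ (∀ β < α, z ∉ sepSet bits (g β)) ∧
      ∀ β (hβ : β < α), (∀ m, prev β hβ ≠ bits m) → z ≠ prev β hβ := by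
    intro α prev
    by_contra hcon
    push Not at hcon
    have hc1 := (hIio α).to_subtype
    let f : ℕ ⊕ (Iio α ⊕ Iio α) → Set (ℕ → Bool) := Sum.elim (fun m => {bits m})
      (Sum.elim (fun β => sepSet bits (g β.1))
        (fun β => if ∀ m, prev β.1 β.2 ≠ bits m then {prev β.1 β.2} else ∅))
    have hfc : ∀ i, IsClosed (f i) := by
      rintro (m | β | β)
      · exact isClosed_singleton
      · exact isClosed_sepSet _ _
      · simp only [f, Sum.elim_inr]
        split_ifs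
        · exact isClosed_singleton
        · exact isClosed_empty
    have hfU : (⋃ i, f i) = Set.univ := by
      refine eq_univ_of_forall fun z => ?_
      by_cases h1 : ∀ m, z ≠ bits m
      · by_cases h2 : ∀ β < α, z ∉ sepSet bits (g β)
        · obtain ⟨β, hβ, h3, h4⟩ := hcon z h1 h2
          refine mem_iUnion.2 ⟨Sum.inr (Sum.inr ⟨β, hβ⟩), ?_⟩
          simp only [f, Sum.elim_inr]
          rw [if_pos h3]
          exact h4
        · push Not at h2
          obtain ⟨β, hβ, h3⟩ := h2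
          exact mem_iUnion.2 ⟨Sum.inr (Sum.inl ⟨β, hβ⟩), h3⟩
      · push Not at h1
        obtain ⟨m, hm⟩ := h1
        exact mem_iUnion.2 ⟨Sum.inl m, hm⟩
    obtain ⟨i, hi⟩ := nonempty_interior_of_iUnion_of_closed hfc hfU
    obtain ⟨m, hm⟩ := exists_bits_mem isOpen_interior hi
    have hm' := interior_subset hm
    rcases i with m' | β | β
    · have h1 : interior ({bits m'} : Set (ℕ → Bool)) = {bits m'} :=
        (subset_singleton_iff_eq.1 interior_subset).resolve_left hi.ne_empty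
      exact not_isOpen_singleton _ (h1 ▸ isOpen_interior)
    · obtain ⟨j, -, hj⟩ := hm' m
      exact hj rfl
    · simp only [f, Sum.elim_inr] at hm'
      split_ifs at hm' with h1
      · exact h1 m (mem_singleton_iff.1 hm').symm
      · exact hm'
  let z : Λ → ℕ → Bool := WellFoundedLT.fix (fun α prev => (hstep α prev).choose)
  have hz : ∀ α, (∀ m, z α ≠ bits m) ∧ (∀ β < α, z α ∉ sepSet bits (g β)) ∧
      ∀ β < α, (∀ m, z β ≠ bits m) → z α ≠ z β := by
    intro α
    have h1 : z α = (hstep α (fun β _ => z β)).choose := by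
      simp only [z]
      rw [WellFoundedLT.fix_eq]
    have h2 := (hstep α (fun β _ => z β)).choose_spec
    rw [← h1] at h2
    exact h2
  have hzne : ∀ α β, α ≠ β → z α ≠ z β := by
    intro α β hne
    rcases lt_or_gt_of_ne hne with h | h
    · exact ((hz β).2.2 α h (hz α).1).symm
    · exact (hz α).2.2 β h (hz β).1
  refine ⟨Λ, hΛ, ?_⟩
  let ι : Type := ℕ ⊕ (Λ × Λ)
  have hι : #ι ≤ #Λ := by
    have h0 : ℵ₀ ≤ #Λ := aleph0_le_mk Λ
    have : #ι = ℵ₀ + #Λ * #Λ := by
      simp only [ι]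
      rw [mk_sum, mk_prod, mk_nat]; simp only [lift_id]
    rw [this, mul_eq_self h0]
    exact (add_eq_right h0 h0).le
  refine exists_nodeData (ι := ι) hι g g_dom enum ?_ (fun α => {z α})
    (Sum.elim (fun m => {bits m}) (fun p => sepSet bits (g p.1) ∩
      sepSet (fun n => z (enum p.1 n)) (g p.2))) (fun _ => isClosed_singleton) ?_
    (fun α => singleton_nonempty _) ?_ ?_ ?_
  · intro q
    obtain ⟨i, hi⟩ := hΩ q
    refine ⟨i, fun n => ?_⟩
    have : q n ∈ Iic i := (hi n).le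
    rw [henum i] at this
    exact this
  · rintro (m | p)
    · exact isClosed_singleton
    · exact (isClosed_sepSet _ _).inter (isClosed_sepSet _ _)
  · intro i j hij
    exact disjoint_singleton.2 (hzne i j hij)
  · rintro i (m | p)
    · exact disjoint_singleton.2 ((hz i).1 m)
    · refine disjoint_singleton_left.2 ?_
      rintro ⟨h1, h2⟩
      have hle : i ≤ p.1 := by
        by_contra hlt
        exact (hz i).2.1 p.1 (not_le.1 hlt) h1
      have h3 : i ∈ Iic p.1 := hle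
      rw [henum p.1] at h3
      obtain ⟨n, hn⟩ := h3
      obtain ⟨j, -, hj⟩ := h2 n
      have hj' : z i j ≠ z (enum p.1 n) j := hj
      rw [hn] at hj'
      exact hj' rfl
  · intro y
    by_cases h1 : ∀ m, y ≠ bits m
    · by_cases h2 : ∃ α, y = z α
      · exact Or.inl h2
      · push Not at h2
        obtain ⟨β, hβ⟩ := mem_sepSet_of_ne h1 g_dom
        obtain ⟨i, hi⟩ := mem_sepSet_of_ne (z := fun n => z (enum β n))
          (fun n => h2 _) g_dom
        exact Or.inr ⟨Sum.inr (β, i), hβ, hi⟩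
    · push Not at h1
      obtain ⟨m, hm⟩ := h1
      exact Or.inr ⟨Sum.inl m, hm⟩

end Pool.Agent.helper751_mad
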