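import Mathlib

set_option autoImplicit false
open MeasureTheory Set ProbabilityTheory

namespace Pool.Agent.helper751_mad

/-- If `h` and `f` are conditionally independent over `s` (in the form of `hK`), and every event
in the sigma-algebra of `(s, f)` of positive measure meets `((s, h), f) ∈ E` in positive measure,
where `E` has null sections, then the joint law of `(s, f)` is singular to the product of the law
of `s` and `ρ`. -/
theorem mutuallySingular_of_kernel {Z S Y : Type} [MeasurableSpace Z] {P : Measure Z}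
    [IsProbabilityMeasure P] [MeasurableSpace S] [MeasurableSpace Y] {s : Z → S} {f : Z → Y}
    {h : Z → ℝ} (hs : Measurable s) (hf : Measurable f) (hh : Measurable h)
    (ρ : Measure Y) [IsProbabilityMeasure ρ] {E : Set ((S × ℝ) × Y)} (hE : MeasurableSet E)
    (hE1 : ∀ A : Set (S × Y), MeasurableSet A → P {ω | (s ω, f ω) ∈ A} ≠ 0 →
      P {ω | (s ω, f ω) ∈ A ∧ ((s ω, h ω), f ω) ∈ E} ≠ 0)
    (hE2 : ∀ t z, ρ {y | ((t, z), y) ∈ E} = 0)
    (hK : ∀ (a b : ℚ) (A : Set (S × Y)), MeasurableSet A →
      P ((fun x => (s x, f x)) ⁻¹' A ∩ h ⁻¹' (Ioo (a : ℝ) b)) =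
        ∫⁻ x in (fun x => (s x, f x)) ⁻¹' A, condDistrib h s P (s x) (Ioo (a : ℝ) b) ∂P) :
    (P.map (fun x => (s x, f x))) ⟂ₘ ((P.map s).prod ρ) := by
  classical
  have hsf : Measurable (fun x => (s x, f x)) := hs.prodMk hf
  have hsh : Measurable (fun x => (s x, h x)) := hs.prodMk hh
  have hsfh : Measurable (fun x => ((s x, f x), h x)) := hsf.prodMk hh
  have : IsProbabilityMeasure (P.map s) := Measure.isProbabilityMeasure_map hs.aemeasurable
  have : IsProbabilityMeasure (P.map (fun x => (s x, f x))) :=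
    Measure.isProbabilityMeasure_map hsf.aemeasurable
  set K := condDistrib h s P with hKdef
  have key : P.map (fun x => ((s x, f x), h x)) =
      (P.map (fun x => (s x, f x))) ⊗ₘ (K.comap Prod.fst measurable_fst) := by
    have hAB : ∀ A : Set (S × Y), MeasurableSet A → ∀ B : Set ℝ, MeasurableSet B →
        P ((fun x => (s x, f x)) ⁻¹' A ∩ h ⁻¹' B) =
        ∫⁻ x in (fun x => (s x, f x)) ⁻¹' A, K (s x) B ∂P := by
      intro A hA B hB
      let ν1 : Measure ℝ := (P.restrict ((fun x => (s x, f x)) ⁻¹' A)).map h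
      let ν2 : Measure ℝ := (P.restrict ((fun x => (s x, f x)) ⁻¹' A)).bind
        (fun x => K (s x))
      have hm : Measurable (fun x => K (s x)) := K.measurable.comp hs
      have h1 : ∀ B : Set ℝ, MeasurableSet B →
          ν1 B = P ((fun x => (s x, f x)) ⁻¹' A ∩ h ⁻¹' B) := by
        intro B hB
        simp only [ν1]
        rw [Measure.map_apply hh hB, Measure.restrict_apply (hh hB), inter_comm]
      have h2 : ∀ B : Set ℝ, MeasurableSet B →
          ν2 B = ∫⁻ x in (fun x => (s x, f x)) ⁻¹' A, K (s x) B ∂P := by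
        intro B hB
        exact Measure.bind_apply hB hm.aemeasurable
      have : IsFiniteMeasure ν1 := by
        refine ⟨?_⟩
        rw [h1 _ MeasurableSet.univ]
        exact measure_lt_top _ _
      have h3 : ν1 = ν2 := by
        refine Real.measure_ext_Ioo_rat fun a b => ?_
        rw [h1 _ measurableSet_Ioo, h2 _ measurableSet_Ioo]
        exact hK a b A hA
      rw [← h1 B hB, ← h2 B hB, h3]
    refine Measure.ext_prod fun {A} {B} hA hB => ?_
    rw [Measure.map_apply hsfh (hA.prod hB), Measure.compProd_apply_prod hA hB]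
    have h4 : (fun x => ((s x, f x), h x)) ⁻¹' (A ×ˢ B) =
        (fun x => (s x, f x)) ⁻¹' A ∩ h ⁻¹' B := by
      ext x; simp
    rw [h4, hAB A hA B hB]
    rw [setLIntegral_map hA (Kernel.measurable_coe _ hB) hsf]
    rfl
  let R : Set ((S × Y) × ℝ) := {q | ((q.1.1, q.2), q.1.2) ∈ E}
  have hRmap : Measurable (fun q : (S × Y) × ℝ => ((q.1.1, q.2), q.1.2)) :=
    ((measurable_fst.comp measurable_fst).prodMk measurable_snd).prodMk
      (measurable_snd.comp measurable_fst)
  have hR : MeasurableSet R := hRmap hE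
  set K' : Kernel (S × Y) ℝ := K.comap Prod.fst measurable_fst with hK'
  let D : Set (S × Y) := {p | K' p (Prod.mk p ⁻¹' R) = 0}
  have hDm : MeasurableSet D :=
    (Kernel.measurable_kernel_prodMk_left hR) (measurableSet_singleton 0)
  refine ⟨D, hDm, ?_, ?_⟩
  · by_contra hne
    rw [Measure.map_apply hsf hDm] at hne
    refine hE1 D hDm hne ?_
    have hDR : MeasurableSet ((Prod.fst ⁻¹' D) ∩ R) := (measurable_fst hDm).inter hR
    have h5 : ((P.map (fun x => (s x, f x))) ⊗ₘ K') ((Prod.fst ⁻¹' D) ∩ R) = 0 := by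
      rw [Measure.compProd_apply hDR, lintegral_eq_zero_iff
        (Kernel.measurable_kernel_prodMk_left hDR)]
      refine Filter.Eventually.of_forall fun p => ?_
      simp only [Pi.zero_apply]
      by_cases hp : p ∈ D
      · exact measure_mono_null (preimage_mono inter_subset_right) hp
      · have : Prod.mk p ⁻¹' ((Prod.fst ⁻¹' D) ∩ R) = ∅ := by
          ext z
          simp only [mem_preimage, mem_inter_iff, mem_empty_iff_false, iff_false, not_and]
          exact fun h _ => hp h
        rw [this, measure_empty]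
    rw [← key, Measure.map_apply hsfh hDR] at h5
    exact h5
  · rw [Measure.measure_prod_null hDm.compl]
    refine Filter.Eventually.of_forall fun t => ?_
    simp only [Pi.zero_apply]
    let Et : Set (ℝ × Y) := {q | ((t, q.1), q.2) ∈ E}
    have hEtm : MeasurableSet Et :=
      ((measurable_const.prodMk measurable_fst).prodMk measurable_snd) hE
    have h7 : ((K t).prod ρ) Et = 0 := by
      rw [Measure.measure_prod_null hEtm]
      exact Filter.Eventually.of_forall fun z => hE2 t z
    have h8 : ∀ᵐ y ∂ρ, K t ((fun z => (z, y)) ⁻¹' Et) = 0 := by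
      rw [Measure.prod_apply_symm hEtm, lintegral_eq_zero_iff
        (measurable_measure_prodMk_right hEtm)] at h7
      exact h7
    refine measure_mono_null ?_ (ae_iff.1 h8)
    intro y hy
    simp only [D, mem_preimage, mem_compl_iff, mem_ofPred_eq] at hy ⊢
    exact hy

/-- Let `(m j)` be a countably directed family of sigma-algebras. The conditional probabilities of
the events `h ⁻¹' (a, b)` over the union of the family have versions which are measurable over a
single `m j`. -/
theorem exists_stable_directed {X J : Type} [mX : MeasurableSpace X] {μ : Measure X}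
    [IsProbabilityMeasure μ] [Preorder J] [Nonempty J]
    (hJ : ∀ q : ℕ → J, ∃ i, ∀ n, q n ≤ i)
    (m : J → MeasurableSpace X) (hm : Monotone m) (hle : ∀ i, m i ≤ mX)
    {h : X → ℝ} (hh : Measurable h) :
    ∃ i₀ : J, ∀ a b : ℚ, ∃ G : X → ℝ, Measurable[m i₀] G ∧ Integrable G μ ∧
      ∀ (i : J) (A : Set X), MeasurableSet[m i] A →
        ∫ x in A, G x ∂μ = μ.real (A ∩ h ⁻¹' (Ioo (a : ℝ) b)) := by
  classical
  let mU : MeasurableSpace X :=
    { MeasurableSet' := fun A => ∃ i, MeasurableSet[m i] A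
      measurableSet_empty :=
        ⟨Classical.arbitrary J, @MeasurableSet.empty _ (m (Classical.arbitrary J))⟩
      measurableSet_compl := fun A ⟨i, hi⟩ => ⟨i, hi.compl⟩
      measurableSet_iUnion := fun f hf => by
        choose q hq using hf
        obtain ⟨i, hi⟩ := hJ q
        exact ⟨i, @MeasurableSet.iUnion _ _ (m i) _ _ fun n => hm (hi n) _ (hq n)⟩ }
  have hmU : mU ≤ mX := by
    rintro A ⟨i, hi⟩
    exact hle i A hi
  let G : ℚ × ℚ → X → ℝ := fun p => μ⟦h ⁻¹' (Ioo (p.1 : ℝ) p.2) | mU⟧
  have hGm : ∀ p, Measurable[mU] (G p) := fun p => stronglyMeasurable_condExp.measurable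
  have hq : ∀ t : (ℚ × ℚ) × ℚ, ∃ i, MeasurableSet[m i] ((G t.1) ⁻¹' (Ioi (t.2 : ℝ))) := by
    intro t
    exact hGm t.1 measurableSet_Ioi
  choose q hq using hq
  obtain ⟨i₀, hi₀⟩ := hJ (fun n => q ((Denumerable.eqv ((ℚ × ℚ) × ℚ)).symm n))
  have hqi : ∀ t, q t ≤ i₀ := by
    intro t
    have := hi₀ (Denumerable.eqv ((ℚ × ℚ) × ℚ) t)
    simpa using this
  refine ⟨i₀, fun a b => ⟨G (a, b), ?_, integrable_condExp, ?_⟩⟩
  · have hB : (Real.measurableSpace) = MeasurableSpace.generateFrom (⋃ a : ℚ, {Ioi (a : ℝ)}) := by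
      rw [← Real.borel_eq_generateFrom_Ioi_rat]
      exact BorelSpace.measurable_eq
    rw [hB]
    refine @measurable_generateFrom _ _ (m i₀) _ _ ?_
    intro t ht
    obtain ⟨c, hc⟩ := mem_iUnion.1 ht
    rw [mem_singleton_iff] at hc
    subst hc
    exact hm (hqi ((a, b), c)) _ (hq ((a, b), c))
  · intro i A hA
    have hAU : MeasurableSet[mU] A := ⟨i, hA⟩
    have hI : @MeasurableSet X mX (h ⁻¹' (Ioo (a : ℝ) b)) := hh measurableSet_Ioo
    simp only [G]
    rw [setIntegral_condExp hmU ((integrable_const _).indicator hI) hAU,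
      integral_indicator_const _ hI, measureReal_restrict_apply hI, smul_eq_mul, mul_one,
      inter_comm]

/-- Stable conditional probabilities give the hypothesis `hK` above. -/
theorem kernel_of_stable {Z S Y : Type} [MeasurableSpace Z] {P : Measure Z}
    [IsProbabilityMeasure P] [MeasurableSpace S] [MeasurableSpace Y] {s : Z → S} {f : Z → Y}
    {h : Z → ℝ} (hs : Measurable s) (hh : Measurable h)
    (hG : ∀ a b : ℚ, ∃ G : Z → ℝ, Measurable[MeasurableSpace.comap s inferInstance] G ∧
      Integrable G P ∧ ∀ A : Set (S × Y), MeasurableSet A →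
        ∫ x in (fun x => (s x, f x)) ⁻¹' A, G x ∂P =
          P.real ((fun x => (s x, f x)) ⁻¹' A ∩ h ⁻¹' (Ioo (a : ℝ) b))) :
    ∀ (a b : ℚ) (A : Set (S × Y)), MeasurableSet A →
      P ((fun x => (s x, f x)) ⁻¹' A ∩ h ⁻¹' (Ioo (a : ℝ) b)) =
        ∫⁻ x in (fun x => (s x, f x)) ⁻¹' A, condDistrib h s P (s x) (Ioo (a : ℝ) b) ∂P := by
  intro a b A hA
  obtain ⟨G, hG1, hG2, hG3⟩ := hG a b
  have hIoo : MeasurableSet (Ioo (a : ℝ) b) := measurableSet_Ioo
  have hae : (fun x => (condDistrib h s P (s x)).real (Ioo (a : ℝ) b)) =ᵐ[P] G := by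
    refine (condDistrib_ae_eq_condExp hs hh hIoo).trans ?_
    refine (ae_eq_condExp_of_forall_setIntegral_eq hs.comap_le ?_ ?_ ?_ ?_).symm
    · exact (integrable_const _).indicator (hh hIoo)
    · exact fun t _ _ => hG2.integrableOn
    · rintro t ⟨B, hB, rfl⟩ _
      have h1 : s ⁻¹' B = (fun x => (s x, f x)) ⁻¹' (Prod.fst ⁻¹' B) := rfl
      rw [h1, hG3 _ (measurable_fst hB), integral_indicator_const _ (hh hIoo),
        measureReal_restrict_apply (hh hIoo), smul_eq_mul, mul_one, inter_comm]
    · exact hG1.stronglyMeasurable.aestronglyMeasurable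
  have h1 : ∫ x in (fun x => (s x, f x)) ⁻¹' A,
      (condDistrib h s P (s x)).real (Ioo (a : ℝ) b) ∂P =
      P.real ((fun x => (s x, f x)) ⁻¹' A ∩ h ⁻¹' (Ioo (a : ℝ) b)) := by
    rw [← hG3 A hA]
    exact integral_congr_ae (ae_restrict_of_ae hae)
  have hmeas : Measurable (fun x => condDistrib h s P (s x) (Ioo (a : ℝ) b)) :=
    (Kernel.measurable_coe _ hIoo).comp hs
  simp_rw [measureReal_def] at h1
  rw [integral_toReal hmeas.aemeasurable (Filter.Eventually.of_forall fun ω =>
    measure_lt_top _ _)] at h1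
  refine ((ENNReal.toReal_eq_toReal_iff' ?_ ?_).1 h1).symm
  · refine ne_top_of_le_ne_top (measure_ne_top P Set.univ) ?_
    calc ∫⁻ x in (fun x => (s x, f x)) ⁻¹' A, condDistrib h s P (s x) (Ioo (a : ℝ) b) ∂P
        ≤ ∫⁻ x in (fun x => (s x, f x)) ⁻¹' A, 1 ∂P := lintegral_mono fun x => prob_le_one
      _ = P ((fun x => (s x, f x)) ⁻¹' A) := by simp
      _ ≤ P Set.univ := measure_mono (subset_univ _)
  · exact measure_ne_top _ _

end Pool.Agent.helper751_mad
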