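import Mathlib
import Pool.Agent.helper751_mad.Wit

set_option autoImplicit false
open MeasureTheory Set Cardinal Filter Topology

namespace Pool.Agent.helper751_mad

variable {Λ : Type}

/-- A finite union of witnesses catches nearly all of the hits of a set `Q`. -/
theorem IsWit.exists_finset {𝒜 : Set (Set ℕ)} {D : Λ → Set ℕ} (hD : IsWit 𝒜 D)
    (ν : Measure (Set ℕ)) [IsFiniteMeasure ν] (h0 : ∀ a ∈ 𝒜, ν (hit a) = 0) (Q : Set ℕ)
    {c : ENNReal} (hc : c < ν (hit Q)) :
    ∃ F : Finset Λ, c < ν (hit (Q ∩ ⋃ i ∈ F, D i)) := by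
  classical
  let V : Λ → Set (Set ℕ) := fun i => hit (Q ∩ D i)
  obtain ⟨F, hF, hFV⟩ := exists_countable_exhaust ν V (fun i => measurableSet_hit' _)
  have hUm : MeasurableSet (⋃ j ∈ F, V j) := MeasurableSet.biUnion hF fun j _ => measurableSet_hit' _
  have hm : Measurable (fun s : Set ℕ => s ∩ Q) := by
    rw [measurable_set_iff]
    intro k
    exact (measurable_set_mem k).and measurable_const
  have hae : ν (hit Q \ ⋃ j ∈ F, V j) = 0 := by
    by_contra hne
    let ν' : Measure (Set ℕ) := (ν.restrict (hit Q \ ⋃ j ∈ F, V j)).map (fun s => s ∩ Q)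
    have hν' : IsFiniteMeasure ν' := inferInstance
    have hap : ∀ E : Set (Set ℕ), MeasurableSet E →
        ν' E = ν ({s | s ∩ Q ∈ E} ∩ (hit Q \ ⋃ j ∈ F, V j)) := by
      intro E hE
      simp only [ν']
      rw [Measure.map_apply hm hE, Measure.restrict_apply (hm hE)]
      rfl
    have h1 : ∀ a ∈ 𝒜, ν' (hit a) = 0 := by
      intro a ha
      rw [hap _ (measurableSet_hit' _)]
      refine measure_mono_null ?_ (h0 a ha)
      rintro s ⟨hs, -⟩
      exact Set.Infinite.mono (inter_subset_inter_left _ inter_subset_left) hs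
    have h2 : ν' {s | s.Infinite} ≠ 0 := by
      rw [hap _ measurableSet_infinite]
      intro h3
      refine hne (measure_mono_null ?_ h3)
      intro s hs
      exact ⟨hs.1, hs⟩
    obtain ⟨i, hi⟩ := hD.law ν' hν' h1 h2
    refine hi ?_
    rw [hap _ (measurableSet_hit' _)]
    refine measure_mono_null ?_ (hFV i)
    rintro s ⟨hs, hs2⟩
    refine ⟨?_, hs2.2⟩
    have h3 : ((s ∩ Q) ∩ D i).Infinite := hs
    change (s ∩ (Q ∩ D i)).Infinite
    rwa [← inter_assoc]
  have hlt : c < ν (⋃ j ∈ F, V j) := by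
    refine hc.trans_le ?_
    have h1 : hit Q ⊆ (⋃ j ∈ F, V j) ∪ (hit Q \ ⋃ j ∈ F, V j) := by
      intro s hs
      by_cases h : s ∈ ⋃ j ∈ F, V j
      · exact Or.inl h
      · exact Or.inr ⟨hs, h⟩
    calc ν (hit Q) ≤ ν ((⋃ j ∈ F, V j) ∪ (hit Q \ ⋃ j ∈ F, V j)) := measure_mono h1
      _ ≤ ν (⋃ j ∈ F, V j) + ν (hit Q \ ⋃ j ∈ F, V j) := measure_union_le _ _
      _ = ν (⋃ j ∈ F, V j) := by rw [hae, add_zero]
  have hFne : F.Nonempty := by
    by_contra hem
    rw [not_nonempty_iff_eq_empty] at hem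
    rw [hem] at hlt
    simp at hlt
  obtain ⟨q, hq⟩ := hF.exists_eq_range hFne
  have h2 : (⋃ j ∈ F, V j) = ⋃ n, V (q n) := by
    rw [hq, biUnion_range]
  rw [h2] at hlt
  have h3 := tendsto_measure_iUnion_accumulate (μ := ν) (f := fun n => V (q n))
  obtain ⟨n, hn⟩ := (h3.eventually (lt_mem_nhds hlt)).exists
  refine ⟨(Finset.range (n + 1)).image q, hn.trans_le (measure_mono ?_)⟩
  intro s hs
  obtain ⟨k, hk, hsk⟩ := mem_iUnion₂.1 hs
  refine hit_mono (inter_subset_inter_right _ ?_) hsk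
  refine subset_biUnion_of_mem (u := fun i => D i) ?_
  simp only [Finset.coe_image, Finset.coe_range, mem_image, mem_Iio]
  exact ⟨k, Nat.lt_succ_of_le hk, rfl⟩

/-- Countable limit step. -/
theorem IsWit.lim [Nonempty Λ] (N : NodeData Λ) {𝒜s : ℕ → Set (Set ℕ)} {Ds : ℕ → Λ → Set ℕ}
    (h : ∀ k, IsWit (𝒜s k) (Ds k)) : IsWit (⋃ k, 𝒜s k) (N.Lim Ds) := by
  classical
  have hanti : ∀ a α, Antitone
      (fun n => {m | ∀ k < n, ∃ l < N.g a k, m ∈ Ds k (N.cnt α l)}) := by
    intro a α n n' hn m hm k hk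
    exact hm k (hk.trans_le hn)
  constructor
  · intro i a ha
    obtain ⟨k, hk⟩ := mem_iUnion.1 ha
    have h1 := diag_sdiff_finite (hanti (N.trip i).2.1 (N.trip i).1)
      (N.r_tendsto (N.trip i).2.2) (k + 1)
    have h2 : (⋃ l ∈ Iio (N.g (N.trip i).2.1 k), (Ds k (N.cnt (N.trip i).1 l) ∩ a)).Finite :=
      (Set.finite_Iio _).biUnion fun l _ => (h k).fin _ a hk
    refine (h1.union h2).subset ?_
    rintro m ⟨hm1, hm2⟩
    by_cases hc : m ∈ {m | ∀ k' < k + 1, ∃ l < N.g (N.trip i).2.1 k',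
        m ∈ Ds k' (N.cnt (N.trip i).1 l)}
    · obtain ⟨l, hl1, hl2⟩ := hc k (Nat.lt_succ_self k)
      exact Or.inr (mem_iUnion₂.2 ⟨l, hl1, hl2, hm2⟩)
    · exact Or.inl ⟨hm1, hc⟩
  · intro ν hν h0 hinf
    let c : ENNReal := ν {s | s.Infinite} / 2
    have hc0 : c ≠ 0 := by
      simp only [c]
      rw [Ne, ENNReal.div_eq_zero_iff]
      push Not
      exact ⟨hinf, by simp⟩
    have hc1 : c < ν (hit Set.univ) := by
      have : hit Set.univ = {s : Set ℕ | s.Infinite} := by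
        ext s; simp [hit]
      rw [this]
      exact ENNReal.half_lt_self hinf (measure_ne_top _ _)
    have hstep : ∀ (k : ℕ) (Q : Set ℕ), c < ν (hit Q) →
        ∃ F : Finset Λ, c < ν (hit (Q ∩ ⋃ i ∈ F, Ds k i)) := fun k Q hQ =>
      (h k).exists_finset ν (fun a ha => h0 a (mem_iUnion.2 ⟨k, ha⟩)) Q hQ
    choose! G hG using hstep
    obtain ⟨Q, hQ0, hQs⟩ : ∃ Q : ℕ → Set ℕ, Q 0 = Set.univ ∧
        ∀ k, Q (k + 1) = Q k ∩ ⋃ i ∈ G k (Q k), Ds k i :=
      ⟨fun n => Nat.rec Set.univ (fun k Q => Q ∩ ⋃ i ∈ G k Q, Ds k i) n, rfl, fun k => rfl⟩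
    have hQc : ∀ k, c < ν (hit (Q k)) := by
      intro k
      induction k with
      | zero => rw [hQ0]; exact hc1
      | succ k ih => rw [hQs]; exact hG k _ ih
    have hQmem : ∀ n m, m ∈ Q n → ∀ k < n, ∃ i ∈ G k (Q k), m ∈ Ds k i := by
      intro n
      induction n with
      | zero => intro m _ k hk; exact absurd hk (Nat.not_lt_zero k)
      | succ n ih =>
        intro m hm k hk
        rw [hQs] at hm
        rcases Nat.lt_succ_iff_lt_or_eq.1 hk with h1 | rfl
        · exact ih m hm.1 k h1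
        · obtain ⟨i, hi, hmi⟩ := mem_iUnion₂.1 hm.2
          exact ⟨i, hi, hmi⟩
    have hQanti : Antitone Q := by
      refine antitone_nat_of_succ_le fun n => ?_
      rw [hQs]
      exact inter_subset_left
    let W : Set (Set ℕ) := ⋂ k, hit (Q k)
    have hWm : MeasurableSet W := MeasurableSet.iInter fun k => measurableSet_hit' _
    have hW : ν W ≠ 0 := by
      have h1 := tendsto_measure_iInter_atTop (μ := ν)
        (fun k => (measurableSet_hit' (Q k)).nullMeasurableSet)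
        (fun k k' hk => hit_mono (hQanti hk)) ⟨0, measure_ne_top _ _⟩
      have h2 : c ≤ ν W := ge_of_tendsto' h1 fun k => (hQc k).le
      intro h3
      rw [h3] at h2
      exact hc0 (le_antisymm h2 bot_le)
    -- the countable set of all indices
    let S : Set Λ := insert (Classical.arbitrary Λ) (⋃ k, (G k (Q k) : Set Λ))
    have hS : S.Countable := (countable_iUnion fun k => (G k (Q k)).countable_toSet).insert _
    obtain ⟨q, hq⟩ := hS.exists_eq_range ⟨_, mem_insert _ _⟩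
    obtain ⟨α, hα⟩ := N.cnt_cof q
    have hl : ∀ k, ∀ i ∈ G k (Q k), ∃ l, N.cnt α l = i := by
      intro k i hi
      have : i ∈ S := Or.inr (mem_iUnion.2 ⟨k, hi⟩)
      rw [hq] at this
      obtain ⟨n, hn⟩ := this
      obtain ⟨l, hl⟩ := hα n
      exact ⟨l, hl.trans hn⟩
    choose! l hl using hl
    obtain ⟨a, ha⟩ := N.g_dom (fun k => (G k (Q k)).sup (fun i => l k i + 1))
    have hQH : ∀ n, Q n ⊆ {m | ∀ k < n, ∃ l < N.g a k, m ∈ Ds k (N.cnt α l)} := by
      intro n m hm k hk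
      obtain ⟨i, hi, hmi⟩ := hQmem n m hm k hk
      refine ⟨l k i, ?_, ?_⟩
      · have h1 : l k i + 1 ≤ (G k (Q k)).sup (fun i => l k i + 1) :=
          Finset.le_sup (f := fun i => l k i + 1) hi
        have := h1.trans (ha k)
        omega
      · rw [hl k i hi]; exact hmi
    obtain ⟨r', hr', hr⟩ := exists_speed ν
      (fun n => {{m | ∀ k < n, ∃ l < N.g a k, m ∈ Ds k (N.cnt α l)}})
      (fun n => Set.finite_singleton _) hWm hW (by
        intro s hs n t ht
        rw [mem_singleton_iff] at ht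
        subst ht
        exact hit_mono (hQH n) (mem_iInter.1 hs n))
    obtain ⟨b, hb⟩ := N.r_small r' hr'
    obtain ⟨i, hi⟩ := N.trip_surj (α, a, b)
    refine ⟨i, ?_⟩
    unfold NodeData.Lim
    rw [hi]
    exact hr _ hb _ (hanti a α) (fun n => ⟨_, rfl, Subset.rfl⟩)

end Pool.Agent.helper751_mad
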