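import Mathlib
import Pool.Agent.helper751_mad.WitLim

set_option autoImplicit false
open MeasureTheory Set Cardinal Filter Topology

namespace Pool.Agent.helper751_mad

variable {Λ : Type}

/-- A sequence taking each value infinitely often. -/
def e0 : ℕ → ℕ := fun k => (Nat.unpair k).1

theorem e0_fiber_infinite (v : ℕ) : {k | e0 k = v}.Infinite := by
  refine Set.infinite_of_injective_forall_mem (f := fun n => Nat.pair v n) ?_ ?_
  · intro a b hab
    exact (Nat.pair_eq_pair.1 hab).2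
  · intro n
    simp [e0]

/-- The initial part of the family. -/
def NodeData.A0 (N : NodeData Λ) : Set (Set ℕ) := range (N.Cf (fun _ => univ) e0)

/-- The initial witnesses. -/
def NodeData.B0 (N : NodeData Λ) : Λ → Set ℕ := N.Plus (fun _ => univ) e0

theorem isWit_univ [Nonempty Λ] : IsWit (∅ : Set (Set ℕ)) (fun _ : Λ => (univ : Set ℕ)) := by
  constructor
  · intro i a ha
    exact absurd ha (notMem_empty a)
  · intro ν hν h0 hinf
    refine ⟨Classical.arbitrary Λ, fun h1 => hinf ?_⟩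
    refine measure_mono_null ?_ h1
    intro s (hs : s.Infinite)
    change (s ∩ (Set.univ : Set ℕ)).Infinite
    rwa [inter_univ]

theorem NodeData.isWit_base [Infinite Λ] (N : NodeData Λ) (hcov : #Λ < covNull) :
    IsWit N.A0 N.B0 := by
  have h1 := (isWit_univ (Λ := Λ)).plus N hcov e0
  rw [empty_union] at h1
  exact h1

theorem NodeData.exists_infinite_base (N : NodeData Λ) :
    ∃ l, ∀ i j, N.pair i = (j, l) → (N.Cf (fun _ => univ) e0 i).Infinite := by
  classical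
  let ν : Measure (Set ℕ) := Measure.dirac univ
  let W : Set (Set ℕ) := ⋂ v, hit {k | e0 k = v}
  have hWm : MeasurableSet W := MeasurableSet.iInter fun v => measurableSet_hit' _
  have hW : ν W ≠ 0 := by
    have h1 : (univ : Set ℕ) ∈ W := by
      refine mem_iInter.2 fun v => ?_
      change ((Set.univ : Set ℕ) ∩ {k | e0 k = v}).Infinite
      rw [univ_inter]
      exact e0_fiber_infinite v
    rw [Measure.dirac_apply' _ hWm, indicator_of_mem h1]
    simp
  obtain ⟨r', hr', hr⟩ := exists_speed ν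
    (fun n => (fun v => {k | e0 k = v}) '' (Iio (2 ^ n)))
    (fun n => (Set.finite_Iio _).image _) hWm hW (by
      rintro s hs n _ ⟨v, -, rfl⟩
      exact mem_iInter.1 hs v)
  obtain ⟨l, hl⟩ := N.r_small r' hr'
  refine ⟨l, fun i j hij => ?_⟩
  have h1 : ν (hit (N.Cf (fun _ => univ) e0 i)) ≠ 0 := by
    unfold NodeData.Cf
    rw [hij]
    refine hr _ hl _ (conv_anti _ _ _) fun n => ?_
    obtain ⟨z, hz⟩ := N.K_nonempty i
    refine ⟨_, ⟨Nat.ofBits (fun j : Fin n => z j), Nat.ofBits_lt_two_pow _, rfl⟩, ?_⟩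
    intro k hk
    have hk2 : e0 k = Nat.ofBits (fun j : Fin n => z j) := hk
    refine ⟨mem_univ _, z, hz, fun j hj => ?_⟩
    rw [hk2, Nat.testBit_ofBits_lt _ _ hj]
  by_contra hcon
  refine h1 ?_
  have h2 : (univ : Set ℕ) ∉ hit (N.Cf (fun _ => univ) e0 i) := by
    intro h3
    have h4 : ((Set.univ : Set ℕ) ∩ N.Cf (fun _ => univ) e0 i).Infinite := h3
    rw [univ_inter] at h4
    exact hcon h4
  rw [Measure.dirac_apply' _ (measurableSet_hit' _)]
  exact indicator_of_notMem h2 _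

section

variable {Ω : Type} [LinearOrder Ω] [WellFoundedLT Ω]

/-- One step of the recursion: the witnesses at level `γ` from the earlier ones. -/
def NodeData.stepf (N : NodeData Λ) {γ : Ω} (sr : ℕ → ℕ ⊕ Iio γ) (prev : Iio γ → Λ → Set ℕ)
    (e : Iio γ → ℕ → ℕ) : Λ → Set ℕ :=
  N.Lim (fun k => Sum.elim (fun _ => N.B0) (fun η => N.Plus (prev η) (e η)) (sr k))

/-- The witnesses at level `γ`, by recursion. -/
noncomputable def NodeData.Dl (N : NodeData Λ) (src : ∀ γ : Ω, ℕ → ℕ ⊕ Iio γ)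
    (E : Ω → ℕ → ℕ) : Ω → Λ → Set ℕ :=
  WellFoundedLT.fix (fun γ prev => N.stepf (src γ) (fun η => prev η.1 η.2) (fun η => E η.1))

theorem NodeData.Dl_eq (N : NodeData Λ) (src : ∀ γ : Ω, ℕ → ℕ ⊕ Iio γ)
    (E : Ω → ℕ → ℕ) (γ : Ω) :
    N.Dl src E γ = N.stepf (src γ) (fun η => N.Dl src E η.1) (fun η => E η.1) := by
  unfold NodeData.Dl
  rw [WellFoundedLT.fix_eq]

theorem NodeData.Dl_congr (N : NodeData Λ) (src : ∀ γ : Ω, ℕ → ℕ ⊕ Iio γ)
    {E E' : Ω → ℕ → ℕ} (γ : Ω) (h : ∀ η < γ, E η = E' η) :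
    N.Dl src E γ = N.Dl src E' γ := by
  induction γ using WellFoundedLT.induction with
  | ind γ ih =>
    have h1 : (fun η : Iio γ => N.Dl src E η.1) = fun η : Iio γ => N.Dl src E' η.1 := by
      funext η
      exact ih η.1 η.2 (fun η' hη' => h η' (hη'.trans η.2))
    have h2 : (fun η : Iio γ => E η.1) = fun η : Iio γ => E' η.1 := by
      funext η
      exact h η.1 η.2
    rw [N.Dl_eq src E, N.Dl_eq src E', h1, h2]

/-- The part of the family which is built before level `γ`. -/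
def NodeData.Al (N : NodeData Λ) (src : ∀ γ : Ω, ℕ → ℕ ⊕ Iio γ)
    (E : Ω → ℕ → ℕ) (γ : Ω) : Set (Set ℕ) :=
  N.A0 ∪ ⋃ η : Iio γ, range (N.Cf (N.Dl src E η.1) (E η.1))

theorem NodeData.isWit_level [Infinite Λ] (N : NodeData Λ) (hcov : #Λ < covNull)
    (src : ∀ γ : Ω, ℕ → ℕ ⊕ Iio γ) (hsrc : ∀ γ, Function.Surjective (src γ))
    (E : Ω → ℕ → ℕ) (γ : Ω) : IsWit (N.Al src E γ) (N.Dl src E γ) := by
  induction γ using WellFoundedLT.induction with
  | ind γ ih =>
    rw [N.Dl_eq src E]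
    have h1 : N.Al src E γ = ⋃ k, Sum.elim (fun _ => N.A0)
        (fun η : Iio γ => N.Al src E η.1 ∪ range (N.Cf (N.Dl src E η.1) (E η.1))) (src γ k) := by
      apply Subset.antisymm
      · rintro a (ha | ha)
        · obtain ⟨k, hk⟩ := hsrc γ (Sum.inl 0)
          refine mem_iUnion.2 ⟨k, ?_⟩
          rw [hk]
          exact ha
        · obtain ⟨η, hη⟩ := mem_iUnion.1 ha
          obtain ⟨k, hk⟩ := hsrc γ (Sum.inr η)
          refine mem_iUnion.2 ⟨k, ?_⟩
          rw [hk]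
          exact Or.inr hη
      · intro a ha
        obtain ⟨k, hk⟩ := mem_iUnion.1 ha
        rcases hs : src γ k with j | η
        · rw [hs] at hk
          exact Or.inl hk
        · rw [hs] at hk
          rcases hk with (hk | hk) | hk
          · exact Or.inl hk
          · obtain ⟨η', hη'⟩ := mem_iUnion.1 hk
            exact Or.inr (mem_iUnion.2 ⟨⟨η'.1, lt_trans η'.2 η.2⟩, hη'⟩)
          · exact Or.inr (mem_iUnion.2 ⟨η, hk⟩)
    rw [h1]
    unfold NodeData.stepf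
    refine IsWit.lim N fun k => ?_
    rcases src γ k with j | η
    · exact N.isWit_base hcov
    · exact (ih η.1 η.2).plus N hcov (E η.1)

/-- The whole family. -/
def NodeData.Fam (N : NodeData Λ) (src : ∀ γ : Ω, ℕ → ℕ ⊕ Iio γ) (E : Ω → ℕ → ℕ) :
    Set (Set ℕ) :=
  {a | a.Infinite ∧ a ∈ N.A0 ∪ ⋃ γ : Ω, range (N.Cf (N.Dl src E γ) (E γ))}

theorem NodeData.isAD_Fam [Infinite Λ] (N : NodeData Λ) (hcov : #Λ < covNull)
    (src : ∀ γ : Ω, ℕ → ℕ ⊕ Iio γ) (hsrc : ∀ γ, Function.Surjective (src γ))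
    (E : Ω → ℕ → ℕ) : IsAD (N.Fam src E) := by
  refine ⟨fun a ha => ha.1, ?_⟩
  have hbc : ∀ j γ i, (N.Cf (fun _ => univ) e0 j ∩ N.Cf (N.Dl src E γ) (E γ) i).Finite := by
    intro j γ i
    have h1 := (N.isWit_level hcov src hsrc E γ).fin (N.pair i).1 (N.Cf (fun _ => univ) e0 j)
      (Or.inl ⟨j, rfl⟩)
    rw [inter_comm]
    exact h1.subset (inter_subset_inter_left _ (N.Cf_subset _ _ _))
  have hlt : ∀ γ i η j, η < γ → (N.Cf (N.Dl src E γ) (E γ) i ∩
      N.Cf (N.Dl src E η) (E η) j).Finite := by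
    intro γ i η j hη
    have h1 := (N.isWit_level hcov src hsrc E γ).fin (N.pair i).1
      (N.Cf (N.Dl src E η) (E η) j) (Or.inr (mem_iUnion.2 ⟨⟨η, hη⟩, j, rfl⟩))
    exact h1.subset (inter_subset_inter_left _ (N.Cf_subset _ _ _))
  rintro a ⟨-, ha⟩ b ⟨-, hb⟩ hab
  rcases ha with ⟨j, rfl⟩ | ha
  · rcases hb with ⟨j', rfl⟩ | hb
    · have : j ≠ j' := fun h => hab (by rw [h])
      exact N.Cf_inter_finite _ _ this
    · obtain ⟨γ, i, rfl⟩ := mem_iUnion.1 hb
      exact hbc _ _ _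
  · obtain ⟨γ, i, rfl⟩ := mem_iUnion.1 ha
    rcases hb with ⟨j', rfl⟩ | hb
    · rw [inter_comm]
      exact hbc _ _ _
    · obtain ⟨η, j, rfl⟩ := mem_iUnion.1 hb
      rcases lt_trichotomy γ η with h | h | h
      · rw [inter_comm]
        exact hlt _ _ _ _ h
      · subst h
        have hij : i ≠ j := fun h => hab (by rw [h])
        exact N.Cf_inter_finite _ _ hij
      · exact hlt _ _ _ _ h

theorem NodeData.exists_injective_Fam (N : NodeData Λ) (src : ∀ γ : Ω, ℕ → ℕ ⊕ Iio γ)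
    (E : Ω → ℕ → ℕ) : ∃ f : Λ → Set ℕ, Function.Injective f ∧ ∀ j, f j ∈ N.Fam src E := by
  obtain ⟨l, hl⟩ := N.exists_infinite_base
  have h1 : ∀ j, ∃ i, N.pair i = (j, l) := fun j => N.pair_surj (j, l)
  choose i hi using h1
  refine ⟨fun j => N.Cf (fun _ => univ) e0 (i j), ?_, fun j => ⟨hl _ j (hi j), Or.inl ⟨i j, rfl⟩⟩⟩
  intro j j' hjj
  by_contra hne
  have hij : i j ≠ i j' := by
    intro h
    have h2 := (hi j).symm.trans ((congrArg N.pair h).trans (hi j'))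
    exact hne (congrArg Prod.fst h2)
  have h2 := N.Cf_inter_finite (fun _ => univ) e0 hij
  have hjj' : N.Cf (fun _ => univ) e0 (i j) = N.Cf (fun _ => univ) e0 (i j') := hjj
  rw [← hjj', inter_self] at h2
  exact hl _ j (hi j) h2

theorem NodeData.le_mk_Fam (N : NodeData Λ) (src : ∀ γ : Ω, ℕ → ℕ ⊕ Iio γ)
    (E : Ω → ℕ → ℕ) : #Λ ≤ #(N.Fam src E) := by
  obtain ⟨f, hf, hf'⟩ := N.exists_injective_Fam src E
  exact mk_le_of_injective (f := fun j => (⟨f j, hf' j⟩ : N.Fam src E))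
    (fun a b hab => hf (congrArg Subtype.val hab))

theorem NodeData.infinite_Fam [Infinite Λ] (N : NodeData Λ) (src : ∀ γ : Ω, ℕ → ℕ ⊕ Iio γ)
    (E : Ω → ℕ → ℕ) : (N.Fam src E).Infinite := by
  obtain ⟨f, hf, hf'⟩ := N.exists_injective_Fam src E
  exact Set.infinite_of_injective_forall_mem hf hf'

/-- If the family hits every law then it is maximal. -/
theorem NodeData.isMAD_Fam [Infinite Λ] (N : NodeData Λ) (hcov : #Λ < covNull)
    (src : ∀ γ : Ω, ℕ → ℕ ⊕ Iio γ) (hsrc : ∀ γ, Function.Surjective (src γ))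
    (E : Ω → ℕ → ℕ)
    (hhit : ∀ ν : Measure (Set ℕ), IsProbabilityMeasure ν → (∀ᵐ s ∂ν, s.Infinite) →
      ∃ a ∈ N.Fam src E, ν (hit a) ≠ 0) : IsMAD (N.Fam src E) := by
  refine ⟨N.infinite_Fam src E, N.isAD_Fam hcov src hsrc E, fun s hs => ?_⟩
  obtain ⟨a, ha, hne⟩ := hhit (Measure.dirac s) inferInstance (by
    have h1 : MeasurableSet {s : Set ℕ | ¬ s.Infinite} := measurableSet_infinite.compl
    rw [ae_iff, Measure.dirac_apply' _ h1]
    simp [hs])
  refine ⟨a, ha, ?_⟩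
  by_contra hcon
  refine hne ?_
  rw [Measure.dirac_apply' _ (measurableSet_hit' a)]
  exact indicator_of_notMem hcon _

theorem NodeData.mk_Fam_le [Infinite Λ] (N : NodeData Λ) (hΩ : #Ω ≤ #Λ)
    (src : ∀ γ : Ω, ℕ → ℕ ⊕ Iio γ) (E : Ω → ℕ → ℕ) : #(N.Fam src E) ≤ #Λ := by
  have h1 : N.Fam src E ⊆ N.A0 ∪
      range (fun p : Ω × Λ => N.Cf (N.Dl src E p.1) (E p.1) p.2) := by
    rintro a ⟨-, ha | ha⟩
    · exact Or.inl ha
    · obtain ⟨γ, i, rfl⟩ := mem_iUnion.1 ha
      exact Or.inr ⟨(γ, i), rfl⟩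
  have hinf : ℵ₀ ≤ #Λ := aleph0_le_mk Λ
  refine (mk_le_mk_of_subset h1).trans ((mk_union_le _ _).trans ?_)
  have h2 : #(N.A0) ≤ #Λ := mk_range_le
  have h3 : #(range (fun p : Ω × Λ => N.Cf (N.Dl src E p.1) (E p.1) p.2)) ≤ #Λ := by
    refine mk_range_le.trans ?_
    rw [mk_prod, lift_id, lift_id]
    exact (mul_le_mul_left hΩ _).trans (mul_eq_self hinf).le
  exact (add_le_add h2 h3).trans (add_eq_self hinf).le

end

end Pool.Agent.helper751_mad
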