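import Mathlib
import Pool.Agent.helper751_mad.Level

set_option autoImplicit false
open MeasureTheory Set Cardinal Filter Topology ProbabilityTheory

namespace Pool.Agent.helper751_mad

/-- The law of a sequence of independent identically distributed natural numbers, each value
having positive probability. -/
noncomputable def iidLaw : Measure (ℕ → ℕ) := Measure.infinitePi (fun _ : ℕ => poissonMeasure 1)

instance : IsProbabilityMeasure iidLaw := by unfold iidLaw; infer_instance

/-- Almost every sequence takes each value infinitely often on each infinite set. -/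
theorem iidLaw_fiber {D : Set ℕ} (hD : D.Infinite) (v : ℕ) :
    iidLaw {E | ¬ (D ∩ {k | E k = v}).Infinite} = 0 := by
  classical
  set q : ENNReal := poissonMeasure 1 ({v}ᶜ : Set ℕ) with hq
  have hq1 : q < 1 := by
    have h1 : (poissonMeasure 1) {v} ≠ 0 := by
      have := poissonMeasure_real_singleton_pos v (show (0 : NNReal) < 1 by norm_num)
      rw [measureReal_def] at this
      intro h0
      rw [h0] at this
      simp at this
    rw [hq, prob_compl_eq_one_sub (measurableSet_singleton v)]
    exact ENNReal.sub_lt_self (by simp) (by simp) h1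
  have hN : ∀ N : ℕ, iidLaw {E | ∀ k ∈ D, N ≤ k → E k ≠ v} = 0 := by
    intro N
    have hD' : (D ∩ Ici N).Infinite := by
      have h1 : (D \ Iio N).Infinite := hD.sdiff (Set.finite_Iio N)
      refine h1.mono ?_
      rintro k ⟨hk1, hk2⟩
      exact ⟨hk1, mem_Ici.2 (not_lt.1 fun h => hk2 h)⟩
    have hj : ∀ j : ℕ, iidLaw {E | ∀ k ∈ D, N ≤ k → E k ≠ v} ≤ q ^ j := by
      intro j
      obtain ⟨F, hF1, hF2⟩ := hD'.exists_subset_card_eq j
      calc iidLaw {E | ∀ k ∈ D, N ≤ k → E k ≠ v}
          ≤ iidLaw (Set.pi (F : Set ℕ) (fun _ => ({v}ᶜ : Set ℕ))) := by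
            refine measure_mono ?_
            intro E hE k hk
            have := hF1 hk
            exact hE k this.1 this.2
        _ = q ^ j := by
            unfold iidLaw
            rw [Measure.infinitePi_pi _ (fun i _ => (measurableSet_singleton v).compl),
              Finset.prod_const, hF2]
    refine le_antisymm ?_ bot_le
    exact ge_of_tendsto' (ENNReal.tendsto_pow_atTop_nhds_zero_of_lt_one hq1) hj
  refine measure_mono_null ?_ (measure_iUnion_null hN)
  intro E hE
  have hfin : (D ∩ {k | E k = v}).Finite := not_infinite.1 hE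
  obtain ⟨N, hN⟩ := hfin.bddAbove
  refine mem_iUnion.2 ⟨N + 1, fun k hk hNk hv => ?_⟩
  have := hN ⟨hk, hv⟩
  omega

end Pool.Agent.helper751_mad
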