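import Mathlib
import Pool.Agent.helper751_mad.Total
import Pool.Agent.helper751_mad.Level
import Pool.Agent.helper751_mad.Rand
import Pool.Agent.helper751_mad.NonSing2
import Pool.Agent.helper751_mad.Core2
import Pool.Agent.helper751_mad.CovLower

set_option autoImplicit false
open MeasureTheory Set Cardinal Filter Topology ProbabilityTheory

namespace Pool.Agent.helper751_mad

variable {X : Type} [MeasurableSpace X] {μ : Measure X} {Λ : Type}
variable {Ω : Type} [LinearOrder Ω] [WellFoundedLT Ω]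

/-- The history of the construction before level `γ`, seen through countably many witnesses. -/
noncomputable def NodeData.sig (N : NodeData Λ) (src : ∀ γ : Ω, ℕ → ℕ ⊕ Iio γ) (γ : Ω) (α : Λ)
    (F : Ω → ℕ → ℕ) : (Iio γ → ℕ → ℕ) × (Iic γ → ℕ → Set ℕ) :=
  (fun η => F η.1, fun η n => N.Dl src F η.1 (N.cnt α n))

theorem NodeData.sig_congr (N : NodeData Λ) (src : ∀ γ : Ω, ℕ → ℕ ⊕ Iio γ) (γ : Ω) (α : Λ)
    {F F' : Ω → ℕ → ℕ} (h : ∀ η < γ, F η = F' η) : N.sig src γ α F = N.sig src γ α F' := by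
  unfold NodeData.sig
  have h1 : (fun η : Iio γ => F η.1) = fun η : Iio γ => F' η.1 := funext fun η => h η.1 η.2
  have h2 : (fun (η : Iic γ) n => N.Dl src F η.1 (N.cnt α n)) =
      fun (η : Iic γ) n => N.Dl src F' η.1 (N.cnt α n) := by
    funext η n
    rw [N.Dl_congr src η.1 (fun η' hη' => h η' (lt_of_lt_of_le hη' η.2))]
  rw [h1, h2]

/-- The recursive choice of generic sequences. -/
theorem IsRVM.exists_generic (h : IsRVM X μ) (hc : #X ≤ 𝔠) (N : NodeData Λ) (hΛ : #Λ ≤ #X)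
    (src : ∀ γ : Ω, ℕ → ℕ ⊕ Iio γ) (hcnt : ∀ γ : Ω, (Iio γ).Countable) :
    ∃ F : X → Ω → ℕ → ℕ, ∀ (γ : Ω) (α : Λ),
      ¬ (μ.map (fun x => (N.sig src γ α (F x), F x γ))) ⟂ₘ
        ((μ.map (fun x => N.sig src γ α (F x))).prod iidLaw) := by
  classical
  obtain ⟨e, he⟩ := h.exists_map_eq hc iidLaw
  have hcI : ∀ γ : Ω, Countable (Iio γ) := fun γ => (hcnt γ).to_subtype
  have hcI' : ∀ γ : Ω, Countable (Iic γ) := by
    intro γ
    have : Iic γ = Iio γ ∪ {γ} := by
      ext y; simp [le_iff_lt_or_eq]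
    rw [this]
    exact ((hcnt γ).union (countable_singleton _)).to_subtype
  have hstep : ∀ (γ : Ω) (prev : X → Ω → ℕ → ℕ), ∃ f : X → ℕ → ℕ, ∀ α : Λ,
      ¬ (μ.map (fun x => (N.sig src γ α (prev x), f x))) ⟂ₘ
        ((μ.map (fun x => N.sig src γ α (prev x))).prod iidLaw) := by
    intro γ prev
    have := hcI γ
    have := hcI' γ
    have := standardBorel_setNat
    obtain ⟨f, -, hf⟩ := h.exists_nonsingular_family' e hΛ
      (fun (α : Λ) x => N.sig src γ α (prev x))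
    rw [he] at hf
    exact ⟨f, hf⟩
  let ff : Ω → X → ℕ → ℕ := WellFoundedLT.fix (fun γ prev =>
    (hstep γ (fun x η => if hη : η < γ then prev η hη x else 0)).choose)
  have hff : ∀ γ, ff γ = (hstep γ (fun x η => if η < γ then ff η x else 0)).choose := by
    intro γ
    have h1 : ff γ = (hstep γ (fun x η => if hη : η < γ then ff η x else 0)).choose := by
      simp only [ff]
      rw [WellFoundedLT.fix_eq]
    rw [h1]
  refine ⟨fun x γ => ff γ x, fun γ α => ?_⟩
  have h2 := (hstep γ (fun x η => if η < γ then ff η x else 0)).choose_spec α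
  rw [← hff γ] at h2
  have h3 : (fun x : X => N.sig src γ α (fun η => if η < γ then ff η x else 0)) =
      fun x => N.sig src γ α (fun γ => ff γ x) := by
    funext x
    refine N.sig_congr src γ α fun η hη => ?_
    rw [if_pos hη]
  have h4 : (fun x : X => (N.sig src γ α (fun η => if η < γ then ff η x else 0), ff γ x)) =
      fun x => (N.sig src γ α (fun γ => ff γ x), ff γ x) := by
    funext x
    exact congrArg (fun t => (t, ff γ x)) (congrFun h3 x)
  rw [h3, h4] at h2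
  exact h2

/-- The pairs (history with a random set, next sequence) for which the next sequence is not
generic over some witness of the list at level `γ`. -/
def badSet (γ : Ω) : Set ((((Iio γ → ℕ → ℕ) × (Iic γ → ℕ → Set ℕ)) × Set ℕ) × (ℕ → ℕ)) :=
  {p | ∃ n, p.1.2 ∈ hit (p.1.1.2 ⟨γ, le_refl γ⟩ n) ∧
    ∃ v, ¬ (p.1.2 ∩ {k | k ∈ p.1.1.2 ⟨γ, le_refl γ⟩ n ∧ p.2 k = v}).Infinite}

omit [WellFoundedLT Ω] in
theorem measurableSet_badSet (γ : Ω) : MeasurableSet (badSet γ) := by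
  have hD : ∀ n k, Measurable (fun p : (((Iio γ → ℕ → ℕ) × (Iic γ → ℕ → Set ℕ)) × Set ℕ) ×
      (ℕ → ℕ) => k ∈ p.1.1.2 ⟨γ, le_refl γ⟩ n) := by
    intro n k
    have h1 : Measurable (fun p : (((Iio γ → ℕ → ℕ) × (Iic γ → ℕ → Set ℕ)) × Set ℕ) ×
      (ℕ → ℕ) => p.1.1.2 ⟨γ, le_refl γ⟩ n) :=
      (measurable_pi_apply n).comp ((measurable_pi_apply (⟨γ, le_refl γ⟩ : Iic γ)).comp
        (measurable_snd.comp (measurable_fst.comp measurable_fst)))
    exact (measurable_set_mem k).comp h1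
  have hs : ∀ k, Measurable (fun p : (((Iio γ → ℕ → ℕ) × (Iic γ → ℕ → Set ℕ)) × Set ℕ) ×
      (ℕ → ℕ) => k ∈ p.1.2) := fun k =>
    (measurable_set_mem k).comp (measurable_snd.comp measurable_fst)
  have hv : ∀ k v, Measurable (fun p : (((Iio γ → ℕ → ℕ) × (Iic γ → ℕ → Set ℕ)) × Set ℕ) ×
      (ℕ → ℕ) => p.2 k = v) := by
    intro k v
    have h1 : Measurable (fun p : (((Iio γ → ℕ → ℕ) × (Iic γ → ℕ → Set ℕ)) × Set ℕ) ×
      (ℕ → ℕ) => p.2 k) := (measurable_pi_apply k).comp measurable_snd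
    exact measurableSet_setOfPred.1 (h1 (measurableSet_singleton v))
  have h1 : ∀ n, MeasurableSet {p : (((Iio γ → ℕ → ℕ) × (Iic γ → ℕ → Set ℕ)) × Set ℕ) ×
      (ℕ → ℕ) | (p.1.2 ∩ p.1.1.2 ⟨γ, le_refl γ⟩ n).Infinite} := by
    intro n
    have h2 : Measurable (fun p : (((Iio γ → ℕ → ℕ) × (Iic γ → ℕ → Set ℕ)) × Set ℕ) ×
      (ℕ → ℕ) => p.1.2 ∩ p.1.1.2 ⟨γ, le_refl γ⟩ n) := by
      rw [measurable_set_iff]
      exact fun k => (hs k).and (hD n k)
    exact h2 measurableSet_infinite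
  have h2 : ∀ n v, MeasurableSet {p : (((Iio γ → ℕ → ℕ) × (Iic γ → ℕ → Set ℕ)) × Set ℕ) ×
      (ℕ → ℕ) | (p.1.2 ∩ {k | k ∈ p.1.1.2 ⟨γ, le_refl γ⟩ n ∧ p.2 k = v}).Infinite} := by
    intro n v
    have h2 : Measurable (fun p : (((Iio γ → ℕ → ℕ) × (Iic γ → ℕ → Set ℕ)) × Set ℕ) ×
      (ℕ → ℕ) => p.1.2 ∩ {k | k ∈ p.1.1.2 ⟨γ, le_refl γ⟩ n ∧ p.2 k = v}) := by
      rw [measurable_set_iff]
      exact fun k => (hs k).and ((hD n k).and (hv k v))
    exact h2 measurableSet_infinite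
  have : badSet γ = ⋃ n, ({p | (p.1.2 ∩ p.1.1.2 ⟨γ, le_refl γ⟩ n).Infinite} ∩
      ⋃ v, {p | (p.1.2 ∩ {k | k ∈ p.1.1.2 ⟨γ, le_refl γ⟩ n ∧ p.2 k = v}).Infinite}ᶜ) := by
    ext p
    simp only [badSet, hit, mem_ofPred_eq, mem_iUnion, mem_inter_iff, mem_compl_iff]
  rw [this]
  exact MeasurableSet.iUnion fun n => (h1 n).inter (MeasurableSet.iUnion fun v => (h2 n v).compl)

omit [WellFoundedLT Ω] in
theorem badSet_null (γ : Ω) (t : (Iio γ → ℕ → ℕ) × (Iic γ → ℕ → Set ℕ)) (s : Set ℕ) :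
    iidLaw {y | ((t, s), y) ∈ badSet γ} = 0 := by
  have h1 : {y | ((t, s), y) ∈ badSet γ} ⊆ ⋃ n, ⋃ v,
      {y : ℕ → ℕ | (s ∩ t.2 ⟨γ, le_refl γ⟩ n).Infinite ∧
        ¬ ((s ∩ t.2 ⟨γ, le_refl γ⟩ n) ∩ {k | y k = v}).Infinite} := by
    rintro y ⟨n, hn, v, hv⟩
    refine mem_iUnion.2 ⟨n, mem_iUnion.2 ⟨v, hn, fun hinf => hv ?_⟩⟩
    refine hinf.mono ?_
    rintro k ⟨⟨hk1, hk2⟩, hk3⟩
    exact ⟨hk1, hk2, hk3⟩
  refine measure_mono_null h1 (measure_iUnion_null fun n => measure_iUnion_null fun v => ?_)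
  by_cases hn : (s ∩ t.2 ⟨γ, le_refl γ⟩ n).Infinite
  · exact measure_mono_null (fun y hy => hy.2) (iidLaw_fiber hn v)
  · have : {y : ℕ → ℕ | (s ∩ t.2 ⟨γ, le_refl γ⟩ n).Infinite ∧
        ¬ ((s ∩ t.2 ⟨γ, le_refl γ⟩ n) ∩ {k | y k = v}).Infinite} = ∅ := by
      ext y
      simp only [mem_ofPred_eq, mem_empty_iff_false, iff_false, not_and]
      exact fun h => absurd h hn
    rw [this, measure_empty]

/-- The main theorem: some member of the family of constructions hits every law. -/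
theorem IsRVM.exists_hits_all [Infinite Λ] (h : IsRVM X μ) (hc : #X ≤ 𝔠) (N : NodeData Λ)
    (hΛ : #Λ < #X) (src : ∀ γ : Ω, ℕ → ℕ ⊕ Iio γ) (hsrc : ∀ γ, Function.Surjective (src γ))
    (hcnt : ∀ γ : Ω, (Iio γ).Countable) [Nonempty Ω] (hΩ : ∀ q : ℕ → Ω, ∃ i, ∀ n, q n < i) :
    ∃ E : Ω → ℕ → ℕ, ∀ ν : Measure (Set ℕ), IsProbabilityMeasure ν → (∀ᵐ s ∂ν, s.Infinite) →
      ∃ a ∈ N.Fam src E, ν (hit a) ≠ 0 := by
  classical
  have hpr := h.prob
  have := standardBorel_setNat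
  have hcov : #Λ < covNull := hΛ.trans_le (h.le_covNull hc)
  obtain ⟨F, hF⟩ := h.exists_generic hc N hΛ.le src hcnt
  by_contra hcon
  push Not at hcon
  choose ν hν1 hν2 hν3 using fun x => hcon (F x)
  have hA0 : ∀ x, ∀ a ∈ N.A0 ∪ ⋃ γ : Ω, range (N.Cf (N.Dl src (F x) γ) (F x γ)),
      ν x (hit a) = 0 := by
    intro x a ha
    by_cases hinf : a.Infinite
    · exact hν3 x a ⟨hinf, ha⟩
    · have : hit a = ∅ := by
        ext s
        simp only [hit, mem_ofPred_eq, mem_empty_iff_false, iff_false]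
        exact fun hs => hinf (hs.mono inter_subset_right)
      rw [this, measure_empty]
  have hAl : ∀ x γ, ∀ a ∈ N.Al src (F x) γ, ν x (hit a) = 0 := by
    rintro x γ a (ha | ha)
    · exact hA0 x a (Or.inl ha)
    · obtain ⟨η, hη⟩ := mem_iUnion.1 ha
      exact hA0 x a (Or.inr (mem_iUnion.2 ⟨η.1, hη⟩))
  have hidx : ∀ x γ, ∃ i, ν x (hit (N.Dl src (F x) γ i)) ≠ 0 := by
    intro x γ
    have := hν1 x
    refine (N.isWit_level hcov src hsrc (F x) γ).law (ν x) inferInstance (hAl x γ) ?_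
    have h1 : ν x {s | s.Infinite} = 1 := by
      rw [← prob_compl_eq_zero_iff measurableSet_infinite]
      exact ae_iff.1 (hν2 x)
    rw [h1]
    exact one_ne_zero
  choose idx hidx using hidx
  have hbad : ∀ x γ, ν x {s | s ∈ hit (N.Dl src (F x) γ (idx x γ)) ∧ ∃ v,
      ¬ (s ∩ {k | k ∈ N.Dl src (F x) γ (idx x γ) ∧ F x γ k = v}).Infinite} ≠ 0 := by
    intro x γ h0
    have := hν1 x
    obtain ⟨i, hi⟩ := N.exists_hit (D := N.Dl src (F x) γ) (E := F x γ) (ν x) (hidx x γ) h0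
    exact hi (hA0 x _ (Or.inr (mem_iUnion.2 ⟨γ, i, rfl⟩)))
  -- the probability space
  let κ : Kernel X (Set ℕ) := { toFun := ν, measurable' := h.measurable _ }
  have hκ : ∀ x, κ x = ν x := fun x => rfl
  have hκm : IsMarkovKernel κ := ⟨fun x => hν1 x⟩
  let P : Measure (X × Set ℕ) := μ ⊗ₘ κ
  have hPfst : P.map Prod.fst = μ := Measure.fst_compProd μ κ
  -- the directed family of sigma-algebras
  let J : Type := Ω × {C : Set Λ // C.Countable}
  have hJne : Nonempty J := ⟨(Classical.arbitrary Ω, ⟨∅, countable_empty⟩)⟩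
  let T : ∀ j : J, (X × Set ℕ) → (Iio j.1 → ℕ → ℕ) × (Iio j.1 → j.2.1 → Set ℕ) :=
    fun j z => (fun η => F z.1 η.1, fun η i => N.Dl src (F z.1) η.1 i.1)
  let m : J → MeasurableSpace (X × Set ℕ) := fun j =>
    MeasurableSpace.comap (T j) inferInstance
  have hmono : Monotone m := by
    intro j j' hjj
    let φ : (Iio j'.1 → ℕ → ℕ) × (Iio j'.1 → j'.2.1 → Set ℕ) →
        (Iio j.1 → ℕ → ℕ) × (Iio j.1 → j.2.1 → Set ℕ) := fun p =>
      (fun η => p.1 ⟨η.1, lt_of_lt_of_le η.2 hjj.1⟩,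
        fun η i => p.2 ⟨η.1, lt_of_lt_of_le η.2 hjj.1⟩ ⟨i.1, hjj.2 i.2⟩)
    have hφ : Measurable φ := by
      refine Measurable.prodMk ?_ ?_
      · exact measurable_pi_lambda _ fun η => (measurable_pi_apply _).comp measurable_fst
      · refine measurable_pi_lambda _ fun η => measurable_pi_lambda _ fun i => ?_
        exact (measurable_pi_apply _).comp ((measurable_pi_apply _).comp measurable_snd)
    have h1 : T j = φ ∘ T j' := rfl
    simp only [m]
    rw [h1, ← MeasurableSpace.comap_comp]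
    exact MeasurableSpace.comap_mono hφ.comap_le
  have hTm : ∀ j, Measurable (T j) := fun j =>
    (h.measurable (fun x => ((fun η => F x η.1, fun η i => N.Dl src (F x) η.1 i.1) :
      (Iio j.1 → ℕ → ℕ) × (Iio j.1 → j.2.1 → Set ℕ)))).comp measurable_fst
  have hmle : ∀ j, m j ≤ (inferInstance : MeasurableSpace (X × Set ℕ)) := fun j =>
    (hTm j).comap_le
  have hJ : ∀ q : ℕ → J, ∃ i, ∀ n, q n ≤ i := by
    intro q
    obtain ⟨β, hβ⟩ := hΩ (fun n => (q n).1)
    refine ⟨(β, ⟨⋃ n, (q n).2.1, countable_iUnion fun n => (q n).2.2⟩), fun n => ?_⟩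
    exact ⟨(hβ n).le, subset_iUnion (fun n => (q n).2.1) n⟩
  have hemb := measurableEmbedding_embeddingReal (Set ℕ)
  let hh : X × Set ℕ → ℝ := fun z => embeddingReal (Set ℕ) z.2
  have hhm : Measurable hh := hemb.measurable.comp measurable_snd
  obtain ⟨⟨γ, C0⟩, hst⟩ := exists_stable_directed hJ m hmono hmle (μ := P) hhm
  -- countably many indices suffice at level `γ`
  let C1 : Set Λ := {i | μ {x | idx x γ = i} ≠ 0}
  have hC1 : C1.Countable := by
    have h1 := Measure.countable_meas_pos_of_disjoint_iUnion (μ := μ)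
      (As := fun i : Λ => {x | idx x γ = i}) (fun i => h.all _) (by
        intro i j hij
        rw [Function.onFun, Set.disjoint_left]
        intro x hx hx'
        exact hij (hx.symm.trans hx'))
    refine h1.mono ?_
    intro i hi
    exact pos_iff_ne_zero.2 hi
  have hC1' : μ {x | idx x γ ∉ C1} = 0 := by
    have h1 : {x | idx x γ ∉ C1} ⊆ ⋃ i : Λ, {x | idx x γ = i ∧ i ∉ C1} := by
      intro x hx
      exact mem_iUnion.2 ⟨idx x γ, rfl, hx⟩
    refine measure_mono_null h1 (h.null_iUnion hΛ _ fun i => ?_)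
    by_cases hi : i ∈ C1
    · have : {x | idx x γ = i ∧ i ∉ C1} = ∅ := by
        ext x
        simp only [mem_ofPred_eq, mem_empty_iff_false, iff_false, not_and, not_not]
        exact fun _ => hi
      rw [this, measure_empty]
    · have h2 : μ {x | idx x γ = i} = 0 := by
        by_contra hne
        exact hi hne
      exact measure_mono_null (fun x hx => hx.1) h2
  have hCc : (insert (Classical.arbitrary Λ) (C0.1 ∪ C1)).Countable :=
    (C0.2.union hC1).insert _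
  obtain ⟨q, hq⟩ := hCc.exists_eq_range ⟨_, mem_insert _ _⟩
  obtain ⟨α, hα⟩ := N.cnt_cof q
  have hα' : ∀ i ∈ C0.1 ∪ C1, ∃ n, N.cnt α n = i := by
    intro i hi
    have h1 : i ∈ insert (Classical.arbitrary Λ) (C0.1 ∪ C1) := Or.inr hi
    rw [hq] at h1
    obtain ⟨n, hn⟩ := h1
    obtain ⟨l, hl⟩ := hα n
    exact ⟨l, hl.trans hn⟩
  have hcIio : Countable (Iio γ) := (hcnt γ).to_subtype
  let s : X × Set ℕ → (Iio γ → ℕ → ℕ) × (Iic γ → ℕ → Set ℕ) := fun z => N.sig src γ α (F z.1)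
  let f : X × Set ℕ → (ℕ → ℕ) := fun z => F z.1 γ
  have hsm : Measurable s := (h.measurable (fun x => N.sig src γ α (F x))).comp measurable_fst
  have hfm : Measurable f := (h.measurable (fun x => F x γ)).comp measurable_fst
  -- measurability with respect to `s`
  have hle1 : m (γ, C0) ≤ MeasurableSpace.comap s inferInstance := by
    have hn : ∀ i : C0.1, ∃ n, N.cnt α n = i.1 := fun i => hα' i.1 (Or.inl i.2)
    choose n hn using hn
    let φ : (Iio γ → ℕ → ℕ) × (Iic γ → ℕ → Set ℕ) →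
        (Iio γ → ℕ → ℕ) × (Iio γ → C0.1 → Set ℕ) := fun p =>
      (p.1, fun η i => p.2 ⟨η.1, le_of_lt η.2⟩ (n i))
    have hφ : Measurable φ := by
      refine Measurable.prodMk measurable_fst ?_
      refine measurable_pi_lambda _ fun η => measurable_pi_lambda _ fun i => ?_
      exact (measurable_pi_apply _).comp ((measurable_pi_apply _).comp measurable_snd)
    have h1 : T (γ, C0) = φ ∘ s := by
      funext z
      simp only [T, φ, s, Function.comp, NodeData.sig]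
      congr 1
      funext η i
      rw [hn i]
    simp only [m]
    rw [h1, ← MeasurableSpace.comap_comp]
    exact MeasurableSpace.comap_mono hφ.comap_le
  -- measurability of `(s, f)` with respect to a later sigma-algebra
  obtain ⟨β, hβ⟩ := hΩ (fun _ => γ)
  have hγβ : γ < β := hβ 0
  let j1 : J := (β, ⟨range (N.cnt α), countable_range _⟩)
  have hle2 : ∀ A : Set (((Iio γ → ℕ → ℕ) × (Iic γ → ℕ → Set ℕ)) × (ℕ → ℕ)), MeasurableSet A →
      MeasurableSet[m j1] ((fun z => (s z, f z)) ⁻¹' A) := by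
    intro A hA
    let ψ : (Iio j1.1 → ℕ → ℕ) × (Iio j1.1 → j1.2.1 → Set ℕ) →
        ((Iio γ → ℕ → ℕ) × (Iic γ → ℕ → Set ℕ)) × (ℕ → ℕ) := fun p =>
      ((fun η => p.1 ⟨η.1, lt_trans η.2 hγβ⟩,
        fun η n => p.2 ⟨η.1, lt_of_le_of_lt η.2 hγβ⟩ ⟨N.cnt α n, ⟨n, rfl⟩⟩), p.1 ⟨γ, hγβ⟩)
    have hψ : Measurable ψ := by
      refine Measurable.prodMk (Measurable.prodMk ?_ ?_) ?_
      · exact measurable_pi_lambda _ fun η => (measurable_pi_apply _).comp measurable_fst
      · refine measurable_pi_lambda _ fun η => measurable_pi_lambda _ fun i => ?_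
        exact (measurable_pi_apply _).comp ((measurable_pi_apply _).comp measurable_snd)
      · exact (measurable_pi_apply _).comp measurable_fst
    exact ⟨ψ ⁻¹' A, hψ hA, rfl⟩
  have hK := kernel_of_stable (P := P) (s := s) (f := f) (h := hh) hsm hhm (by
    intro a b
    obtain ⟨G, hG1, hG2, hG3⟩ := hst a b
    exact ⟨G, hG1.mono hle1 le_rfl, hG2, fun A hA => hG3 j1 _ (hle2 A hA)⟩)
  -- the bad set
  have hemb2 : MeasurableEmbedding (Prod.map (Prod.map
      (id : (Iio γ → ℕ → ℕ) × (Iic γ → ℕ → Set ℕ) → (Iio γ → ℕ → ℕ) × (Iic γ → ℕ → Set ℕ))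
      (embeddingReal (Set ℕ))) (id : (ℕ → ℕ) → (ℕ → ℕ))) :=
    (MeasurableEmbedding.id.prodMap hemb).prodMap MeasurableEmbedding.id
  let E : Set ((((Iio γ → ℕ → ℕ) × (Iic γ → ℕ → Set ℕ)) × ℝ) × (ℕ → ℕ)) :=
    Prod.map (Prod.map id (embeddingReal (Set ℕ))) id '' badSet γ
  have hEm : MeasurableSet E := hemb2.measurableSet_image' (measurableSet_badSet γ)
  have hEmem : ∀ t (u : Set ℕ) y, ((t, embeddingReal (Set ℕ) u), y) ∈ E ↔
      ((t, u), y) ∈ badSet γ := by
    intro t u y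
    have h1 : ((t, embeddingReal (Set ℕ) u), y) =
        Prod.map (Prod.map id (embeddingReal (Set ℕ))) id ((t, u), y) := rfl
    simp only [E]
    rw [h1, hemb2.injective.mem_set_image]
  have hE2 : ∀ t z, iidLaw {y | ((t, z), y) ∈ E} = 0 := by
    intro t z
    by_cases hz : z ∈ range (embeddingReal (Set ℕ))
    · obtain ⟨u, rfl⟩ := hz
      have : {y | ((t, embeddingReal (Set ℕ) u), y) ∈ E} = {y | ((t, u), y) ∈ badSet γ} := by
        ext y
        exact hEmem t u y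
      rw [this]
      exact badSet_null γ t u
    · have : {y | ((t, z), y) ∈ E} = ∅ := by
        ext y
        simp only [mem_ofPred_eq, mem_empty_iff_false, iff_false]
        rintro ⟨p, -, hp⟩
        exact hz ⟨p.1.2, congrArg (fun w => w.1.2) hp⟩
      rw [this, measure_empty]
  have hE1 : ∀ A : Set (((Iio γ → ℕ → ℕ) × (Iic γ → ℕ → Set ℕ)) × (ℕ → ℕ)), MeasurableSet A →
      P {ω | (s ω, f ω) ∈ A} ≠ 0 →
      P {ω | (s ω, f ω) ∈ A ∧ ((s ω, hh ω), f ω) ∈ E} ≠ 0 := by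
    intro A hA hne h0
    let A' : Set X := {x | (N.sig src γ α (F x), F x γ) ∈ A}
    have hPA : P {ω | (s ω, f ω) ∈ A} = μ A' := by
      rw [← hPfst, Measure.map_apply measurable_fst (h.all A')]
      rfl
    have hTmeas : MeasurableSet {ω | (s ω, f ω) ∈ A ∧ ((s ω, hh ω), f ω) ∈ E} := by
      refine MeasurableSet.inter ?_ ?_
      · exact (hsm.prodMk hfm) hA
      · exact ((hsm.prodMk hhm).prodMk hfm) hEm
    have h1 : ∀ᵐ x ∂μ, κ x (Prod.mk x ⁻¹' {ω | (s ω, f ω) ∈ A ∧ ((s ω, hh ω), f ω) ∈ E}) = 0 := by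
      have h2 : P {ω | (s ω, f ω) ∈ A ∧ ((s ω, hh ω), f ω) ∈ E} = 0 := h0
      simp only [P] at h2
      rw [Measure.compProd_apply hTmeas, lintegral_eq_zero_iff
        (Kernel.measurable_kernel_prodMk_left hTmeas)] at h2
      exact h2
    refine hne ?_
    rw [hPA]
    refine measure_mono_null ?_ (measure_union_null (ae_iff.1 h1) hC1')
    intro x hx
    by_cases hix : idx x γ ∈ C1
    · refine Or.inl ?_
      obtain ⟨n, hn⟩ := hα' _ (Or.inr hix)
      intro h3
      refine hbad x γ (measure_mono_null ?_ h3)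
      rintro u ⟨hu1, v, hu2⟩
      refine ⟨hx, ?_⟩
      change ((N.sig src γ α (F x), embeddingReal (Set ℕ) u), F x γ) ∈ E
      rw [hEmem]
      refine ⟨n, ?_, v, ?_⟩
      · change u ∈ hit (N.Dl src (F x) γ (N.cnt α n))
        rw [hn]
        exact hu1
      · change ¬ (u ∩ {k | k ∈ N.Dl src (F x) γ (N.cnt α n) ∧ F x γ k = v}).Infinite
        rw [hn]
        exact hu2
    · exact Or.inr hix
  have hsing := mutuallySingular_of_kernel hsm hfm hhm iidLaw hEm hE1 hE2 hK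
  refine hF γ α ?_
  have e1 : P.map (fun z => (s z, f z)) = μ.map (fun x => (N.sig src γ α (F x), F x γ)) := by
    rw [← hPfst, Measure.map_map (h.measurable _) measurable_fst]
    rfl
  have e2 : P.map s = μ.map (fun x => N.sig src γ α (F x)) := by
    rw [← hPfst, Measure.map_map (h.measurable _) measurable_fst]
    rfl
  rw [e1, e2] at hsing
  exact hsing

/-- The main theorem: existence of a small maximal almost disjoint family. -/
theorem IsRVM.exists_isMAD_of_nodeData (h : IsRVM X μ) (hc : #X ≤ 𝔠) (N : NodeData Λ)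
    (h1 : ℵ₁ ≤ #Λ) (hΛ : #Λ < #X) : ∃ A : Set (Set ℕ), IsMAD A ∧ #A = #Λ := by
  classical
  have hinf : Infinite Λ := Cardinal.infinite_iff.2 ((aleph0_le_aleph 1).trans h1)
  let Ω : Type := (ℵ₁ : Cardinal.{0}).out
  have hΩc : #Ω = ℵ₁ := mk_out _
  obtain ⟨loΩ, wfΩ, hordΩ⟩ := exists_ord_eq_type_lt Ω
  have hIio : ∀ i : Ω, (Iio i).Countable := by
    intro i
    rw [← le_aleph0_iff_set_countable, ← Order.lt_succ_iff, succ_aleph0, ← hΩc]
    exact mk_Iio_lt i hordΩ
  have hne : Nonempty Ω := by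
    rw [← mk_ne_zero_iff, hΩc]
    exact (aleph_pos 1).ne'
  have hΩ : ∀ q : ℕ → Ω, ∃ i, ∀ n, q n < i := by
    intro q
    have h1 : (⋃ n, Iic (q n)).Countable := by
      refine countable_iUnion fun n => ?_
      have : Iic (q n) = Iio (q n) ∪ {q n} := by
        ext y; simp [le_iff_lt_or_eq]
      rw [this]
      exact (hIio _).union (countable_singleton _)
    have h2 : (⋃ n, Iic (q n)) ≠ Set.univ := by
      intro h3
      rw [h3, ← le_aleph0_iff_set_countable, mk_univ, hΩc] at h1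
      exact absurd aleph0_lt_aleph_one (not_lt.2 h1)
    obtain ⟨i, hi⟩ := (ne_univ_iff_exists_notMem _).1 h2
    refine ⟨i, fun n => ?_⟩
    by_contra hlt
    exact hi (mem_iUnion.2 ⟨n, not_lt.1 hlt⟩)
  have hsrc : ∀ γ : Ω, ∃ f : ℕ → ℕ ⊕ Iio γ, Function.Surjective f := by
    intro γ
    have := (hIio γ).to_subtype
    exact exists_surjective_nat _
  choose src hsrc using hsrc
  obtain ⟨E, hE⟩ := h.exists_hits_all hc N hΛ src hsrc hIio hΩ
  refine ⟨N.Fam src E, N.isMAD_Fam (hΛ.trans_le (h.le_covNull hc)) src hsrc E hE, ?_⟩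
  exact le_antisymm (N.mk_Fam_le (hΩc.le.trans h1) src E) (N.le_mk_Fam src E)

end Pool.Agent.helper751_mad
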