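import Mathlib
import Pool.Agent.helper751_mad.Defs2
import Pool.Agent.helper751_mad.Main
import Pool.Agent.helper751_mad.Data
import Pool.Agent.helper751_mad.Cof

set_option autoImplicit false
open MeasureTheory Set Cardinal Filter Topology

namespace Pool.Agent.helper751_mad

theorem Dominating.aleph_one_le {D : Set (ℕ → ℕ)} (hD : Dominating D) : ℵ₁ ≤ #D := by
  by_contra hlt
  push Not at hlt
  rw [← succ_aleph0, Order.lt_succ_iff, le_aleph0_iff_set_countable] at hlt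
  obtain ⟨g0, hg0, -⟩ := hD 0
  obtain ⟨e, he⟩ := hlt.exists_eq_range ⟨g0, hg0⟩
  obtain ⟨g, hg, hfg⟩ := hD (fun n => (Finset.range (n + 1)).sup (fun i => e i n) + 1)
  rw [he] at hg
  obtain ⟨i, rfl⟩ := hg
  obtain ⟨n, hn, hin⟩ := (hfg.and (eventually_ge_atTop i)).exists
  have h1 : e i n ≤ (Finset.range (n + 1)).sup (fun i => e i n) :=
    Finset.le_sup (f := fun i => e i n) (Finset.mem_range.2 (Nat.lt_succ_of_le hin))
  exact absurd (hn.trans h1) (Nat.not_succ_le_self _)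

theorem polishSpace_cantor : PolishSpace (ℕ → Bool) := by
  have : TopologicalSpace.IsCompletelyMetrizableSpace (ℕ → Bool) := by infer_instance
  have : TopologicalSpace.SeparableSpace (ℕ → Bool) := by infer_instance
  exact instPolishSpaceOfSeparableSpaceOfIsCompletelyMetrizableSpace

/-- An analytic subset of the Cantor space is the union of as many closed sets as there are
members in a dominating family. -/
theorem exists_closed_cover {Λ : Type} {g : Λ → ℕ → ℕ}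
    (g_dom : ∀ f : ℕ → ℕ, ∃ i, ∀ k, f k ≤ g i k) {S : Set (ℕ → Bool)} (hS : AnalyticSet S) :
    ∃ C : Λ → Set (ℕ → Bool), (∀ i, IsClosed (C i)) ∧ ⋃ i, C i = S := by
  rw [AnalyticSet] at hS
  rcases hS with h | ⟨f, hf, hfS⟩
  · exact ⟨fun _ => ∅, fun _ => isClosed_empty, by rw [h]; simp⟩
  · refine ⟨fun i => f '' {x | ∀ k, x k ≤ g i k}, fun i => ?_, ?_⟩
    · have h1 : {x : ℕ → ℕ | ∀ k, x k ≤ g i k} = Set.pi Set.univ (fun k => Iic (g i k)) := by
        ext x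
        simp only [mem_ofPred_eq, Set.mem_pi, Set.mem_univ, mem_Iic, forall_true_left]
      have h2 : IsCompact {x : ℕ → ℕ | ∀ k, x k ≤ g i k} := by
        rw [h1]
        exact isCompact_univ_pi fun k => (Set.finite_Iic _).isCompact
      exact (h2.image hf).isClosed
    · rw [← image_iUnion, ← hfS, ← image_univ]
      congr 1
      refine eq_univ_of_forall fun x => ?_
      obtain ⟨i, hi⟩ := g_dom x
      exact mem_iUnion.2 ⟨i, hi⟩

variable {X : Type} [MeasurableSpace X] {μ : Measure X}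

theorem IsRVM.exists_isMAD_of_cover (h : IsRVM X μ) (hc : #X ≤ 𝔠) {Λ : Type} (hΛ : #Λ < #X)
    {D : Set (ℕ → ℕ)} (hD : Dominating D) (hDΛ : #D ≤ #Λ) (S : Set (Set Λ)) (hS : #S ≤ #Λ)
    (hS1 : ∀ s ∈ S, s.Countable) (hS2 : ∀ t : Set Λ, t.Countable → ∃ s ∈ S, t ⊆ s)
    (𝒦 ℒ : Set (Set (ℕ → Bool))) (hK : #𝒦 = #Λ) (hKc : ∀ K ∈ 𝒦, IsClosed K ∧ K.Nonempty)
    (hKd : ∀ K ∈ 𝒦, ∀ K' ∈ 𝒦, K ≠ K' → Disjoint K K') (hL : #ℒ ≤ #Λ)
    (hLa : ∀ L ∈ ℒ, AnalyticSet L) (hKL : ⋃₀ ℒ = (⋃₀ 𝒦)ᶜ) :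
    ∃ A : Set (Set ℕ), IsMAD A ∧ #A = #Λ := by
  classical
  have h1 : ℵ₁ ≤ #Λ := hD.aleph_one_le.trans hDΛ
  have hinf : Infinite Λ := Cardinal.infinite_iff.2 ((aleph0_le_aleph 1).trans h1)
  obtain ⟨g, g_dom⟩ := exists_everywhere_dom (Λ := Λ) D hDΛ hD
  obtain ⟨cnt, cnt_cof⟩ := exists_cnt S hS hS1 hS2
  obtain ⟨e⟩ := Cardinal.eq.1 hK.symm
  have hcl : ∀ L : ℒ, ∃ C : Λ → Set (ℕ → Bool), (∀ i, IsClosed (C i)) ∧ ⋃ i, C i = L.1 :=
    fun L => exists_closed_cover g_dom (hLa L.1 L.2)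
  choose C hC1 hC2 using hcl
  let ι : Type := Option (ℒ × Λ)
  have hι : #ι ≤ #Λ := by
    have h0 : ℵ₀ ≤ #Λ := aleph0_le_mk Λ
    have h2 : #ι = #ℒ * #Λ + 1 := by
      simp only [ι]
      rw [mk_option, mk_prod]; simp only [lift_id]
    rw [h2]
    refine (add_le_add_left (mul_le_of_le h0 hL le_rfl) 1).trans ?_
    exact (add_eq_left h0 ((one_lt_aleph0.le).trans h0)).le
  obtain ⟨N⟩ := exists_nodeData (Λ := Λ) (ι := ι) hι g g_dom cnt cnt_cof (fun i => (e i).1)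
    (fun o => o.elim ∅ (fun p => C p.1 p.2)) (fun i => (hKc _ (e i).2).1) (by
      rintro (_ | p)
      · exact isClosed_empty
      · exact hC1 _ _) (fun i => (hKc _ (e i).2).2) (by
      intro i j hij
      refine hKd _ (e i).2 _ (e j).2 fun heq => hij ?_
      exact e.injective (Subtype.ext heq)) (by
      rintro i (_ | p)
      · exact disjoint_empty _
      · rw [Set.disjoint_left]
        intro z hz hz'
        have h3 : z ∈ ⋃₀ ℒ := ⟨p.1.1, p.1.2, by rw [← hC2 p.1]; exact mem_iUnion.2 ⟨p.2, hz'⟩⟩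
        rw [hKL] at h3
        exact h3 ⟨(e i).1, (e i).2, hz⟩) (by
      intro z
      by_cases hz : z ∈ ⋃₀ 𝒦
      · obtain ⟨K, hK', hzK⟩ := hz
        obtain ⟨i, hi⟩ := e.surjective ⟨K, hK'⟩
        exact Or.inl ⟨i, by rw [hi]; exact hzK⟩
      · have h3 : z ∈ ⋃₀ ℒ := by rw [hKL]; exact hz
        obtain ⟨L, hL', hzL⟩ := h3
        have h4 : z ∈ ⋃ i, C ⟨L, hL'⟩ i := by rw [hC2]; exact hzL
        obtain ⟨i, hi⟩ := mem_iUnion.1 h4
        exact Or.inr ⟨some (⟨L, hL'⟩, i), hi⟩)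
  exact h.exists_isMAD_of_nodeData hc N h1 hΛ

/-- The complement of a maximal almost disjoint family, as a subset of the Cantor space, is the
union of few Borel sets. -/
theorem exists_borel_of_isMAD {A : Set (Set ℕ)} (hA : IsMAD A) :
    ∃ Z : Set (ℕ → Bool), #Z = #A ∧ ∃ B : Set (Set (ℕ → Bool)), #B ≤ #A ∧
      (∀ b ∈ B, MeasurableSet b) ∧ ⋃₀ B = Zᶜ := by
  classical
  let χ : Set ℕ → ℕ → Bool := fun a n => decide (n ∈ a)
  let σ : (ℕ → Bool) → Set ℕ := fun x => {n | x n = true}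
  have hσχ : ∀ a, σ (χ a) = a := by
    intro a; ext n; simp [σ, χ]
  have hχσ : ∀ x, χ (σ x) = x := by
    intro x; funext n; simp [σ, χ]
  have hσm : Measurable σ := by
    rw [measurable_set_iff]
    intro n
    have h1 : Measurable (fun x : ℕ → Bool => x n) := measurable_pi_apply n
    exact measurableSet_setOfPred.1 (h1 (measurableSet_singleton true))
  have hχi : Function.Injective χ := fun a b hab => by rw [← hσχ a, hab, hσχ]
  have hAinf : ℵ₀ ≤ #A := by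
    have := hA.1.to_subtype
    exact aleph0_le_mk A
  refine ⟨χ '' A, mk_image_eq hχi, insert {x | (σ x).Finite}
    ((fun a => {x | (σ x ∩ a).Infinite} \ {χ a}) '' A), ?_, ?_, ?_⟩
  · refine (mk_insert_le).trans ?_
    refine (add_le_add_left mk_image_le 1).trans ?_
    exact (add_eq_left hAinf ((one_lt_aleph0.le).trans hAinf)).le
  · rintro b (rfl | ⟨a, ha, rfl⟩)
    · have h1 : {x : ℕ → Bool | (σ x).Finite} = σ ⁻¹' {s | s.Infinite}ᶜ := by
        ext x
        simp [Set.not_infinite]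
      rw [h1]
      exact hσm measurableSet_infinite.compl
    · exact (hσm (measurableSet_hit' a)).diff (measurableSet_singleton _)
  · apply Subset.antisymm
    · rintro x ⟨b, (rfl | ⟨a, ha, rfl⟩), hx⟩
      · rintro ⟨a, ha, rfl⟩
        have h1 : (σ (χ a)).Finite := hx
        rw [hσχ] at h1
        exact hA.2.1.1 a ha h1
      · rintro ⟨a', ha', rfl⟩
        obtain ⟨h1, h2⟩ := hx
        have h3 : (σ (χ a') ∩ a).Infinite := h1
        rw [hσχ] at h3
        have h4 : a' ≠ a := by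
          rintro rfl
          exact h2 rfl
        exact h3 (hA.2.1.2 a' ha' a ha h4)
    · intro x hx
      by_cases hf : (σ x).Finite
      · exact ⟨_, Or.inl rfl, hf⟩
      · obtain ⟨a, ha, hxa⟩ := hA.2.2 (σ x) hf
        refine ⟨_, Or.inr ⟨a, ha, rfl⟩, hxa, ?_⟩
        intro h1
        refine hx ⟨a, ha, ?_⟩
        exact (mem_singleton_iff.1 h1).symm

/-- The spectrum theorem. -/
theorem IsRVM.tfae_spectrum (h : IsRVM X μ) (hc : #X ≤ 𝔠) {Λ : Type} (hΛ : #Λ < #X)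
    (hD : ∃ D : Set (ℕ → ℕ), Dominating D ∧ #D ≤ #Λ)
    (hS : (∃ n : ℕ, #Λ = ℵ_ n) ∨ ∃ S : Set (Set Λ), #S ≤ #Λ ∧ CofCountable S) :
    List.TFAE [
      ∃ A : Set (Set ℕ), IsMAD A ∧ #A = #Λ,
      ∃ Z : Set (ℕ → Bool), #Z = #Λ ∧ ∃ C : Set (Set (ℕ → Bool)), #C ≤ #Λ ∧
        (∀ c ∈ C, IsClosed c) ∧ ⋃₀ C = Zᶜ,
      ∃ K L : Set (Set (ℕ → Bool)), #K = #Λ ∧ (∀ k ∈ K, IsClosed k ∧ k.Nonempty) ∧
        (∀ k ∈ K, ∀ k' ∈ K, k ≠ k' → Disjoint k k') ∧ #L ≤ #Λ ∧
        (∀ l ∈ L, AnalyticSet l) ∧ ⋃₀ L = (⋃₀ K)ᶜ] := by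
  classical
  have := polishSpace_cantor
  obtain ⟨D, hD, hDΛ⟩ := hD
  have hS' : ∃ S : Set (Set Λ), #S ≤ #Λ ∧ CofCountable S := by
    rcases hS with ⟨n, hn⟩ | hS
    · rw [hn]
      exact exists_cofCountable n Λ hn.le
    · exact hS
  obtain ⟨S, hS, hS1, hS2⟩ := hS'
  have h1 : ℵ₁ ≤ #Λ := hD.aleph_one_le.trans hDΛ
  have hinf : Infinite Λ := Cardinal.infinite_iff.2 ((aleph0_le_aleph 1).trans h1)
  have h0 : ℵ₀ ≤ #Λ := aleph0_le_mk Λ
  tfae_have 1 → 2 := by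
    rintro ⟨A, hA, hAΛ⟩
    obtain ⟨Z, hZ, B, hB, hBm, hBU⟩ := exists_borel_of_isMAD hA
    obtain ⟨g, g_dom⟩ := exists_everywhere_dom (Λ := Λ) D hDΛ hD
    have hcl : ∀ b : B, ∃ C : Λ → Set (ℕ → Bool), (∀ i, IsClosed (C i)) ∧ ⋃ i, C i = b.1 :=
      fun b => exists_closed_cover g_dom (hBm b.1 b.2).analyticSet
    choose C hC1 hC2 using hcl
    refine ⟨Z, hZ.trans hAΛ, range (fun p : B × Λ => C p.1 p.2), ?_, ?_, ?_⟩
    · refine mk_range_le.trans ?_
      have h2 : #(B × Λ) = #B * #Λ := by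
        rw [mk_prod]; simp only [lift_id]
      rw [h2]
      exact mul_le_of_le h0 (hB.trans hAΛ.le) le_rfl
    · rintro _ ⟨p, rfl⟩
      exact hC1 _ _
    · rw [← hBU]
      ext z
      constructor
      · rintro ⟨_, ⟨p, rfl⟩, hz⟩
        refine ⟨p.1.1, p.1.2, ?_⟩
        rw [← hC2 p.1]
        exact mem_iUnion.2 ⟨p.2, hz⟩
      · rintro ⟨b, hb, hz⟩
        have h3 : z ∈ ⋃ i, C ⟨b, hb⟩ i := by rw [hC2]; exact hz
        obtain ⟨i, hi⟩ := mem_iUnion.1 h3
        exact ⟨_, ⟨(⟨b, hb⟩, i), rfl⟩, hi⟩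
  tfae_have 2 → 3 := by
    rintro ⟨Z, hZ, C, hC, hCc, hCU⟩
    refine ⟨(fun z => {z}) '' Z, C, ?_, ?_, ?_, hC, fun c hc => (hCc c hc).measurableSet.analyticSet,
      ?_⟩
    · rw [mk_image_eq singleton_injective, hZ]
    · rintro _ ⟨z, -, rfl⟩
      exact ⟨isClosed_singleton, singleton_nonempty z⟩
    · rintro _ ⟨z, -, rfl⟩ _ ⟨z', -, rfl⟩ hne
      exact disjoint_singleton.2 fun h => hne (by rw [h])
    · rw [hCU]
      congr 1
      ext z
      simp
  tfae_have 3 → 1 := by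
    rintro ⟨K, L, hK, hKc, hKd, hL, hLa, hKL⟩
    exact h.exists_isMAD_of_cover hc hΛ hD hDΛ S hS hS1 hS2 K L hK hKc hKd hL hLa hKL
  tfae_finish

/-- If there is a dominating family of size `ℵ₁` then there is a maximal almost disjoint family
of size `ℵ₁`. -/
theorem IsRVM.exists_isMAD_aleph_one (h : IsRVM X μ) (hc : #X ≤ 𝔠) {D : Set (ℕ → ℕ)}
    (hD : Dominating D) (hD1 : #D ≤ ℵ₁) : ∃ A : Set (Set ℕ), IsMAD A ∧ #A = ℵ₁ := by
  obtain ⟨Λ, hΛ, ⟨N⟩⟩ := exists_nodeData_aleph_one D hD1 hD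
  obtain ⟨A, hA, hAΛ⟩ := h.exists_isMAD_of_nodeData hc N hΛ.ge (by rw [hΛ]; exact h.aleph_one_lt hc)
  exact ⟨A, hA, hAΛ.trans hΛ⟩

/-- There is an infinite maximal almost disjoint family. -/
theorem exists_isMAD : ∃ A : Set (Set ℕ), IsMAD A := by
  classical
  let P : ℕ → Set ℕ := fun j => {m | (Nat.unpair m).1 = j}
  have hPinf : ∀ j, (P j).Infinite := by
    intro j
    refine Set.infinite_of_injective_forall_mem (f := fun n => Nat.pair j n) ?_ ?_
    · intro a b hab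
      exact (Nat.pair_eq_pair.1 hab).2
    · intro n
      simp [P]
  have hPd : ∀ i j, i ≠ j → P i ∩ P j = ∅ := by
    intro i j hij
    ext m
    simp only [P, mem_inter_iff, mem_ofPred_eq, mem_empty_iff_false, iff_false, not_and]
    intro h1 h2
    exact hij (h1.symm.trans h2)
  have hP : IsAD (range P) := by
    refine ⟨?_, ?_⟩
    · rintro _ ⟨j, rfl⟩
      exact hPinf j
    · rintro _ ⟨i, rfl⟩ _ ⟨j, rfl⟩ hij
      rw [hPd i j fun h => hij (by rw [h])]
      exact Set.finite_empty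
  obtain ⟨A, hPA, hA⟩ := zorn_subset_nonempty {A : Set (Set ℕ) | IsAD A} (by
    intro c hc hchain hne
    refine ⟨⋃₀ c, ⟨?_, ?_⟩, fun s hs => subset_sUnion_of_mem hs⟩
    · rintro a ⟨s, hs, ha⟩
      exact (hc hs).1 a ha
    · rintro a ⟨s, hs, ha⟩ b ⟨t, ht, hb⟩ hab
      rcases hchain.total hs ht with hst | hts
      · exact (hc ht).2 a (hst ha) b hb hab
      · exact (hc hs).2 a ha b (hts hb) hab) (range P) hP
  refine ⟨A, ?_, hA.prop, ?_⟩
  · refine (Set.infinite_range_of_injective ?_).mono hPA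
    intro i j hij
    by_contra hne
    have h1 := hPd i j hne
    have h2 : P i = P j := hij
    rw [h2, inter_self] at h1
    exact (hPinf j).nonempty.ne_empty h1
  · intro s hs
    by_contra hcon
    push Not at hcon
    have h1 : IsAD (insert s A) := by
      refine ⟨?_, ?_⟩
      · rintro a (rfl | ha)
        · exact hs
        · exact hA.prop.1 a ha
      · rintro a (rfl | ha) b (rfl | hb) hab
        · exact absurd rfl hab
        · exact hcon b hb
        · rw [inter_comm]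
          exact hcon a ha
        · exact hA.prop.2 a ha b hb hab
    have h2 : s ∈ A := hA.le_of_ge h1 (subset_insert s A) (mem_insert s A)
    have h3 := hcon s h2
    rw [inter_self] at h3
    exact hs h3

end Pool.Agent.helper751_mad
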